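import Pool.Agent.Helper83.PF.St

/-! # MP_b39980_an, project PF: assembly of the final statement -/

set_option autoImplicit false

open Set Filter Topology
open Helper85.HN (hen Orb Bd KK E0)

noncomputable section

namespace Helper83.PF

/-- Every `(-1, c)`, `c < 0`, has positive entropy, uniformly near it. -/
theorem neg_Asm (h1 : StNbM) (c : ℝ) (hc : c < 0) : ∃ δ > 0, ∀ b' c' : ℝ, |b' + 1| < δ → |c' - c| < δ →
    ((b', c') : ℝ × ℝ) ∉ E0 := by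
  obtain ⟨s, hs⟩ : ∃ s, s = Real.sqrt (-c) := ⟨_, rfl⟩
  have hs0 : 0 < s := by rw [hs]; exact Real.sqrt_pos.mpr (by linarith)
  have hs2 : s ^ 2 = -c := by rw [hs]; exact Real.sq_sqrt (by linarith)
  obtain ⟨κ, hκ⟩ : ∃ κ, κ = s + Real.sqrt (s ^ 2 + 1) := ⟨_, rfl⟩
  have hr1 : 1 ≤ Real.sqrt (s ^ 2 + 1) := by
    rw [Real.one_le_sqrt]; nlinarith
  have hκ1 : 1 < κ := by rw [hκ]; linarith
  have hr2 : Real.sqrt (s ^ 2 + 1) ^ 2 = s ^ 2 + 1 := Real.sq_sqrt (by positivity)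
  have hinv : κ⁻¹ = Real.sqrt (s ^ 2 + 1) - s := by
    apply inv_eq_of_mul_eq_one_right
    rw [hκ]
    nlinarith [hr2]
  have hqq : qq κ = s := by
    unfold qq
    rw [hinv, hκ]; ring
  obtain ⟨δ, hδ, hent⟩ := h1 κ hκ1
  refine ⟨δ, hδ, fun b' c' hb hc' => ?_⟩
  have h3 := hent b' c' hb (by rw [hqq, hs2, ← sub_eq_add_neg]; exact hc')
  exact not_le.mpr h3

/-- `(-1, 0)` is a frontier point. -/
theorem m1_Asm (h1 : StNbM) (h2 : Helper85.HN.StTop) : ((-1 : ℝ), (0 : ℝ)) ∈ frontier E0 := by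
  have hin : ((-1 : ℝ), (0 : ℝ)) ∈ E0 := h2.2.1 _ (by norm_num)
  refine ⟨subset_closure hin, ?_⟩
  intro hint
  rw [mem_interior_iff_mem_nhds, Metric.mem_nhds_iff] at hint
  obtain ⟨ε, hε, hball⟩ := hint
  obtain ⟨δ, hδ, h3⟩ := neg_Asm h1 (-(ε / 2)) (by linarith)
  refine h3 (-1) (-(ε / 2)) (by simpa using hδ) (by simpa using hδ) ?_
  apply hball
  rw [Metric.mem_ball, Prod.dist_eq, max_lt_iff]
  constructor
  · simpa using hε
  · rw [Real.dist_eq, sub_zero, abs_neg, abs_of_pos (by linarith)]; linarith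

theorem hPin (h1 : StNbM) (h2 : Helper85.HN.StTop) (h3 : Helper83.PE.StFin) (h4 : StUni) (h5 : StVer) (h6 : StItv) : StPin := by
  have hp1 : ((1 : ℝ), (1 : ℝ)) ∈ frontier E0 := h3.2.1
  have hp2 : ((-1 : ℝ), (0 : ℝ)) ∈ frontier E0 := m1_Asm h1 h2
  -- the frontier on the two lines
  have u1 : ∀ q ∈ frontier E0, q.1 = 1 → q = (1, 1) := by
    intro q hq h
    by_contra hne
    have hpos : 0 < dist q (1, 1) := dist_pos.mpr hne
    obtain ⟨δ, hδ, hh⟩ := h4 _ hpos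
    exact lt_irrefl _ ((hh q hq).1 (by rw [h, sub_self, abs_zero]; exact hδ))
  have u2 : ∀ q ∈ frontier E0, q.1 = -1 → q = (-1, 0) := by
    intro q hq h
    by_contra hne
    have hpos : 0 < dist q (-1, 0) := dist_pos.mpr hne
    obtain ⟨δ, hδ, hh⟩ := h4 _ hpos
    exact lt_irrefl _ ((hh q hq).2 (by rw [h, neg_add_cancel, abs_zero]; exact hδ))
  refine ⟨?_, ?_, hp1, hp2, ?_⟩
  · intro q hq
    refine ⟨fun hE => ?_, fun h => h2.2.1 q h⟩
    by_contra hlt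
    push Not at hlt
    obtain ⟨b, c⟩ := q
    simp only at hq hlt hE
    rcases (abs_eq (by norm_num : (0 : ℝ) ≤ 1)).mp hq with hb | hb
    · subst hb
      have hc : c < 1 := by norm_num at hlt; exact hlt
      exact absurd hE (interior_subset (h3.1 c hc))
    · subst hb
      have hc : c < 0 := by norm_num at hlt; exact hlt
      obtain ⟨δ, hδ, hh⟩ := neg_Asm h1 c hc
      exact hh (-1) c (by simpa using hδ) (by simpa using hδ) hE
  · intro η hη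
    obtain ⟨δ, hδ, hh⟩ := h4 η hη
    refine ⟨δ, hδ, fun q hq h => ?_⟩
    rcases le_total 0 q.1 with h0 | h0
    · left
      rw [abs_of_nonneg h0] at h
      exact (hh q hq).1 h
    · right
      rw [abs_of_nonpos h0] at h
      apply (hh q hq).2
      rw [← abs_neg]
      have : -(q.1 + 1) = -q.1 - 1 := by ring
      rw [this]; exact h
  · intro I hI hne
    obtain ⟨⟨c1, hc1⟩, ⟨c2, hc2⟩⟩ := h5
    exact h6 (frontier E0) (1, 1) (-1, 0) hp1 hp2 rfl rfl u1 u2 ⟨(2, c1), hc1, by norm_num⟩ ⟨(-2, c2), hc2, by norm_num⟩ I hI hne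

/-- The form of the hand-in. -/
def StPinch : Prop :=
  (∀ c : ℝ, ((-1, c) ∈ E0 ↔ 0 ≤ c) ∧ (c < 0 → (-1, c) ∈ interior E0ᶜ)) ∧
  (∀ η > 0, ∃ δ > 0, ∀ q ∈ frontier E0, |(|q.1| - 1)| < δ → dist q (1, 1) < η ∨ dist q (-1, 0) < η) ∧
  (-1, 0) ∈ frontier E0 ∧ ¬IsPreconnected (frontier E0 \ {(-1, 0)}) ∧
  ∀ I : Set ℝ, I.OrdConnected → Nonempty (I ≃ₜ frontier E0) →
    ∃ e : Icc (0 : ℝ) 1 ≃ₜ {q : ℝ × ℝ | q ∈ frontier E0 ∧ |q.1| ≤ 1},
      (e ⟨0, by norm_num, by norm_num⟩ : ℝ × ℝ) = (-1, 0) ∧ (e ⟨1, by norm_num, by norm_num⟩ : ℝ × ℝ) = (1, 1)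

theorem hPinch (h1 : StNbM) (h2 : Helper85.HN.StTop) (h3 : Helper83.PE.StFin) (h4 : StUni) (h5 : StVer) (h6 : StItv) : StPinch := by
  obtain ⟨p1, p2, p3, p4, p5⟩ := hPin h1 h2 h3 h4 h5 h6
  refine ⟨fun c => ⟨?_, fun hc => ?_⟩, p2, p4, ?_, p5⟩
  · have := p1 (-1, c) (by simp)
    rw [this]
    norm_num
  · obtain ⟨δ, hδ, hh⟩ := neg_Asm h1 c hc
    rw [mem_interior_iff_mem_nhds, Metric.mem_nhds_iff]
    refine ⟨δ, hδ, ?_⟩
    rintro ⟨b', c'⟩ hq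
    rw [Metric.mem_ball, Prod.dist_eq, max_lt_iff, Real.dist_eq, Real.dist_eq] at hq
    exact hh b' c' (by simpa using hq.1) hq.2
  · intro hpre
    obtain ⟨⟨c1, hc1⟩, ⟨c2, hc2⟩⟩ := h5
    have u2 : ∀ q ∈ frontier E0, q.1 = -1 → q = (-1, 0) := by
      intro q hq h
      by_contra hne
      have hpos : 0 < dist q (-1, 0) := dist_pos.mpr hne
      obtain ⟨δ, hδ, hh⟩ := h4 _ hpos
      exact lt_irrefl _ ((hh q hq).2 (by rw [h, neg_add_cancel, abs_zero]; exact hδ))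
    have hm1 : ((2 : ℝ), c1) ∈ frontier E0 \ {(-1, 0)} := ⟨hc1, by simp; intro h; norm_num at h⟩
    have hm2 : ((-2 : ℝ), c2) ∈ frontier E0 \ {(-1, 0)} := ⟨hc2, by simp⟩
    have hoc := (hpre.image Prod.fst continuous_fst.continuousOn).ordConnected
    have hmem : (-1 : ℝ) ∈ Prod.fst '' (frontier E0 \ {(-1, 0)}) :=
      hoc.out ⟨_, hm2, rfl⟩ ⟨_, hm1, rfl⟩ ⟨by norm_num, by norm_num⟩
    obtain ⟨q, hq, hq1⟩ := hmem
    exact hq.2 (u2 q hq.1 hq1)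

end Helper83.PF
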