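import Pool.Agent.Helper83.PF.St

/-!
# Project PF, module Arc: from a crossing point to arcs
-/

set_option autoImplicit false

namespace Helper83.PF

open Set Filter Topology

theorem hArc : StArc := by
  intro g U t1 N' X' Y' r' tA m hg hN' hX' hY' hU hC β hβ η hη
  obtain ⟨d, hd, hsg⟩ := hC.sg
  have hGc : ContinuousOn (fun t => g^[m] (U t)) (Icc 0 t1) :=
    (hg.iterate m).comp_continuousOn hU
  have hGt : ContinuousAt (fun t => g^[m] (U t)) tA :=
    hGc.continuousAt (Icc_mem_nhds hC.h0 hC.h1)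
  have hNn : N' ∈ 𝓝 (g^[m] (U tA)) := hN'.mem_nhds hC.inN
  have e1 : ∀ᶠ t in 𝓝 tA, g^[m] (U t) ∈ N' := hGt.eventually_mem hNn
  have hXt : ContinuousAt (fun t => |X' (g^[m] (U t))|) tA := by
    have h1 : ContinuousAt X' (g^[m] (U tA)) := hX'.continuousAt hNn
    have h2 : ContinuousAt (fun t => X' (g^[m] (U t))) tA :=
      ContinuousAt.comp (f := fun t => g^[m] (U t)) h1 hGt
    exact h2.abs
  have hYt : ContinuousAt (fun t => |Y' (g^[m] (U t))|) tA := by
    have h1 : ContinuousAt Y' (g^[m] (U tA)) := hY'.continuousAt hNn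
    have h2 : ContinuousAt (fun t => Y' (g^[m] (U t))) tA :=
      ContinuousAt.comp (f := fun t => g^[m] (U t)) h1 hGt
    exact h2.abs
  have e2 : ∀ᶠ t in 𝓝 tA, |X' (g^[m] (U t))| < β := by
    refine hXt.eventually_lt continuousAt_const ?_
    rw [hC.x0, abs_zero]
    exact hβ
  have e3 : ∀ᶠ t in 𝓝 tA, |Y' (g^[m] (U t))| < r' :=
    hYt.eventually_lt continuousAt_const hC.y0
  obtain ⟨δ, hδ, hball⟩ := Metric.eventually_nhds_iff.1 (e1.and (e2.and e3))
  obtain ⟨w, hw0, hw1, hw2, hw3, hw4, hw5⟩ : ∃ w : ℝ, 0 < w ∧ w < δ ∧ w < d ∧ w < η ∧ w < tA ∧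
      w < t1 - tA := by
    have h1 := hC.h0
    have h2 : 0 < t1 - tA := sub_pos.2 hC.h1
    refine ⟨min (min (min δ d) (min η tA)) (t1 - tA) / 2, ?_, ?_, ?_, ?_, ?_, ?_⟩
    · have : 0 < min (min (min δ d) (min η tA)) (t1 - tA) :=
        lt_min (lt_min (lt_min hδ hd) (lt_min hη h1)) h2
      linarith
    all_goals
      have hp : 0 < min (min (min δ d) (min η tA)) (t1 - tA) :=
        lt_min (lt_min (lt_min hδ hd) (lt_min hη h1)) h2
      have q1 : min (min (min δ d) (min η tA)) (t1 - tA) ≤ t1 - tA := min_le_right _ _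
      have q2 : min (min (min δ d) (min η tA)) (t1 - tA) ≤ min (min δ d) (min η tA) :=
        min_le_left _ _
      have q3 : min (min δ d) (min η tA) ≤ min δ d := min_le_left _ _
      have q4 : min (min δ d) (min η tA) ≤ min η tA := min_le_right _ _
      have q5 : min δ d ≤ δ := min_le_left _ _
      have q6 : min δ d ≤ d := min_le_right _ _
      have q7 : min η tA ≤ η := min_le_left _ _
      have q8 : min η tA ≤ tA := min_le_right _ _
      linarith
  refine ⟨tA - w, tA + w, by linarith, by linarith, by linarith, by linarith, by linarith,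
    by linarith, ?_⟩
  refine ⟨by linarith, ?_, ?_⟩
  · intro t ht
    have hdist : dist t tA < δ := by
      rw [Real.dist_eq, abs_lt]
      constructor
      · linarith [ht.1]
      · linarith [ht.2]
    exact hball hdist
  · exact hsg (tA - w) ⟨by linarith, by linarith⟩ (tA + w) ⟨by linarith, by linarith⟩

end Helper83.PF
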