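import Pool.Agent.Helper83.PF.St

/-! # MP_b39980_an, project PF: module Box -/

set_option autoImplicit false

open Set Filter Topology
open Helper85.HN (hen Orb Bd KK E0)
open Helper83.PE (vv Wu win Cross Covs)

namespace Helper83.PF

private lemma fac_Box (lam : ℝ) : 0 < 1 + (lam⁻¹) ^ 2 := by positivity

private lemma x_Box {lam : ℝ} (h0 : lam ≠ 0) (z : ℝ × ℝ) :
    z.1 - qq lam = -(xi lam z + et lam z / lam) := by
  have h1 : 1 + (lam⁻¹) ^ 2 ≠ 0 := (fac_Box lam).ne'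
  have h2 : lam ^ 2 + 1 ≠ 0 := by positivity
  unfold xi et
  rw [inv_eq_one_div] at h1 ⊢
  field_simp
  ring

private lemma y_Box {lam : ℝ} (h0 : lam ≠ 0) (z : ℝ × ℝ) :
    z.2 - qq lam = -(xi lam z / lam) + et lam z := by
  have h1 : 1 + (lam⁻¹) ^ 2 ≠ 0 := (fac_Box lam).ne'
  have h2 : lam ^ 2 + 1 ≠ 0 := by positivity
  unfold xi et
  rw [inv_eq_one_div] at h1 ⊢
  field_simp
  ring

private lemma ext_Box {lam : ℝ} (h : lam ≠ 0) {z z' : ℝ × ℝ} (h1 : xi lam z = xi lam z')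
    (h2 : et lam z = et lam z') : z = z' := by
  have a1 := x_Box h z
  have a2 := x_Box h z'
  have b1 := y_Box h z
  have b2 := y_Box h z'
  rw [h1, h2] at a1 b1
  exact Prod.ext (by linarith) (by linarith)

private lemma alg_Box {lam : ℝ} (h : lam ≠ 0) (z : ℝ × ℝ) :
    xi lam (FF lam z) = lam * xi lam z - (z.1 - qq lam) ^ 2 / (1 + (lam⁻¹) ^ 2) ∧
    et lam (FF lam z) = -(lam⁻¹ * et lam z) - lam⁻¹ * (z.1 - qq lam) ^ 2 / (1 + (lam⁻¹) ^ 2) := by
  have hk : (1 : ℝ) + (lam⁻¹) ^ 2 ≠ 0 := by positivity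
  have hlq : lam * lam⁻¹ = 1 := mul_inv_cancel₀ h
  obtain ⟨a, b⟩ := z
  simp only [xi, et, FF, hen, div_eq_mul_inv _ lam]
  set q := lam⁻¹ with hq
  have hp : qq lam = (lam - q) / 2 := rfl
  set p := qq lam with hpd
  have hlp : lam = 2 * p + q := by linarith
  refine ⟨?_, ?_⟩
  · rw [hlp]
    field_simp
    have : (2 * p + q) * q = 1 := by rw [← hlp]; exact hlq
    linear_combination (b - p) * this
  · field_simp
    have : (2 * p + q) * q = 1 := by rw [← hlp]; exact hlq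
    linear_combination -(a - p) * this

private noncomputable def Psi_Box (lam : ℝ) (q : ℝ × ℝ) : ℝ × ℝ :=
  (qq lam - q.1 - q.2 / lam, qq lam - q.1 / lam + q.2)

private lemma xiPsi_Box {lam : ℝ} (h0 : lam ≠ 0) (q : ℝ × ℝ) : xi lam (Psi_Box lam q) = q.1 := by
  have h1 : 1 + (lam⁻¹) ^ 2 ≠ 0 := (fac_Box lam).ne'
  unfold xi Psi_Box
  simp only
  rw [div_eq_iff h1]
  field_simp
  ring

private lemma etPsi_Box {lam : ℝ} (h0 : lam ≠ 0) (q : ℝ × ℝ) : et lam (Psi_Box lam q) = q.2 := by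
  have h1 : 1 + (lam⁻¹) ^ 2 ≠ 0 := (fac_Box lam).ne'
  unfold et Psi_Box
  simp only
  rw [div_eq_iff h1]
  field_simp
  ring

private lemma contxi_Box (lam : ℝ) : Continuous (xi lam) := by
  unfold xi; fun_prop

private lemma contet_Box (lam : ℝ) : Continuous (et lam) := by
  unfold et; fun_prop

private lemma contPsi_Box (lam : ℝ) : Continuous (Psi_Box lam) := by
  unfold Psi_Box; fun_prop

private lemma qneg_Box (lam : ℝ) : qq (-lam) = -qq lam := by
  unfold qq; rw [inv_neg]; ring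

private lemma xiWr_Box (lam : ℝ) (h0 : lam ≠ 0) (ψ : ℂ → ℂ) (t : ℝ) :
    xi lam (Wr (-lam) ψ t) = et (-lam) (Wu (-lam) ψ t) := by
  have h1 : 1 + (lam⁻¹) ^ 2 ≠ 0 := (fac_Box lam).ne'
  unfold xi et Wr Wu
  simp only [qneg_Box, inv_neg, neg_sq, div_neg]
  congr 1
  ring

private lemma etWr_Box (lam : ℝ) (h0 : lam ≠ 0) (ψ : ℂ → ℂ) (t : ℝ) :
    et lam (Wr (-lam) ψ t) = xi (-lam) (Wu (-lam) ψ t) := by
  have h1 : 1 + (lam⁻¹) ^ 2 ≠ 0 := (fac_Box lam).ne'
  unfold xi et Wr Wu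
  simp only [qneg_Box, inv_neg, neg_sq, div_neg]
  congr 1
  ring

private lemma contWu_Box {lam : ℝ} {φ : ℂ → ℂ} (hφ : UP lam φ) : Continuous (Wu lam φ) := by
  have h1 : Continuous φ := hφ.1.continuous
  unfold Wu vv
  fun_prop

private lemma Wu0_Box {lam : ℝ} {φ : ℂ → ℂ} (hφ : UP lam φ) : Wu lam φ 0 = (qq lam, qq lam) := by
  unfold Wu vv
  simp [hφ.2.1]

private lemma xiWu0_Box {lam : ℝ} {φ : ℂ → ℂ} (hφ : UP lam φ) : xi lam (Wu lam φ 0) = 0 := by
  rw [Wu0_Box hφ]; simp [xi]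

private lemma etWu0_Box {lam : ℝ} {φ : ℂ → ℂ} (hφ : UP lam φ) : et lam (Wu lam φ 0) = 0 := by
  rw [Wu0_Box hφ]; simp [et]

/-- `w` is `1/4`-Lipschitz near `0`. -/
private lemma lip_Box {lam : ℝ} {φ : ℂ → ℂ} {w : ℝ → ℝ} {ρ ρ' t0 : ℝ} (hG : Gr lam φ w ρ ρ' t0) :
    ∃ δ > 0, ∀ x y : ℝ, |x| < δ → |y| < δ → |w x - w y| ≤ 1 / 4 * |x - y| := by
  have hρ : 0 < ρ := lt_of_lt_of_le hG.hρ hG.hρ'
  have h1 : HasStrictDerivAt w 0 0 := by
    have h := (hG.cd 0 ⟨by linarith, hρ⟩).hasStrictDerivAt (by norm_num)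
    rwa [hG.dw0] at h
  obtain ⟨s, hs, hL⟩ := h1.hasStrictFDerivAt.exists_lipschitzOnWith_of_nnnorm_lt (1 / 4) (by simp)
  obtain ⟨δ, hδ, hb⟩ := Metric.mem_nhds_iff.1 hs
  refine ⟨δ, hδ, fun x y hx hy => ?_⟩
  have h2 := hL.dist_le_mul x (hb (by simpa [Real.dist_eq] using hx)) y (hb (by simpa [Real.dist_eq] using hy))
  simpa [Real.dist_eq] using h2

/-- One step: sizes and sign. -/
private lemma step_Box {lam e l X0 X1 : ℝ} (hlam : 1 < |lam|) (he0 : 0 < e) (he1 : e ≤ (|lam| - 1) / 2) (hl : l = (1 + |lam|) / 2)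
    (k : |X1 - lam * X0| ≤ e * |X0|) : l * |X0| ≤ |X1| ∧ |X1| ≤ (|lam| + e) * |X0| ∧ 0 ≤ lam * X0 * X1 := by
  have m1 : |X1| ≤ |X1 - lam * X0| + |lam * X0| := by
    have := abs_add_le (X1 - lam * X0) (lam * X0); simpa using this
  have m2 : |lam * X0| ≤ |X1 - lam * X0| + |X1| := by
    have := abs_add_le (lam * X0 - X1) X1
    rw [abs_sub_comm] at this
    simpa using this
  have m3 : 0 ≤ |X0| := abs_nonneg _
  have m4 : e * |X0| ≤ (|lam| - 1) / 2 * |X0| := mul_le_mul_of_nonneg_right he1 m3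
  refine ⟨?_, ?_, ?_⟩
  · rw [abs_mul] at m2
    rw [hl]
    nlinarith only [m2, k, m4]
  · rw [abs_mul] at m1
    nlinarith only [m1, k]
  · have m5 : lam * X0 * X1 = (lam * X0) ^ 2 + lam * X0 * (X1 - lam * X0) := by ring
    have m6 : |lam * X0 * (X1 - lam * X0)| ≤ |lam * X0| * (e * |X0|) := by
      rw [abs_mul (lam * X0)]
      exact mul_le_mul_of_nonneg_left k (abs_nonneg _)
    have m7 := neg_abs_le (lam * X0 * (X1 - lam * X0))
    have m8 : |lam * X0| * (e * |X0|) ≤ |lam * X0| * |lam * X0| := by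
      apply mul_le_mul_of_nonneg_left _ (abs_nonneg _)
      rw [abs_mul]
      exact mul_le_mul_of_nonneg_right (by linarith) m3
    rw [abs_mul_abs_self] at m8
    rw [m5]
    nlinarith only [m6, m7, m8]

theorem hBox (h1 : StGra) (h2 : StBoxX) (h3 : StBoxY) : StBox := by
  intro lam φ ψ hlam hφ hψ
  have hlam' : 1 < |(-lam)| := by rw [abs_neg]; exact hlam
  obtain ⟨w, ρ, ρ', t0', hG⟩ := h1 lam φ hlam hφ
  obtain ⟨w', σ, σ', s0', hG'⟩ := h1 (-lam) ψ hlam' hψ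
  have hρ' := hG.hρ
  have hρρ := hG.hρ'
  have hσ' := hG'.hρ
  have hσσ := hG'.hρ'
  have hlam0 : 0 < |lam| := by linarith
  have hlne : lam ≠ 0 := abs_pos.mp hlam0
  -- constants
  obtain ⟨l, hl⟩ : ∃ l, l = (1 + |lam|) / 2 := ⟨_, rfl⟩
  have hl1 : 1 < l := by rw [hl]; linarith
  have hllam : l < |lam| := by rw [hl]; linarith
  have hinv : 1 / |lam| < 1 / l := one_div_lt_one_div_of_lt (by linarith) hllam
  obtain ⟨e, he⟩ : ∃ e, e = min ((|lam| - 1) / 2) (1 / l - 1 / |lam|) := ⟨_, rfl⟩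
  have he0 : 0 < e := by rw [he]; exact lt_min (by linarith) (by linarith)
  have he1 : e ≤ (|lam| - 1) / 2 := by rw [he]; exact min_le_left _ _
  have he2 : e ≤ 1 / l - 1 / |lam| := by rw [he]; exact min_le_right _ _
  obtain ⟨L0, hL0⟩ : ∃ L0, L0 = |lam| + e := ⟨_, rfl⟩
  have hL01 : 1 < L0 := by rw [hL0]; linarith
  have hlL0 : l ≤ L0 := by rw [hL0]; linarith
  obtain ⟨L, hL⟩ : ∃ L, L = L0 ^ 2 := ⟨_, rfl⟩
  have hL0L : L0 ≤ L := by rw [hL]; nlinarith only [hL01]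
  have hL1 : 1 < L := lt_of_lt_of_le hL01 hL0L
  obtain ⟨δ1, hδ1, hX⟩ := h2 lam ψ w' σ σ' s0' hlam hψ hG' e he0
  obtain ⟨δ2, hδ2, hY⟩ := h3 lam φ w ρ ρ' t0' hlam hφ hG e he0
  obtain ⟨δ3, hδ3, hLip⟩ := lip_Box hG
  obtain ⟨δ4, hδ4, hLip'⟩ := lip_Box hG'
  obtain ⟨δ, hδ0, hdδ1, hdδ2, hdδ3, hdδ4, hdρ, hdσ⟩ : ∃ δ > 0, δ ≤ δ1 ∧ δ ≤ δ2 ∧ δ ≤ δ3 ∧ δ ≤ δ4 ∧ δ ≤ ρ' ∧ δ ≤ σ' :=
    ⟨min (min δ1 δ2) (min (min δ3 δ4) (min ρ' σ')), by simp [hδ1, hδ2, hδ3, hδ4, hρ', hσ'],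
      (min_le_left _ _).trans (min_le_left _ _), (min_le_left _ _).trans (min_le_right _ _),
      (min_le_right _ _).trans ((min_le_left _ _).trans (min_le_left _ _)),
      (min_le_right _ _).trans ((min_le_left _ _).trans (min_le_right _ _)),
      (min_le_right _ _).trans ((min_le_right _ _).trans (min_le_left _ _)),
      (min_le_right _ _).trans ((min_le_right _ _).trans (min_le_right _ _))⟩
  have hw : ∀ x y : ℝ, |x| < δ → |y| < δ → |w x - w y| ≤ 1 / 4 * |x - y| :=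
    fun x y hx hy => hLip x y (by linarith) (by linarith)
  have hwp : ∀ x y : ℝ, |x| < δ → |y| < δ → |w' x - w' y| ≤ 1 / 4 * |x - y| :=
    fun x y hx hy => hLip' x y (by linarith) (by linarith)
  have hw0 : ∀ x : ℝ, |x| < δ → |w x| ≤ 1 / 4 * |x| := by
    intro x hx
    have h := hw x 0 hx (by simpa using hδ0)
    rwa [hG.w0, sub_zero, sub_zero] at h
  have hwp0 : ∀ x : ℝ, |x| < δ → |w' x| ≤ 1 / 4 * |x| := by
    intro x hx
    have h := hwp x 0 hx (by simpa using hδ0)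
    rwa [hG'.w0, sub_zero, sub_zero] at h
  obtain ⟨N, hN⟩ : ∃ N : Set (ℝ × ℝ), N = {z | |xi lam z| < δ ∧ |et lam z| < δ} := ⟨_, rfl⟩
  have hNm : ∀ z, z ∈ N ↔ |xi lam z| < δ ∧ |et lam z| < δ := fun z => by rw [hN]; rfl
  have hNopen : IsOpen N := by
    rw [hN]
    exact (isOpen_lt (contxi_Box lam).abs continuous_const).inter
      (isOpen_lt (contet_Box lam).abs continuous_const)
  have hwc : ∀ x : ℝ, |x| < δ → ContDiffAt ℝ 1 w x := by
    intro x hx
    apply hG.cd x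
    rw [abs_lt] at hx
    exact ⟨by linarith, by linarith⟩
  have hwpc : ∀ x : ℝ, |x| < δ → ContDiffAt ℝ 1 w' x := by
    intro x hx
    apply hG'.cd x
    rw [abs_lt] at hx
    exact ⟨by linarith, by linarith⟩
  -- small r
  obtain ⟨r, hr0, hrd, hrd2⟩ : ∃ r : ℝ, 0 < r ∧ 4 / 3 * r < δ ∧ |lam| * (4 / 3 * r) + (8 / 3 * r) ^ 2 < δ := by
    have hev : ∀ᶠ r : ℝ in 𝓝[>] 0, 4 / 3 * r < δ ∧ |lam| * (4 / 3 * r) + (8 / 3 * r) ^ 2 < δ := by
      have c1 : Tendsto (fun r : ℝ => 4 / 3 * r) (𝓝[>] 0) (𝓝 0) := by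
        have : Continuous (fun r : ℝ => 4 / 3 * r) := by fun_prop
        have h := this.tendsto 0
        simp only [mul_zero] at h
        exact h.mono_left nhdsWithin_le_nhds
      have c2 : Tendsto (fun r : ℝ => |lam| * (4 / 3 * r) + (8 / 3 * r) ^ 2) (𝓝[>] 0) (𝓝 0) := by
        have : Continuous (fun r : ℝ => |lam| * (4 / 3 * r) + (8 / 3 * r) ^ 2) := by fun_prop
        have h := this.tendsto 0
        have h' : |lam| * (4 / 3 * (0:ℝ)) + (8 / 3 * (0:ℝ)) ^ 2 = 0 := by ring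
        rw [h'] at h
        exact h.mono_left nhdsWithin_le_nhds
      exact (c1.eventually (gt_mem_nhds hδ0)).and (c2.eventually (gt_mem_nhds hδ0))
    obtain ⟨r, hr, hr'⟩ := (hev.and self_mem_nhdsWithin).exists
    exact ⟨r, hr', hr.1, hr.2⟩
  -- the coordinates are controlled by X and Y
  have hctrl : ∀ a b : ℝ, |a| < δ → |b| < δ → |a - w' b| ≤ r → |b - w a| ≤ r → |a| ≤ 4 / 3 * r ∧ |b| ≤ 4 / 3 * r := by
    intro a b ha hb h1 h2
    have h3 := hw0 a ha
    have h4 := hwp0 b hb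
    have h5 : |a| ≤ |a - w' b| + |w' b| := by
      have := abs_add_le (a - w' b) (w' b); simpa using this
    have h6 : |b| ≤ |b - w a| + |w a| := by
      have := abs_add_le (b - w a) (w a); simpa using this
    constructor <;> linarith
  -- small t
  have hcW := contWu_Box hφ
  have hcW' := contWu_Box hψ
  have hcα : Continuous (fun t => xi lam (Wu lam φ t)) := (contxi_Box lam).comp hcW
  have hcβ : Continuous (fun t => et lam (Wu lam φ t)) := (contet_Box lam).comp hcW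
  have hcα' : Continuous (fun t => xi (-lam) (Wu (-lam) ψ t)) := (contxi_Box (-lam)).comp hcW'
  have hcβ' : Continuous (fun t => et (-lam) (Wu (-lam) ψ t)) := (contet_Box (-lam)).comp hcW'
  have hrL : 0 < r / L := by positivity
  have hrL' : r / L < r := div_lt_self hr0 hL1
  obtain ⟨t1, ht1, ht1', hs1', hsm⟩ : ∃ t1 : ℝ, 0 < t1 ∧ t1 < t0' ∧ t1 < s0' ∧ ∀ t ∈ Icc (-t1) t1,
      (|xi lam (Wu lam φ t)| < δ ∧
      |et lam (Wu lam φ t)| < δ ∧ xi lam (Wu lam φ t) - w' (et lam (Wu lam φ t)) < r / L) ∧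
      (|xi (-lam) (Wu (-lam) ψ t)| < δ ∧ |et (-lam) (Wu (-lam) ψ t)| < δ ∧ |xi (-lam) (Wu (-lam) ψ t)| < r / 2) := by
    have e1 : ∀ᶠ t in 𝓝 (0:ℝ), |xi lam (Wu lam φ t)| < δ := by
      have := hcα.abs.tendsto 0
      simp only [xiWu0_Box hφ, abs_zero] at this
      exact this.eventually (gt_mem_nhds hδ0)
    have e2 : ∀ᶠ t in 𝓝 (0:ℝ), |et lam (Wu lam φ t)| < δ := by
      have := hcβ.abs.tendsto 0
      simp only [etWu0_Box hφ, abs_zero] at this
      exact this.eventually (gt_mem_nhds hδ0)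
    have e3 : ∀ᶠ t in 𝓝 (0:ℝ), xi lam (Wu lam φ t) - w' (et lam (Wu lam φ t)) < r / L := by
      have hwc0 : ContinuousAt w' (et lam (Wu lam φ 0)) := by
        rw [etWu0_Box hφ]; exact (hwpc 0 (by simpa using hδ0)).continuousAt
      have hc : ContinuousAt (fun t => xi lam (Wu lam φ t) - w' (et lam (Wu lam φ t))) 0 :=
        hcα.continuousAt.sub (ContinuousAt.comp (f := fun t => et lam (Wu lam φ t)) hwc0 hcβ.continuousAt)
      have := hc.tendsto
      simp only [xiWu0_Box hφ, etWu0_Box hφ, hG'.w0, sub_zero] at this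
      exact this.eventually (gt_mem_nhds hrL)
    have e4 : ∀ᶠ t in 𝓝 (0:ℝ), |xi (-lam) (Wu (-lam) ψ t)| < δ := by
      have := hcα'.abs.tendsto 0
      simp only [xiWu0_Box hψ, abs_zero] at this
      exact this.eventually (gt_mem_nhds hδ0)
    have e5 : ∀ᶠ t in 𝓝 (0:ℝ), |et (-lam) (Wu (-lam) ψ t)| < δ := by
      have := hcβ'.abs.tendsto 0
      simp only [etWu0_Box hψ, abs_zero] at this
      exact this.eventually (gt_mem_nhds hδ0)
    have e6 : ∀ᶠ t in 𝓝 (0:ℝ), |xi (-lam) (Wu (-lam) ψ t)| < r / 2 := by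
      have := hcα'.abs.tendsto 0
      simp only [xiWu0_Box hψ, abs_zero] at this
      exact this.eventually (gt_mem_nhds (by positivity))
    obtain ⟨η, hη, hb⟩ := Metric.eventually_nhds_iff.1 ((e1.and (e2.and e3)).and (e4.and (e5.and e6)))
    have hp1 := hG.ht
    have hp2 := hG'.ht
    refine ⟨min (η / 2) (min (t0' / 2) (s0' / 2)), by positivity, ?_, ?_, ?_⟩
    · exact lt_of_le_of_lt ((min_le_right _ _).trans (min_le_left _ _)) (by linarith)
    · exact lt_of_le_of_lt ((min_le_right _ _).trans (min_le_right _ _)) (by linarith)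
    · intro t ht
      apply hb
      rw [Real.dist_eq, sub_zero]
      have := (abs_le.2 ht).trans (min_le_left _ _)
      linarith
  have ht0' := hG.ht
  have hs0' := hG'.ht
  have hmem : ∀ t ∈ Icc (-t1) t1, t ∈ Ioo (-t0') t0' := fun t ht => ⟨by linarith [ht.1], by linarith [ht.2]⟩
  have hmem' : ∀ t ∈ Icc (-t1) t1, t ∈ Ioo (-s0') s0' := fun t ht => ⟨by linarith [ht.1], by linarith [ht.2]⟩
  have hpos : ∀ t ∈ Icc 0 t1, t ∈ Icc (-t1) t1 := fun t ht => ⟨by linarith [ht.1], ht.2⟩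
  -- key: X (Wu t) in terms of α
  have hXW : ∀ t ∈ Ioo (-t0') t0', et lam (Wu lam φ t) = w (xi lam (Wu lam φ t)) := fun t ht => (hG.on t ht).2
  have hXW' : ∀ t ∈ Ioo (-s0') s0', et (-lam) (Wu (-lam) ψ t) = w' (xi (-lam) (Wu (-lam) ψ t)) :=
    fun t ht => (hG'.on t ht).2
  have hstrict : ∀ a b : ℝ, |a| < δ → |b| < δ → a < b → a - w' (w a) < b - w' (w b) := by
    intro a b ha hb hab
    have ha' := hw0 a ha
    have hb' := hw0 b hb
    have h5 : |w a| < δ := by have := abs_nonneg a; linarith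
    have h6 : |w b| < δ := by have := abs_nonneg b; linarith
    have h7 := hwp _ _ h6 h5
    have h8 := hw _ _ hb ha
    have h9 := le_abs_self (w' (w b) - w' (w a))
    rw [abs_of_pos (sub_pos.2 hab)] at h8
    linarith
  have hmonoX : StrictMonoOn (fun t => xi lam (Wu lam φ t) - w' (et lam (Wu lam φ t))) (Icc 0 t1) := by
    intro s hs t ht hst
    show xi lam (Wu lam φ s) - w' (et lam (Wu lam φ s)) < xi lam (Wu lam φ t) - w' (et lam (Wu lam φ t))
    rw [hXW s (hmem s (hpos s hs)), hXW t (hmem t (hpos t ht))]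
    exact hstrict _ _ (hsm s (hpos s hs)).1.1 (hsm t (hpos t ht)).1.1 (hG.mono (hmem s (hpos s hs)) (hmem t (hpos t ht)) hst)
  have hX0 : xi lam (Wu lam φ 0) - w' (et lam (Wu lam φ 0)) = 0 := by
    rw [xiWu0_Box hφ, etWu0_Box hφ, hG'.w0, sub_zero]
  have h0mem : (0:ℝ) ∈ Icc 0 t1 := ⟨le_refl _, ht1.le⟩
  have hcd : ContDiffOn ℝ 1 (fun z => xi lam z - w' (et lam z)) N := by
    intro z hz
    have hxi : ContDiff ℝ 1 (xi lam) := by unfold xi; fun_prop
    have het : ContDiff ℝ 1 (et lam) := by unfold et; fun_prop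
    have : ContDiffAt ℝ 1 (fun z => w' (et lam z)) z :=
      ContDiffAt.comp z (hwpc _ ((hNm z).1 hz).2) het.contDiffAt
    exact (hxi.contDiffAt.sub this).contDiffWithinAt
  -- one step
  have hone : ∀ z ∈ N, |xi lam z - w' (et lam z)| ≤ r → |et lam z - w (xi lam z)| ≤ r →
      FF lam z ∈ N ∧
      (l * |xi lam z - w' (et lam z)| ≤ |xi lam (FF lam z) - w' (et lam (FF lam z))| ∧
        |xi lam (FF lam z) - w' (et lam (FF lam z))| ≤ (|lam| + e) * |xi lam z - w' (et lam z)| ∧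
        0 ≤ lam * (xi lam z - w' (et lam z)) * (xi lam (FF lam z) - w' (et lam (FF lam z)))) ∧
      |et lam (FF lam z) - w (xi lam (FF lam z))| ≤ |et lam z - w (xi lam z)| / l := by
    intro z hz hz1 hz2
    have hz' := (hNm z).1 hz
    obtain ⟨c1, c2⟩ := hctrl _ _ hz'.1 hz'.2 hz1 hz2
    have hx : |z.1 - qq lam| ≤ 8 / 3 * r := by
      rw [x_Box hlne z, abs_neg]
      have a1 := abs_add_le (xi lam z) (et lam z / lam)
      have a2 : |et lam z / lam| ≤ |et lam z| := by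
        rw [abs_div]
        exact div_le_self (abs_nonneg _) hlam.le
      linarith
    have hden : 1 ≤ 1 + (lam⁻¹) ^ 2 := by linarith only [sq_nonneg (lam⁻¹)]
    have hx3 : 0 ≤ (z.1 - qq lam) ^ 2 / (1 + (lam⁻¹) ^ 2) := div_nonneg (sq_nonneg _) (fac_Box lam).le
    have hx2 : (z.1 - qq lam) ^ 2 / (1 + (lam⁻¹) ^ 2) ≤ (8 / 3 * r) ^ 2 := by
      refine (div_le_self (sq_nonneg _) hden).trans ?_
      exact sq_le_sq' (by linarith [(abs_le.1 hx).1]) (abs_le.1 hx).2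
    have hinvl : |lam⁻¹| ≤ 1 := by rw [abs_inv]; exact inv_le_one_of_one_le₀ hlam.le
    obtain ⟨A1, A2⟩ := alg_Box hlne z
    have hin : FF lam z ∈ N := by
      rw [hNm, A1, A2]
      constructor
      · have a1 := abs_sub (lam * xi lam z) ((z.1 - qq lam) ^ 2 / (1 + (lam⁻¹) ^ 2))
        rw [abs_mul, abs_of_nonneg hx3] at a1
        have a2 : |lam| * |xi lam z| ≤ |lam| * (4 / 3 * r) := mul_le_mul_of_nonneg_left c1 hlam0.le
        linarith
      · have a0 : -(lam⁻¹ * et lam z) - lam⁻¹ * (z.1 - qq lam) ^ 2 / (1 + (lam⁻¹) ^ 2) =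
            -(lam⁻¹ * (et lam z + (z.1 - qq lam) ^ 2 / (1 + (lam⁻¹) ^ 2))) := by ring
        rw [a0, abs_neg, abs_mul]
        have a1 := abs_add_le (et lam z) ((z.1 - qq lam) ^ 2 / (1 + (lam⁻¹) ^ 2))
        rw [abs_of_nonneg hx3] at a1
        have a3 : |lam⁻¹| * |et lam z + (z.1 - qq lam) ^ 2 / (1 + (lam⁻¹) ^ 2)| ≤
            |et lam z + (z.1 - qq lam) ^ 2 / (1 + (lam⁻¹) ^ 2)| := mul_le_of_le_one_left (abs_nonneg _) hinvl
        have a2 : 1 * (4 / 3 * r) ≤ |lam| * (4 / 3 * r) := mul_le_mul_of_nonneg_right hlam.le (by positivity)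
        linarith
    have k1 := hX z (by linarith [hz'.1]) (by linarith [hz'.2])
    have k2 := hY z (by linarith [hz'.1]) (by linarith [hz'.2])
    refine ⟨hin, step_Box hlam he0 he1 hl k1, ?_⟩
    generalize et lam (FF lam z) - w (xi lam (FF lam z)) = Y1 at k2 ⊢
    generalize et lam z - w (xi lam z) = Y0 at k2 ⊢
    have m7 : (1 / |lam| + e) * |Y0| ≤ 1 / l * |Y0| := mul_le_mul_of_nonneg_right (by linarith) (abs_nonneg _)
    calc |Y1| ≤ (1 / |lam| + e) * |Y0| := k2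
      _ ≤ 1 / l * |Y0| := m7
      _ = |Y0| / l := by ring
  refine ⟨N, fun z => xi lam z - w' (et lam z), fun z => et lam z - w (xi lam z), r, l, L, t1, ?_⟩
  refine ⟨hNopen, hcd, ?_, hcW.continuousOn, hr0, hl1, hlL0.trans hL0L, ht1, ?_, ?_, ?_, hX0, hmonoX, ?_, ?_, ?_⟩
  · -- cY
    intro z hz
    have h : ContinuousAt (fun z => w (xi lam z)) z :=
      ContinuousAt.comp (f := xi lam) (hwc _ ((hNm z).1 hz).1).continuousAt (contxi_Box lam).continuousAt
    exact ((contet_Box lam).continuousAt.sub h).continuousWithinAt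
  · -- cpt
    have hK : IsCompact (Icc (-(4 / 3 * r)) (4 / 3 * r) ×ˢ Icc (-(4 / 3 * r)) (4 / 3 * r) : Set (ℝ × ℝ)) :=
      isCompact_Icc.prod isCompact_Icc
    have hlt : ∀ x ∈ Icc (-(4 / 3 * r)) (4 / 3 * r), |x| < δ := fun x hx => lt_of_le_of_lt (abs_le.2 hx) hrd
    have hcl : IsCompact {q : ℝ × ℝ | q ∈ (Icc (-(4 / 3 * r)) (4 / 3 * r) ×ˢ Icc (-(4 / 3 * r)) (4 / 3 * r) : Set (ℝ × ℝ)) ∧
        (q.1 - w' q.2, q.2 - w q.1) ∈ (Icc (-r) r ×ˢ Icc (-r) r : Set (ℝ × ℝ))} := by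
      have hc : ContinuousOn (fun q : ℝ × ℝ => (q.1 - w' q.2, q.2 - w q.1))
          (Icc (-(4 / 3 * r)) (4 / 3 * r) ×ˢ Icc (-(4 / 3 * r)) (4 / 3 * r)) := by
        intro q hq
        have a1 : ContinuousAt (fun q : ℝ × ℝ => w' q.2) q :=
          ContinuousAt.comp (f := Prod.snd) (hwpc _ (hlt _ hq.2)).continuousAt continuousAt_snd
        have a2 : ContinuousAt (fun q : ℝ × ℝ => w q.1) q :=
          ContinuousAt.comp (f := Prod.fst) (hwc _ (hlt _ hq.1)).continuousAt continuousAt_fst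
        exact ((continuousAt_fst.sub a1).prodMk (continuousAt_snd.sub a2)).continuousWithinAt
      have := hc.preimage_isClosed_of_isClosed hK.isClosed (isClosed_Icc.prod isClosed_Icc (s₁ := Icc (-r) r) (s₂ := Icc (-r) r))
      exact hK.of_isClosed_subset this (fun q hq => hq.1)
    have himg := hcl.image (contPsi_Box lam)
    convert himg using 1
    ext z
    constructor
    · rintro ⟨hz, hz1, hz2⟩
      have hz' := (hNm z).1 hz
      obtain ⟨c1, c2⟩ := hctrl _ _ hz'.1 hz'.2 hz1 hz2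
      refine ⟨(xi lam z, et lam z), ⟨⟨abs_le.1 c1, abs_le.1 c2⟩, abs_le.1 hz1, abs_le.1 hz2⟩, ?_⟩
      exact ext_Box hlne (xiPsi_Box hlne _) (etPsi_Box hlne _)
    · rintro ⟨q, ⟨hq1, hq2⟩, rfl⟩
      refine ⟨(hNm _).2 ?_, ?_, ?_⟩
      · rw [xiPsi_Box hlne, etPsi_Box hlne]
        exact ⟨hlt _ hq1.1, hlt _ hq1.2⟩
      · rw [xiPsi_Box hlne, etPsi_Box hlne]
        exact abs_le.2 hq2.1
      · rw [xiPsi_Box hlne, etPsi_Box hlne]
        exact abs_le.2 hq2.2
  · -- dyn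
    intro z hz hz1 hz2
    have hz1r : |xi lam z - w' (et lam z)| ≤ r := hz1.trans hrL'.le
    obtain ⟨hN1, ⟨s1, s2, s3⟩, s4⟩ := hone z hz hz1r hz2
    have hb1 : |xi lam (FF lam z) - w' (et lam (FF lam z))| ≤ r := by
      refine s2.trans ?_
      rw [← hL0]
      have h5 : L0 * |xi lam z - w' (et lam z)| ≤ L0 * (r / L) :=
        mul_le_mul_of_nonneg_left hz1 (by linarith)
      refine h5.trans ?_
      rw [mul_div_assoc', div_le_iff₀ (by linarith)]
      nlinarith only [hr0, hL0L]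
    have hb2 : |et lam (FF lam z) - w (xi lam (FF lam z))| ≤ r := by
      refine s4.trans ?_
      exact (div_le_self (abs_nonneg _) hl1.le).trans hz2
    obtain ⟨hN2, ⟨q1, q2, q3⟩, q4⟩ := hone (FF lam z) hN1 hb1 hb2
    show FF lam (FF lam z) ∈ N ∧ l * |xi lam z - w' (et lam z)| ≤ |xi lam (FF lam (FF lam z)) - w' (et lam (FF lam (FF lam z)))| ∧
      |xi lam (FF lam (FF lam z)) - w' (et lam (FF lam (FF lam z)))| ≤ L * |xi lam z - w' (et lam z)| ∧
      0 ≤ (xi lam z - w' (et lam z)) * (xi lam (FF lam (FF lam z)) - w' (et lam (FF lam (FF lam z)))) ∧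
      |et lam (FF lam (FF lam z)) - w (xi lam (FF lam (FF lam z)))| ≤ |et lam z - w (xi lam z)| / l
    generalize xi lam (FF lam (FF lam z)) - w' (et lam (FF lam (FF lam z))) = X2 at q1 q2 q3 ⊢
    generalize xi lam (FF lam z) - w' (et lam (FF lam z)) = X1 at s1 s2 s3 q1 q2 q3 ⊢
    generalize xi lam z - w' (et lam z) = X0 at s1 s2 s3 ⊢
    generalize et lam (FF lam (FF lam z)) - w (xi lam (FF lam (FF lam z))) = Y2 at q4 ⊢
    generalize et lam (FF lam z) - w (xi lam (FF lam z)) = Y1 at s4 q4 ⊢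
    generalize et lam z - w (xi lam z) = Y0 at s4 ⊢
    refine ⟨hN2, ?_, ?_, ?_, ?_⟩
    · have h5 : |X1| ≤ l * |X1| := le_mul_of_one_le_left (abs_nonneg _) hl1.le
      linarith
    · rw [hL, hL0, sq, mul_assoc]
      refine q2.trans ?_
      exact mul_le_mul_of_nonneg_left s2 (by linarith)
    · by_cases h0 : X1 = 0
      · have : X0 = 0 := by
          rw [h0, abs_zero] at s1
          have h5 := abs_nonneg X0
          have : |X0| = 0 := by nlinarith only [s1, h5, hl1]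
          exact abs_eq_zero.mp this
        rw [this, zero_mul]
      · have h5 : 0 ≤ (lam * X0 * X1) * (lam * X1 * X2) := mul_nonneg s3 q3
        have h6 : (lam * X0 * X1) * (lam * X1 * X2) = (lam * X1) ^ 2 * (X0 * X2) := by ring
        rw [h6] at h5
        have h7 : 0 < (lam * X1) ^ 2 := by positivity
        exact nonneg_of_mul_nonneg_right h5 h7
    · have h5 : |Y1| / l ≤ |Y1| := div_le_self (abs_nonneg _) hl1.le
      linarith
  · -- wu
    intro t ht
    have ht' := hpos t ht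
    refine ⟨(hNm _).2 ⟨(hsm t ht').1.1, (hsm t ht').1.2.1⟩, ?_, (hsm t ht').1.2.2.le⟩
    show et lam (Wu lam φ t) - w (xi lam (Wu lam φ t)) = 0
    rw [hXW t (hmem t ht'), sub_self]
  · -- wuc
    intro z hz hY0 hX0' hXle
    have hz' := (hNm z).1 hz
    have hz1 := abs_lt.1 hz'.1
    obtain ⟨t, ht, hxt⟩ := hG.onto (xi lam z) ⟨by linarith, by linarith⟩
    have hY0' : et lam z = w (xi lam z) := by
      have : et lam z - w (xi lam z) = 0 := hY0
      linarith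
    have hzt : z = Wu lam φ t := ext_Box hlne hxt.symm (by rw [hXW t ht, hxt, hY0'])
    have hXz : 0 ≤ xi lam z - w' (w (xi lam z)) := by
      have : 0 ≤ xi lam z - w' (et lam z) := hX0'
      rwa [hY0'] at this
    refine ⟨t, ⟨?_, ?_⟩, hzt⟩
    · by_contra hneg
      push Not at hneg
      have hlt := hG.mono ht (hmem 0 (hpos 0 h0mem)) hneg
      simp only [xiWu0_Box hφ, hxt] at hlt
      have := hstrict (xi lam z) 0 hz'.1 (by simpa using hδ0) hlt
      rw [hG.w0, hG'.w0] at this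
      linarith
    · by_contra hgt
      push Not at hgt
      have h1mem : t1 ∈ Icc (-t1) t1 := ⟨by linarith, le_refl _⟩
      have hlt := hG.mono (hmem t1 h1mem) ht hgt
      simp only [hxt] at hlt
      have k := hstrict _ (xi lam z) (hsm t1 h1mem).1.1 hz'.1 hlt
      have hXle' : xi lam z - w' (et lam z) ≤ xi lam (Wu lam φ t1) - w' (et lam (Wu lam φ t1)) := hXle
      rw [hY0', hXW t1 (hmem t1 h1mem)] at hXle'
      linarith
  · -- ws
    intro t ht
    refine ⟨(hNm _).2 ?_, ?_, ?_⟩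
    · rw [xiWr_Box lam hlne, etWr_Box lam hlne]
      exact ⟨(hsm t ht).2.2.1, (hsm t ht).2.1⟩
    · show xi lam (Wr (-lam) ψ t) - w' (et lam (Wr (-lam) ψ t)) = 0
      rw [xiWr_Box lam hlne, etWr_Box lam hlne, hXW' t (hmem' t ht), sub_self]
    · show |et lam (Wr (-lam) ψ t) - w (xi lam (Wr (-lam) ψ t))| < r
      rw [xiWr_Box lam hlne, etWr_Box lam hlne]
      have k1 := hw0 _ (hsm t ht).2.2.1
      have k2 := hwp0 _ (hsm t ht).2.1
      rw [← hXW' t (hmem' t ht)] at k2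
      have k3 := (hsm t ht).2.2.2
      have k4 := abs_sub (xi (-lam) (Wu (-lam) ψ t)) (w (et (-lam) (Wu (-lam) ψ t)))
      linarith
  · -- grd
    intro t ht hfd
    have hmemN : Wr (-lam) ψ t ∈ N := by
      rw [hNm, xiWr_Box lam hlne, etWr_Box lam hlne]
      exact ⟨(hsm t ht).2.2.1, (hsm t ht).2.1⟩
    have hd : DifferentiableAt ℝ (fun z => xi lam z - w' (et lam z)) (Wr (-lam) ψ t) :=
      (hcd.contDiffAt (hNopen.mem_nhds hmemN)).differentiableAt (by norm_num)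
    have hd' := hd.hasFDerivAt
    rw [hfd] at hd'
    obtain ⟨z, hzdef⟩ : ∃ z, z = Wr (-lam) ψ t := ⟨_, rfl⟩
    rw [← hzdef] at hd'
    have hline : HasDerivAt (fun s : ℝ => z + s • ((-1 : ℝ), -(1 / lam))) ((-1 : ℝ), -(1 / lam)) 0 := by
      have := ((hasDerivAt_id (0:ℝ)).smul_const ((-1 : ℝ), -(1 / lam))).const_add z
      simpa using this
    have hd'' : HasFDerivAt (fun z => xi lam z - w' (et lam z)) (0 : ℝ × ℝ →L[ℝ] ℝ) (z + (0:ℝ) • ((-1 : ℝ), -(1 / lam))) := by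
      simpa using hd'
    have hcomp := hd''.comp_hasDerivAt (0:ℝ) hline
    have h1 : 1 + (lam⁻¹) ^ 2 ≠ 0 := (fac_Box lam).ne'
    have e1 : ∀ s : ℝ, xi lam (z + s • ((-1 : ℝ), -(1 / lam))) = xi lam z + s := by
      intro s
      unfold xi
      simp only [Prod.fst_add, Prod.snd_add, Prod.smul_fst, Prod.smul_snd, smul_eq_mul]
      rw [div_add' _ _ _ h1]
      congr 1
      field_simp
      ring
    have e2 : ∀ s : ℝ, et lam (z + s • ((-1 : ℝ), -(1 / lam))) = et lam z := by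
      intro s
      unfold et
      simp only [Prod.fst_add, Prod.snd_add, Prod.smul_fst, Prod.smul_snd, smul_eq_mul]
      congr 1
      field_simp
      ring
    have e3 : ((fun z => xi lam z - w' (et lam z)) ∘ fun s : ℝ => z + s • ((-1 : ℝ), -(1 / lam))) =
        fun s => s + (xi lam z - w' (et lam z)) := by
      funext s
      simp only [Function.comp, e1, e2]
      ring
    rw [e3] at hcomp
    have h2 : HasDerivAt (fun s : ℝ => s + (xi lam z - w' (et lam z))) 1 0 := (hasDerivAt_id (0:ℝ)).add_const _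
    have := hcomp.unique h2
    simp at this

end Helper83.PF
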