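import Pool.Agent.Helper83.PF.St

set_option autoImplicit false

open Set Filter Topology
open Helper85.HN (hen)
open Helper83.PE (vv Wu)

noncomputable section

namespace Helper83.PF

private lemma lip_BoxX (w : ℝ → ℝ) (h : ContDiffAt ℝ 1 w 0) (h0 : deriv w 0 = 0) :
    ∃ δ1 > 0, ∀ x y : ℝ, |x| < δ1 → |y| < δ1 → |w x - w y| ≤ |x - y| := by
  have h1 : HasStrictDerivAt w (deriv w 0) 0 := h.hasStrictDerivAt (by norm_num)
  rw [h0] at h1
  have h2 := h1.isLittleO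
  have h3 := h2.def (show (0 : ℝ) < 1 by norm_num)
  rw [Metric.eventually_nhds_iff] at h3
  obtain ⟨δ, hδ, H⟩ := h3
  refine ⟨δ, hδ, fun x y hx hy => ?_⟩
  have := H (y := (x, y)) (by
    rw [Prod.dist_eq]
    simpa [Real.dist_eq] using ⟨hx, hy⟩)
  simpa using this

private lemma qneg_BoxX (κ : ℝ) : qq (-κ) = -qq κ := by
  unfold qq
  rw [inv_neg]
  ring

private lemma kap_BoxX (κ : ℝ) (hκ0 : κ ≠ 0) :
    1 + (κ⁻¹) ^ 2 = (κ ^ 2 + 1) / κ ^ 2 := by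
  field_simp

/-- First coordinate in terms of `xi`, `et`. -/
private lemma u_BoxX (κ : ℝ) (hκ0 : κ ≠ 0) (z : ℝ × ℝ) :
    z.1 - qq κ = -(xi κ z + et κ z / κ) := by
  have h1 : (κ ^ 2 + 1) ≠ 0 := by positivity
  unfold xi et
  rw [kap_BoxX κ hκ0]
  field_simp
  ring

private lemma xiff_BoxX (κ : ℝ) (hκ0 : κ ≠ 0) (z : ℝ × ℝ) :
    xi κ (FF κ z) = κ * xi κ z - 1 / (1 + (κ⁻¹) ^ 2) * (z.1 - qq κ) ^ 2 := by
  have h1 : (κ ^ 2 + 1) ≠ 0 := by positivity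
  unfold xi FF hen
  rw [kap_BoxX κ hκ0]
  have h6 : qq κ = (κ ^ 2 - 1) / (2 * κ) := by unfold qq; field_simp
  simp only [h6]
  field_simp
  ring

private lemma etff_BoxX (κ : ℝ) (hκ0 : κ ≠ 0) (z : ℝ × ℝ) :
    et κ (FF κ z) = -(et κ z / κ) - 1 / (1 + (κ⁻¹) ^ 2) / κ * (z.1 - qq κ) ^ 2 := by
  have h1 : (κ ^ 2 + 1) ≠ 0 := by positivity
  unfold et FF hen
  rw [kap_BoxX κ hκ0]
  have h6 : qq κ = (κ ^ 2 - 1) / (2 * κ) := by unfold qq; field_simp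
  simp only [h6]
  field_simp
  ring

private lemma ws_BoxX (κ : ℝ) (ψ : ℂ → ℂ) (hκ0 : κ ≠ 0) (hψ : UP (-κ) ψ) (t : ℝ) :
    FF κ (Wr (-κ) ψ t) = Wr (-κ) ψ (t / (-κ)) := by
  have hκ1 : -κ ≠ 0 := neg_ne_zero.2 hκ0
  obtain ⟨_, _, _, h, hr⟩ := hψ
  have h1 := h ((t / (-κ) : ℝ) : ℂ)
  have h2 : ((-κ : ℝ) : ℂ) * ((t / (-κ) : ℝ) : ℂ) = ((t : ℝ) : ℂ) := by
    rw [← Complex.ofReal_mul, mul_div_cancel₀ t hκ1]
  have h3 : ((t / (-κ) : ℝ) : ℂ) / ((-κ : ℝ) : ℂ) = ((t / (-κ) / (-κ) : ℝ) : ℂ) := by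
    rw [← Complex.ofReal_div]
  rw [h2, h3] at h1
  have h4 := congrArg Complex.re h1
  have h5 : (ψ ((t / (-κ) : ℝ) : ℂ) ^ 2).re = (ψ ((t / (-κ) : ℝ) : ℂ)).re ^ 2 := by
    rw [sq, Complex.mul_re, hr (t / (-κ))]; ring
  have h6 : ((qq (-κ) : ℂ) ^ 2).re = qq κ ^ 2 := by
    rw [← Complex.ofReal_pow, Complex.ofReal_re, qneg_BoxX]; ring
  rw [Complex.add_re, Complex.sub_re, h5, h6] at h4
  unfold FF hen Wr vv
  ext
  · simp only
    linarith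
  · simp only

private lemma exx_BoxX (κ : ℝ) (ψ : ℂ → ℂ) (t : ℝ) :
    xi κ (Wr (-κ) ψ t) = et (-κ) (Wu (-κ) ψ t) := by
  unfold xi et Wr Wu
  rw [qneg_BoxX, inv_neg, neg_sq, div_neg (a := vv ψ t - -qq κ)]
  ring

private lemma exe_BoxX (κ : ℝ) (ψ : ℂ → ℂ) (t : ℝ) :
    et κ (Wr (-κ) ψ t) = xi (-κ) (Wu (-κ) ψ t) := by
  unfold xi et Wr Wu
  rw [qneg_BoxX, inv_neg, neg_sq, div_neg (a := vv ψ (t / -κ) - -qq κ)]
  ring

theorem hBoxX : StBoxX := by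
  intro κ ψ w ρ ρ' t0 hl hψ hG e he
  have hκ0 : κ ≠ 0 := by
    intro h
    rw [h, abs_zero] at hl
    linarith
  have hl0 : (0 : ℝ) < |κ| := by linarith
  have hρ := hG.hρ
  have hρ' := hG.hρ'
  obtain ⟨δ1, hδ1, hlip⟩ := lip_BoxX w (hG.cd 0 ⟨by linarith, by linarith⟩) hG.dw0
  set K : ℝ := 1 / (1 + (κ⁻¹) ^ 2) with hK
  have hK0 : 0 < K := by
    rw [hK]
    positivity
  set δ : ℝ := min (min ρ' 1) (min (δ1 / (1 + 4 * K)) (e / (8 * K))) with hδ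
  have hδ0 : 0 < δ := by
    rw [hδ]
    refine lt_min (lt_min hρ one_pos) (lt_min ?_ ?_) <;> positivity
  have hd1 : δ ≤ ρ' := le_trans (min_le_left _ _) (min_le_left _ _)
  have hd2 : δ ≤ 1 := le_trans (min_le_left _ _) (min_le_right _ _)
  have hd3 : δ ≤ δ1 / (1 + 4 * K) := le_trans (min_le_right _ _) (min_le_left _ _)
  have hd4 : δ ≤ e / (8 * K) := le_trans (min_le_right _ _) (min_le_right _ _)
  have hd3' : δ * (1 + 4 * K) ≤ δ1 := by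
    rwa [le_div_iff₀ (by positivity)] at hd3
  have hd4' : δ * (8 * K) ≤ e := by
    rwa [le_div_iff₀ (by positivity)] at hd4
  have hdδ1 : δ ≤ δ1 := by
    have : 0 ≤ δ * (4 * K) := by positivity
    linarith
  refine ⟨δ, hδ0, fun z hx hy => ?_⟩
  obtain ⟨t, ht, hxt⟩ := hG.onto (et κ z) (by
    rw [abs_lt] at hy
    exact ⟨by linarith [hy.1], by linarith [hy.2]⟩)
  have hexch1 : xi κ (Wr (-κ) ψ t) = et (-κ) (Wu (-κ) ψ t) := exx_BoxX κ ψ t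
  have hexch2 : et κ (Wr (-κ) ψ t) = xi (-κ) (Wu (-κ) ψ t) := exe_BoxX κ ψ t
  have ht' : t / (-κ) ∈ Ioo (-t0) t0 := by
    have ht0 := hG.ht
    rw [mem_Ioo] at ht ⊢
    rw [← abs_lt] at ht ⊢
    rw [abs_div, abs_neg, div_lt_iff₀ hl0]
    nlinarith [abs_nonneg t]
  have hexch3 : xi κ (Wr (-κ) ψ (t / (-κ))) = et (-κ) (Wu (-κ) ψ (t / (-κ))) := exx_BoxX κ ψ _
  have hexch4 : et κ (Wr (-κ) ψ (t / (-κ))) = xi (-κ) (Wu (-κ) ψ (t / (-κ))) := exe_BoxX κ ψ _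
  set z0 := Wr (-κ) ψ t with hz0
  have e1 : et κ z0 = et κ z := by rw [hexch2, hxt]
  have e2 : xi κ z0 = w (et κ z) := by rw [hexch1, (hG.on t ht).2, hxt]
  have e3 : xi κ (FF κ z0) = w (et κ (FF κ z0)) := by
    rw [hz0, ws_BoxX κ ψ hκ0 hψ t, hexch3, hexch4]
    exact (hG.on _ ht').2
  have u1 := u_BoxX κ hκ0 z
  have u2 := u_BoxX κ hκ0 z0
  rw [e1, e2] at u2
  have x1 := xiff_BoxX κ hκ0 z
  have x2 := xiff_BoxX κ hκ0 z0
  have y1 := etff_BoxX κ hκ0 z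
  have y2 := etff_BoxX κ hκ0 z0
  rw [← hK] at x1 x2 y1 y2
  rw [e2] at x2
  rw [e1] at y2
  set u := z.1 - qq κ with hu
  set u0 := z0.1 - qq κ with hu0
  set X := xi κ z - w (et κ z) with hX
  have hw1 : |w (et κ z)| ≤ |et κ z| := by
    have := hlip (et κ z) 0 (by linarith) (by simpa using hδ1)
    rw [hG.w0] at this
    simpa using this
  have hetl : |et κ z / κ| ≤ |et κ z| := by
    rw [abs_div]
    exact div_le_self (abs_nonneg _) hl.le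
  have hua : |u| ≤ 2 * δ := by
    rw [u1, abs_neg]
    exact (abs_add_le _ _).trans (by linarith)
  have hub : |u0| ≤ 2 * δ := by
    rw [u2, abs_neg]
    exact (abs_add_le _ _).trans (by linarith)
  have huX : u - u0 = -X := by rw [u1, u2, hX]; ring
  have hs : |u + u0| ≤ 4 * δ := (abs_add_le _ _).trans (by linarith)
  have hKk : K / |κ| ≤ K := div_le_self hK0.le hl.le
  have hKa : |K / κ| = K / |κ| := by rw [abs_div, abs_of_pos hK0]
  have hsq : ∀ v : ℝ, |v| ≤ 2 * δ → |-(et κ z / κ) - K / κ * v ^ 2| < δ1 := by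
    intro v hv
    have hv2 : v ^ 2 ≤ 4 * δ := by
      have h7 : |v| ^ 2 ≤ (2 * δ) ^ 2 := by gcongr
      rw [sq_abs] at h7
      have h8 : δ * δ ≤ δ * 1 := mul_le_mul_of_nonneg_left hd2 hδ0.le
      have h9 : (2 * δ) ^ 2 = 4 * (δ * δ) := by ring
      rw [h9] at h7
      exact h7.trans (by linarith)
    have h1 : |K / κ * v ^ 2| ≤ K * (4 * δ) := by
      rw [abs_mul, hKa, abs_of_nonneg (sq_nonneg v)]
      gcongr
    calc |-(et κ z / κ) - K / κ * v ^ 2| ≤ |-(et κ z / κ)| + |K / κ * v ^ 2| := abs_sub _ _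
      _ < δ + K * (4 * δ) := by rw [abs_neg]; linarith
      _ = δ * (1 + 4 * K) := by ring
      _ ≤ δ1 := hd3'
  have hL := hlip (et κ (FF κ z)) (et κ (FF κ z0)) (by rw [y1]; exact hsq u hua)
    (by rw [y2]; exact hsq u0 hub)
  have hdet : et κ (FF κ z) - et κ (FF κ z0) = K / κ * X * (u + u0) := by
    rw [y1, y2]
    have : u ^ 2 - u0 ^ 2 = -X * (u + u0) := by rw [← huX]; ring
    linear_combination (-(K / κ)) * this
  have hdxi : xi κ (FF κ z) - xi κ (FF κ z0) = κ * X + K * X * (u + u0) := by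
    rw [x1, x2, hX]
    have : u ^ 2 - u0 ^ 2 = -X * (u + u0) := by rw [← huX]; ring
    rw [hX] at this
    linear_combination (-K) * this
  have hfin : (xi κ (FF κ z) - w (et κ (FF κ z))) - κ * X =
      K * X * (u + u0) - (w (et κ (FF κ z)) - w (et κ (FF κ z0))) := by
    linear_combination hdxi + e3
  rw [hfin]
  have hA : |K * X * (u + u0)| ≤ K * |X| * (4 * δ) := by
    rw [abs_mul, abs_mul, abs_of_pos hK0]
    gcongr
  have hB : |w (et κ (FF κ z)) - w (et κ (FF κ z0))| ≤ K * |X| * (4 * δ) := by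
    refine hL.trans ?_
    rw [hdet, abs_mul, abs_mul, hKa]
    gcongr
  calc |K * X * (u + u0) - (w (et κ (FF κ z)) - w (et κ (FF κ z0)))|
      ≤ |K * X * (u + u0)| + |w (et κ (FF κ z)) - w (et κ (FF κ z0))| := abs_sub _ _
    _ ≤ K * |X| * (4 * δ) + K * |X| * (4 * δ) := add_le_add hA hB
    _ = δ * (8 * K) * |X| := by ring
    _ ≤ e * |X| := by gcongr

end Helper83.PF
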