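import Pool.Agent.Helper83.PF.St

/-! # PF module BoxY: `Y z = et z - w (xi z)` is contracted near the saddle. -/

set_option autoImplicit false

open Set Filter Topology
open Helper85.HN (hen Orb Bd KK E0)
open Helper83.PE (vv Wu win Cross Covs)

noncomputable section

namespace Helper83.PF

private lemma alg_BoxY (lam : ℝ) (h : lam ≠ 0) (z : ℝ × ℝ) :
    z.1 - qq lam = -(xi lam z + et lam z * lam⁻¹) ∧
    xi lam (FF lam z) = lam * xi lam z - (z.1 - qq lam) ^ 2 / (1 + (lam⁻¹) ^ 2) ∧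
    et lam (FF lam z) = -(lam⁻¹ * et lam z) - lam⁻¹ * (z.1 - qq lam) ^ 2 / (1 + (lam⁻¹) ^ 2) := by
  have hk : (1 : ℝ) + (lam⁻¹) ^ 2 ≠ 0 := by positivity
  have hlq : lam * lam⁻¹ = 1 := mul_inv_cancel₀ h
  obtain ⟨a, b⟩ := z
  simp only [xi, et, FF, hen, div_eq_mul_inv _ lam]
  set q := lam⁻¹ with hq
  have hp : qq lam = (lam - q) / 2 := rfl
  set p := qq lam with hpd
  have hlp : lam = 2 * p + q := by linarith
  refine ⟨?_, ?_, ?_⟩
  · field_simp
    ring
  · rw [hlp]
    field_simp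
    have : (2 * p + q) * q = 1 := by rw [← hlp]; exact hlq
    linear_combination (b - p) * this
  · field_simp
    have : (2 * p + q) * q = 1 := by rw [← hlp]; exact hlq
    linear_combination -(a - p) * this

private lemma FFWu_BoxY (lam : ℝ) (φ : ℂ → ℂ) (hU : UP lam φ) (h : lam ≠ 0) (t : ℝ) :
    FF lam (Wu lam φ t) = Wu lam φ (lam * t) := by
  obtain ⟨-, -, -, hf, him⟩ := hU
  have h1 := congrArg Complex.re (hf (t : ℂ))
  have h2 := him t
  have e1 : ((lam : ℂ) * (t : ℂ)) = ((lam * t : ℝ) : ℂ) := by push_cast; rfl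
  have e2 : ((t : ℂ) / (lam : ℂ)) = ((t / lam : ℝ) : ℂ) := by push_cast; rfl
  rw [e1, e2] at h1
  simp only [Complex.add_re, Complex.sub_re, Complex.ofReal_re, Complex.ofReal_im, pow_two, Complex.mul_re, h2] at h1
  have e3 : lam * t / lam = t := by field_simp
  simp only [FF, hen, Wu, vv, e3, Prod.mk.injEq, and_true]
  linarith

private lemma lip_BoxY (w : ℝ → ℝ) (hc : ContDiffAt ℝ 1 w 0) (hd : deriv w 0 = 0) :
    ∃ r > 0, ∀ x y : ℝ, |x| < r → |y| < r → |w x - w y| ≤ |x - y| := by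
  have h1 : HasStrictDerivAt w (deriv w 0) 0 := hc.hasStrictDerivAt (by norm_num)
  rw [hd] at h1
  obtain ⟨s, hs, hL⟩ := h1.hasStrictFDerivAt.exists_lipschitzOnWith_of_nnnorm_lt 1 (by
    simp)
  obtain ⟨r, hr, hrs⟩ := Metric.mem_nhds_iff.1 hs
  refine ⟨r, hr, fun x y hx hy => ?_⟩
  have hx' : x ∈ s := hrs (by simpa [Metric.mem_ball, Real.dist_eq] using hx)
  have hy' : y ∈ s := hrs (by simpa [Metric.mem_ball, Real.dist_eq] using hy)
  have := hL.dist_le_mul x hx' y hy'
  simpa [Real.dist_eq] using this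

theorem hBoxY : StBoxY := by
  intro lam φ w ρ ρ' t0 hlam hU hG e he
  have hl0 : 0 < |lam| := by linarith
  have hlne : lam ≠ 0 := abs_pos.mp hl0
  have hq1 : |lam⁻¹| < 1 := by rw [abs_inv]; exact inv_lt_one_of_one_lt₀ hlam
  have hq0 : 0 < |lam⁻¹| := by rw [abs_inv]; positivity
  have hk : (0 : ℝ) < 1 + (lam⁻¹) ^ 2 := by positivity
  have hρ0 : 0 < ρ := lt_of_lt_of_le hG.hρ hG.hρ'
  obtain ⟨r, hr, hL⟩ := lip_BoxY w (hG.cd 0 ⟨by linarith, hρ0⟩) hG.dw0
  set κ : ℝ := 1 / (1 + (lam⁻¹) ^ 2) with hκ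
  have hκ0 : 0 < κ := by positivity
  -- the parameter interval
  have ht := hG.ht
  have hα0 : xi lam (Wu lam φ 0) = 0 := by
    have hp : vv φ 0 = qq lam := by
      simp [vv, hU.2.1]
    simp [xi, Wu, hp]
  set t1 : ℝ := t0 / (2 * |lam|) with ht1
  have ht1p : 0 < t1 := by positivity
  have ht1l : t1 < t0 := by
    rw [ht1, div_lt_iff₀ (by positivity)]
    nlinarith
  have hlt1 : |lam| * t1 = t0 / 2 := by
    rw [ht1]; field_simp
  have ha1 : 0 < xi lam (Wu lam φ t1) := by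
    have := hG.mono (a := 0) (b := t1) ⟨by linarith, ht⟩ ⟨by linarith, ht1l⟩ ht1p
    simpa [hα0] using this
  have ha2 : xi lam (Wu lam φ (-t1)) < 0 := by
    have := hG.mono (a := -t1) (b := 0) ⟨by linarith, by linarith⟩ ⟨by linarith, ht⟩ (by linarith)
    simpa [hα0] using this
  -- the choice of delta
  set C : ℝ := κ * |lam⁻¹| * (1 + |lam⁻¹|) with hC
  have hC0 : 0 < C := by positivity
  refine ⟨min (min (min ρ' (min (xi lam (Wu lam φ t1)) (-xi lam (Wu lam φ (-t1))))) (min 1 r))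
    (min (r / (|lam| + 4 * κ)) (e / (4 * C))), ?_, ?_⟩
  · have := hG.hρ
    have h3 : 0 < -xi lam (Wu lam φ (-t1)) := by linarith
    positivity
  intro z hz1 hz2
  set δ : ℝ := min (min (min ρ' (min (xi lam (Wu lam φ t1)) (-xi lam (Wu lam φ (-t1))))) (min 1 r))
    (min (r / (|lam| + 4 * κ)) (e / (4 * C))) with hδ
  have d1 : δ ≤ ρ' := by
    rw [hδ]; exact le_trans (min_le_left _ _) (le_trans (min_le_left _ _) (min_le_left _ _))
  have d2 : δ ≤ xi lam (Wu lam φ t1) := by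
    rw [hδ]; exact le_trans (min_le_left _ _) (le_trans (min_le_left _ _) (le_trans (min_le_right _ _) (min_le_left _ _)))
  have d3 : δ ≤ -xi lam (Wu lam φ (-t1)) := by
    rw [hδ]; exact le_trans (min_le_left _ _) (le_trans (min_le_left _ _) (le_trans (min_le_right _ _) (min_le_right _ _)))
  have d4 : δ ≤ 1 := by
    rw [hδ]; exact le_trans (min_le_left _ _) (le_trans (min_le_right _ _) (min_le_left _ _))
  have d5 : δ ≤ r := by
    rw [hδ]; exact le_trans (min_le_left _ _) (le_trans (min_le_right _ _) (min_le_right _ _))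
  have d6 : δ ≤ r / (|lam| + 4 * κ) := by
    rw [hδ]; exact le_trans (min_le_right _ _) (min_le_left _ _)
  have d7 : δ ≤ e / (4 * C) := by
    rw [hδ]; exact le_trans (min_le_right _ _) (min_le_right _ _)
  clear_value δ
  have d6' : δ * (|lam| + 4 * κ) ≤ r := (le_div_iff₀ (by positivity)).1 d6
  have d7' : δ * (4 * C) ≤ e := (le_div_iff₀ (by positivity)).1 d7
  have hδ0 : 0 < δ := lt_of_le_of_lt (abs_nonneg _) hz1
  obtain ⟨z1a, z1b⟩ := abs_lt.1 hz1
  obtain ⟨t, htm, htx⟩ := hG.onto (xi lam z) ⟨by linarith, by linarith⟩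
  -- |t| < t1
  have htt1 : t < t1 := by
    by_contra hcon
    push Not at hcon
    have := hG.mono.monotoneOn (a := t1) (b := t) ⟨by linarith, ht1l⟩ htm hcon
    simp only [htx] at this
    linarith
  have htt2 : -t1 < t := by
    by_contra hcon
    push Not at hcon
    have := hG.mono.monotoneOn (a := t) (b := -t1) htm ⟨by linarith, by linarith⟩ hcon
    simp only [htx] at this
    linarith
  have hlt : lam * t ∈ Ioo (-t0) t0 := by
    have hab : |lam * t| < t0 := by
      rw [abs_mul]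
      have h1 : |t| < t1 := abs_lt.2 ⟨htt2, htt1⟩
      have h2 : |lam| * |t| < |lam| * t1 := mul_lt_mul_of_pos_left h1 hl0
      linarith
    exact abs_lt.1 hab
  obtain ⟨-, hw1⟩ := hG.on t htm
  obtain ⟨-, hw2⟩ := hG.on (lam * t) hlt
  rw [htx] at hw1
  rw [← FFWu_BoxY lam φ hU hlne t] at hw2
  obtain ⟨A1, A2, A3⟩ := alg_BoxY lam hlne z
  obtain ⟨B1, B2, B3⟩ := alg_BoxY lam hlne (Wu lam φ t)
  rw [hw1, htx] at B1
  rw [htx] at B2
  rw [hw1] at B3
  have hw0 : |w (xi lam z)| ≤ |xi lam z| := by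
    have := hL (xi lam z) 0 (by linarith) (by simpa using hr)
    simpa [hG.w0] using this
  set x := z.1 - qq lam with hx
  set x1 := (Wu lam φ t).1 - qq lam with hx1
  set z1 := Wu lam φ t with hz1d
  set X := xi lam z with hX
  set E := et lam z with hE
  set W := w X with hW
  clear_value x x1 X E W z1 κ
  set q := lam⁻¹ with hq
  have hxb : |x| < 2 * δ := by
    rw [A1, abs_neg]
    have : |E * q| ≤ |E| := by
      rw [abs_mul]
      exact mul_le_of_le_one_right (abs_nonneg _) hq1.le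
    linarith [abs_add_le X (E * q)]
  have hx1b : |x1| < 2 * δ := by
    rw [B1, abs_neg]
    have : |W * q| ≤ |W| := by
      rw [abs_mul]
      exact mul_le_of_le_one_right (abs_nonneg _) hq1.le
    linarith [abs_add_le X (W * q)]
  have hdiff : x - x1 = -(q * (E - W)) := by rw [A1, B1]; ring
  have hsum : |x + x1| ≤ 4 * δ := by linarith [abs_add_le x x1]
  have hbound : ∀ s : ℝ, |s| < 2 * δ → ∀ u : ℝ, u = lam * X - s ^ 2 / (1 + q ^ 2) → |u| < r := by
    intro s hs u hu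
    have h1 : s ^ 2 < (2 * δ) ^ 2 := by
      have := abs_lt.1 hs
      nlinarith only [this.1, this.2]
    have h2 : |lam * X| ≤ |lam| * |X| := by rw [abs_mul]
    have h3 : s ^ 2 / (1 + q ^ 2) = κ * s ^ 2 := by rw [hκ]; ring
    rw [hu, h3]
    have h4 : |lam * X - κ * s ^ 2| ≤ |lam * X| + |κ * s ^ 2| := abs_sub _ _
    have h5 : |κ * s ^ 2| = κ * s ^ 2 := abs_of_nonneg (by positivity)
    rw [h5] at h4
    have h6 : κ * s ^ 2 ≤ κ * (4 * δ) := by
      apply mul_le_mul_of_nonneg_left _ hκ0.le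
      nlinarith only [h1, hδ0, d4]
    have h7 : |lam| * |X| < |lam| * δ := mul_lt_mul_of_pos_left hz1 hl0
    linarith only [h4, h2, h6, h7, d6']
  have hfz := hbound x hxb _ A2
  have hfz1 := hbound x1 hx1b _ B2
  have hlip := hL _ _ hfz hfz1
  have hxi : xi lam (FF lam z) - xi lam (FF lam z1) = κ * q * (E - W) * (x + x1) := by
    rw [A2, B2]
    have : lam * X - x ^ 2 / (1 + q ^ 2) - (lam * X - x1 ^ 2 / (1 + q ^ 2)) = -κ * ((x - x1) * (x + x1)) := by
      rw [hκ]; ring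
    rw [this, hdiff]; ring
  have het : et lam (FF lam z) - et lam (FF lam z1) = -(q * (E - W)) + κ * q ^ 2 * (E - W) * (x + x1) := by
    rw [A3, B3]
    have : -(q * E) - q * x ^ 2 / (1 + q ^ 2) - (-(q * W) - q * x1 ^ 2 / (1 + q ^ 2)) =
        -(q * (E - W)) - κ * q * ((x - x1) * (x + x1)) := by
      rw [hκ]; ring
    rw [this, hdiff]; ring
  have hfin : et lam (FF lam z) - w (xi lam (FF lam z)) =
      (et lam (FF lam z) - et lam (FF lam z1)) - (w (xi lam (FF lam z)) - w (xi lam (FF lam z1))) := by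
    rw [hw2]; ring
  rw [hfin]
  have g1 : |(et lam (FF lam z) - et lam (FF lam z1)) - (w (xi lam (FF lam z)) - w (xi lam (FF lam z1)))| ≤
      |et lam (FF lam z) - et lam (FF lam z1)| + |w (xi lam (FF lam z)) - w (xi lam (FF lam z1))| := abs_sub _ _
  have g2 : |et lam (FF lam z) - et lam (FF lam z1)| ≤ |q| * |E - W| + κ * |q| ^ 2 * |E - W| * |x + x1| := by
    rw [het]
    refine le_trans (abs_add_le _ _) ?_
    rw [abs_neg, abs_mul q, abs_mul _ (x + x1), abs_mul _ (E - W), abs_mul κ, abs_of_pos hκ0, abs_pow]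
  have g3 : |xi lam (FF lam z) - xi lam (FF lam z1)| = κ * |q| * |E - W| * |x + x1| := by
    rw [hxi, abs_mul _ (x + x1), abs_mul _ (E - W), abs_mul κ, abs_of_pos hκ0]
  have g4 : |E - W| * |x + x1| ≤ |E - W| * (4 * δ) := mul_le_mul_of_nonneg_left hsum (abs_nonneg _)
  have g5 : C * (|E - W| * |x + x1|) ≤ C * (|E - W| * (4 * δ)) := mul_le_mul_of_nonneg_left g4 hC0.le
  have g6 : C * (|E - W| * (4 * δ)) ≤ e * |E - W| := by
    have := mul_le_mul_of_nonneg_right d7' (abs_nonneg (E - W))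
    linarith
  have g7 : 1 / |lam| = |q| := by rw [hq, one_div, abs_inv]
  rw [g7]
  have g8 : C * (|E - W| * |x + x1|) = κ * |q| * |E - W| * |x + x1| + κ * |q| ^ 2 * |E - W| * |x + x1| := by
    rw [hC]; ring
  have g9 : (|q| + e) * |E - W| = |q| * |E - W| + e * |E - W| := by ring
  rw [g9]
  rw [g8] at g5
  linarith only [g1, g2, g3, g5, g6, hlip]

end Helper83.PF
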