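import Pool.Agent.Helper83.PF.St

/-!
# Project PF: module Chg (change of sign)
-/

set_option autoImplicit false

open Set Filter Topology
open Helper83.PE (vv Wu win Cross Covs)

noncomputable section

namespace Helper83.PF

private lemma qq_ne_Chg (κ : ℝ) (hκ : 1 < |κ|) : qq κ ≠ 0 := by
  have hκ0 : κ ≠ 0 := by
    rintro rfl
    rw [abs_zero] at hκ
    linarith
  intro h
  unfold qq at h
  have h2 : κ = κ⁻¹ := by linarith
  have h3 : κ * κ = 1 := by
    nth_rewrite 2 [h2]
    exact mul_inv_cancel₀ hκ0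
  have h4 : |κ| * |κ| = 1 := by rw [← abs_mul, h3, abs_one]
  nlinarith

private lemma real_Chg (κ : ℝ) (φ : ℂ → ℂ) (h : UP κ φ) (t : ℝ) :
    φ (t : ℂ) = ((vv φ t : ℝ) : ℂ) := by
  apply Complex.ext
  · simp [vv]
  · rw [h.2.2.2.2 t]
    simp

theorem hChg (h1 : StFir) : StChg := by
  intro κ φ hκ hφ
  obtain ⟨t₁, ht₁, ht₁p, hneg⟩ := h1 κ φ hκ hφ
  have hq := qq_ne_Chg κ hκ
  have hv0 : vv φ 0 = qq κ := by
    unfold vv
    rw [Complex.ofReal_zero, hφ.2.1, Complex.ofReal_re]
  have hvc : Continuous (vv φ) :=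
    Complex.continuous_re.comp (hφ.1.continuous.comp Complex.continuous_ofReal)
  obtain ⟨h, hh⟩ : ∃ h : ℝ → ℝ, h = fun s => qq κ * (vv φ (s * t₁) + vv φ (s * t₁ / κ)) :=
    ⟨_, rfl⟩
  have hhZ : ∀ s, h s = qq κ * Zs κ φ (s * t₁) := by
    intro s
    rw [hh]
    rfl
  have hc : Continuous h := by
    rw [hh]
    exact continuous_const.mul ((hvc.comp (continuous_id.mul continuous_const)).add
      (hvc.comp ((continuous_id.mul continuous_const).div_const κ)))
  have h0 : 0 < h 0 := by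
    rw [hh]
    simp only [zero_mul, zero_div]
    rw [hv0]
    have : 0 < qq κ * qq κ := mul_self_pos.2 hq
    nlinarith
  have h1' : h 1 < 0 := by
    rw [hhZ, one_mul]
    exact hneg
  -- the first point to the right of which there are negative values
  obtain ⟨S, hS⟩ : ∃ S : Set ℝ, S = {s | (0 ≤ s ∧ s ≤ 1) ∧ h s < 0} := ⟨_, rfl⟩
  have hSne : S.Nonempty := ⟨1, by
    rw [hS]
    exact ⟨⟨zero_le_one, le_rfl⟩, h1'⟩⟩
  have hSb : BddBelow S := ⟨0, by
    intro s hs
    rw [hS] at hs
    exact hs.1.1⟩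
  obtain ⟨a, ha⟩ : ∃ a, a = sInf S := ⟨_, rfl⟩
  have ha0 : 0 ≤ a := by
    rw [ha]
    apply le_csInf hSne
    intro s hs
    rw [hS] at hs
    exact hs.1.1
  have ha1 : a ≤ 1 := by
    rw [ha]
    apply csInf_le hSb
    rw [hS]
    exact ⟨⟨zero_le_one, le_rfl⟩, h1'⟩
  have hleft : ∀ u, 0 ≤ u → u < a → 0 ≤ h u := by
    intro u hu0 hua
    by_contra hcon
    push Not at hcon
    have : u ∈ S := by
      rw [hS]
      exact ⟨⟨hu0, by linarith⟩, hcon⟩
    have := csInf_le hSb this
    rw [← ha] at this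
    linarith
  have hale : h a ≤ 0 := by
    have hcl : a ∈ closure S := by
      rw [ha]
      exact csInf_mem_closure hSne hSb
    have hsub : S ⊆ {s | h s ≤ 0} := by
      intro s hs
      rw [hS] at hs
      exact hs.2.le
    exact closure_minimal hsub (isClosed_le hc continuous_const) hcl
  have hapos : 0 < a := by
    rcases lt_or_eq_of_le ha0 with h2 | h2
    · exact h2
    · rw [← h2] at hale
      linarith
  have hage : 0 ≤ h a := by
    have hcl : a ∈ closure (Ico 0 a) := by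
      rw [closure_Ico hapos.ne]
      exact right_mem_Icc.2 hapos.le
    have hsub : Ico 0 a ⊆ {s | 0 ≤ h s} := fun s hs => hleft s hs.1 hs.2
    exact closure_minimal hsub (isClosed_le continuous_const hc) hcl
  have haz : h a = 0 := le_antisymm hale hage
  -- zeros are isolated
  obtain ⟨H, hH⟩ : ∃ H : ℂ → ℂ, H = fun z => (qq κ : ℂ) * (φ (z * t₁) + φ (z * t₁ / (κ : ℂ))) :=
    ⟨_, rfl⟩
  have hHd : Differentiable ℂ H := by
    rw [hH]
    have d1 : Differentiable ℂ (fun z : ℂ => z * (t₁ : ℂ)) := differentiable_id.mul_const _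
    exact ((hφ.1.comp d1).add (hφ.1.comp (d1.div_const _))).const_mul _
  have hHr : ∀ s : ℝ, H (s : ℂ) = ((h s : ℝ) : ℂ) := by
    intro s
    have e1 : (s : ℂ) * (t₁ : ℂ) = ((s * t₁ : ℝ) : ℂ) := by push_cast; ring
    have e2 : (s : ℂ) * (t₁ : ℂ) / (κ : ℂ) = ((s * t₁ / κ : ℝ) : ℂ) := by push_cast; ring
    rw [hH, hh]
    simp only
    rw [e2, e1, real_Chg κ φ hφ, real_Chg κ φ hφ]
    push_cast
    ring
  have hHA : AnalyticOnNhd ℂ H univ := fun z _ => hHd.analyticAt z
  have hev : ∀ᶠ z in 𝓝[≠] (a : ℂ), H z ≠ 0 := by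
    rcases (hHd.analyticAt (a : ℂ)).eventually_eq_zero_or_eventually_ne_zero with h2 | h2
    · exfalso
      have h3 := hHA.eqOn_zero_of_preconnected_of_eventuallyEq_zero isPreconnected_univ
        (mem_univ (a : ℂ)) h2
      have h4 := h3 (mem_univ ((0 : ℝ) : ℂ))
      rw [hHr] at h4
      have h5 : h 0 = 0 := by
        apply Complex.ofReal_injective
        rw [h4]
        simp
      linarith
    · exact h2
  rw [eventually_nhdsWithin_iff] at hev
  obtain ⟨d₀, hd₀, hball⟩ := Metric.eventually_nhds_iff_ball.1 hev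
  have hne : ∀ s : ℝ, |s - a| < d₀ → s ≠ a → h s ≠ 0 := by
    intro s hs hsa hz
    have h2 : (s : ℂ) ∈ Metric.ball (a : ℂ) d₀ := by
      rw [Metric.mem_ball, Complex.dist_eq, ← Complex.ofReal_sub, Complex.norm_real,
        Real.norm_eq_abs]
      exact hs
    apply hball _ h2
    · intro h3
      exact hsa (Complex.ofReal_injective h3)
    · rw [hHr, hz, Complex.ofReal_zero]
  obtain ⟨d, hd⟩ : ∃ d, d = min d₀ a := ⟨_, rfl⟩
  have hdpos : 0 < d := by
    rw [hd]
    exact lt_min hd₀ hapos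
  have hL : ∀ s, a - d < s → s < a → 0 < h s := by
    intro s hs1 hs2
    have hd1 : d ≤ d₀ := by
      rw [hd]
      exact min_le_left _ _
    have hd2 : d ≤ a := by
      rw [hd]
      exact min_le_right _ _
    have h2 := hleft s (by linarith) hs2
    have h3 := hne s (by rw [abs_lt]; constructor <;> linarith) hs2.ne
    exact lt_of_le_of_ne h2 (Ne.symm h3)
  have hR : ∀ s, a < s → s < a + d → h s < 0 := by
    intro s hs1 hs2
    have hd1 : d ≤ d₀ := by
      rw [hd]
      exact min_le_left _ _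
    by_contra hcon
    push Not at hcon
    obtain ⟨w, hwS, hws⟩ := exists_lt_of_csInf_lt hSne (by rw [← ha]; exact hs1)
    have hwa : a ≤ w := by
      rw [ha]
      exact csInf_le hSb hwS
    have hw0 : h w < 0 := by
      rw [hS] at hwS
      exact hwS.2
    have hwa' : a < w := by
      rcases lt_or_eq_of_le hwa with h2 | h2
      · exact h2
      · rw [← h2, haz] at hw0
        exact absurd hw0 (lt_irrefl 0)
    obtain ⟨x, hx1, hx2⟩ := intermediate_value_Icc hws.le hc.continuousOn ⟨hw0.le, hcon⟩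
    exact hne x (by rw [abs_lt]; constructor <;> linarith [hx1.1, hx1.2])
      (by linarith [hx1.1] : a < x).ne' hx2
  have hprod : ∀ s s' : ℝ, a - d < s → s < a → a < s' → s' < a + d →
      Zs κ φ (s * t₁) * Zs κ φ (s' * t₁) < 0 := by
    intro s s' g1 g2 g3 g4
    have e1 := hL s g1 g2
    have e2 := hR s' g3 g4
    have e3 : h s * h s' < 0 := mul_neg_of_pos_of_neg e1 e2
    rw [hhZ, hhZ] at e3
    have e4 : (qq κ * qq κ) * (Zs κ φ (s * t₁) * Zs κ φ (s' * t₁)) < 0 := by
      calc (qq κ * qq κ) * (Zs κ φ (s * t₁) * Zs κ φ (s' * t₁))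
          = qq κ * Zs κ φ (s * t₁) * (qq κ * Zs κ φ (s' * t₁)) := by ring
        _ < 0 := e3
    by_contra hcon
    push Not at hcon
    have := mul_nonneg (mul_self_nonneg (qq κ)) hcon
    linarith
  refine ⟨a * t₁, mul_ne_zero hapos.ne' ht₁, fun hk => mul_pos hapos (ht₁p hk), ?_, ?_⟩
  · have h2 := hhZ a
    rw [haz] at h2
    rcases mul_eq_zero.1 h2.symm with h3 | h3
    · exact absurd h3 hq
    · exact h3
  · refine ⟨d * |t₁|, mul_pos hdpos (abs_pos.2 ht₁), ?_⟩
    intro t ht t' ht'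
    have e1 : t / t₁ * t₁ = t := div_mul_cancel₀ t ht₁
    have e2 : t' / t₁ * t₁ = t' := div_mul_cancel₀ t' ht₁
    rcases lt_or_gt_of_ne ht₁ with hlt | hgt
    · rw [abs_of_neg hlt] at ht ht'
      have g := hprod (t' / t₁) (t / t₁) (by
        rw [lt_div_iff_of_neg hlt]
        nlinarith [ht'.2]) (by
        rw [div_lt_iff_of_neg hlt]
        exact ht'.1) (by
        rw [lt_div_iff_of_neg hlt]
        exact ht.2) (by
        rw [div_lt_iff_of_neg hlt]
        nlinarith [ht.1])
      rw [e1, e2] at g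
      rw [mul_comm]
      exact g
    · rw [abs_of_pos hgt] at ht ht'
      have g := hprod (t / t₁) (t' / t₁) (by
        rw [lt_div_iff₀ hgt]
        nlinarith [ht.1]) (by
        rw [div_lt_iff₀ hgt]
        exact ht.2) (by
        rw [lt_div_iff₀ hgt]
        exact ht'.1) (by
        rw [div_lt_iff₀ hgt]
        nlinarith [ht'.2])
      rw [e1, e2] at g
      exact g

end Helper83.PF
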