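import Pool.Agent.Helper83.PF.St

/-!
# Project PF, module Coef: coefficients of the entire function `φ`
-/

set_option autoImplicit false

namespace Helper83.PF

/-- the coefficients -/
noncomputable def aCoef (lam : ℝ) : ℕ → ℝ
  | 0 => qq lam
  | 1 => -1
  | n + 2 => (∑ i : Fin (n + 1), aCoef lam (i.1 + 1) * aCoef lam (n + 1 - i.1)) /
      (lam ^ (n + 2) - (lam⁻¹) ^ (n + 2) - 2 * qq lam)
termination_by n => n
decreasing_by
  · have := i.2; omega
  · have := i.2; omega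

private lemma a0_Coef (lam : ℝ) : aCoef lam 0 = qq lam := by rw [aCoef]

private lemma a1_Coef (lam : ℝ) : aCoef lam 1 = -1 := by rw [aCoef]

private lemma a2_Coef (lam : ℝ) (n : ℕ) : aCoef lam (n + 2) =
    (∑ i : Fin (n + 1), aCoef lam (i.1 + 1) * aCoef lam (n + 1 - i.1)) /
      (lam ^ (n + 2) - (lam⁻¹) ^ (n + 2) - 2 * qq lam) := by
  rw [aCoef]

/-- lower bound for the divisor -/
private lemma div_Coef (lam : ℝ) (h : 1 < |lam|) (n : ℕ) :
    (1 - |lam|⁻¹) ^ 2 * |lam| ^ (n + 2) ≤ |lam ^ (n + 2) - (lam⁻¹) ^ (n + 2) - 2 * qq lam| := by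
  have h0 : 0 < |lam| := by linarith
  have hne : lam ≠ 0 := abs_pos.mp h0
  set m := lam⁻¹ with hm0
  have hm : lam * m = 1 := mul_inv_cancel₀ hne
  have h1 : lam ^ (n + 1) * m ^ (n + 1) = 1 := by rw [← mul_pow, hm, one_pow]
  have e : lam ^ (n + 2) - m ^ (n + 2) - 2 * qq lam
      = lam ^ (n + 2) * ((1 - m ^ (n + 1)) * (1 + m ^ (n + 3))) := by
    unfold qq
    rw [← hm0]
    have e1 : lam ^ (n + 2) * m ^ (n + 1) = lam := by
      calc lam ^ (n + 2) * m ^ (n + 1) = (lam ^ (n + 1) * m ^ (n + 1)) * lam := by ring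
        _ = lam := by rw [h1, one_mul]
    have e2 : lam ^ (n + 2) * m ^ (n + 3) = m := by
      calc lam ^ (n + 2) * m ^ (n + 3) = (lam ^ (n + 1) * m ^ (n + 1)) * ((lam * m) * m) := by ring
        _ = m := by rw [h1, hm, one_mul, one_mul]
    have e3 : lam ^ (n + 2) * (m ^ (n + 1) * m ^ (n + 3)) = m ^ (n + 2) := by
      calc lam ^ (n + 2) * (m ^ (n + 1) * m ^ (n + 3))
          = (lam ^ (n + 1) * m ^ (n + 1)) * ((lam * m) * m ^ (n + 2)) := by ring
        _ = m ^ (n + 2) := by rw [h1, hm, one_mul, one_mul]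
    have e4 : lam ^ (n + 2) * ((1 - m ^ (n + 1)) * (1 + m ^ (n + 3)))
        = lam ^ (n + 2) - lam ^ (n + 2) * m ^ (n + 1) + lam ^ (n + 2) * m ^ (n + 3)
          - lam ^ (n + 2) * (m ^ (n + 1) * m ^ (n + 3)) := by ring
    rw [e4, e1, e2, e3]
    ring
  rw [e, abs_mul, abs_mul, abs_pow]
  have hμ : |m| = |lam|⁻¹ := by rw [hm0, abs_inv]
  have hμ0 : 0 < |lam|⁻¹ := inv_pos.mpr h0
  have hμ1 : |lam|⁻¹ < 1 := inv_lt_one_of_one_lt₀ h
  have q1 : |m ^ (n + 1)| ≤ |lam|⁻¹ := by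
    rw [abs_pow, hμ]
    calc (|lam|⁻¹) ^ (n + 1) ≤ (|lam|⁻¹) ^ 1 := pow_le_pow_of_le_one hμ0.le hμ1.le (by omega)
      _ = |lam|⁻¹ := pow_one _
  have q2 : |m ^ (n + 3)| ≤ |lam|⁻¹ := by
    rw [abs_pow, hμ]
    calc (|lam|⁻¹) ^ (n + 3) ≤ (|lam|⁻¹) ^ 1 := pow_le_pow_of_le_one hμ0.le hμ1.le (by omega)
      _ = |lam|⁻¹ := pow_one _
  have p1 : 1 - |lam|⁻¹ ≤ |1 - m ^ (n + 1)| := by
    have := le_abs_self (m ^ (n + 1))
    have := le_abs_self (1 - m ^ (n + 1))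
    linarith
  have p2 : 1 - |lam|⁻¹ ≤ |1 + m ^ (n + 3)| := by
    have := neg_abs_le (m ^ (n + 3))
    have := le_abs_self (1 + m ^ (n + 3))
    linarith
  have p3 : (1 - |lam|⁻¹) ^ 2 ≤ |1 - m ^ (n + 1)| * |1 + m ^ (n + 3)| := by
    rw [pow_two]
    exact mul_le_mul p1 p2 (by linarith) (abs_nonneg _)
  rw [mul_comm]
  exact mul_le_mul_of_nonneg_left p3 (pow_pos h0 _).le

private lemma kap_Coef (lam : ℝ) (h : 1 < |lam|) : 0 < (1 - |lam|⁻¹) ^ 2 := by
  have hμ1 : |lam|⁻¹ < 1 := inv_lt_one_of_one_lt₀ h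
  have : 0 < 1 - |lam|⁻¹ := by linarith
  positivity

/-- the basic estimate -/
private lemma est_Coef (lam : ℝ) (h : 1 < |lam|) (n : ℕ) :
    |aCoef lam (n + 2)| ≤ ((1 - |lam|⁻¹) ^ 2)⁻¹ * (|lam|⁻¹) ^ (n + 2) *
      ∑ i : Fin (n + 1), |aCoef lam (i.1 + 1)| * |aCoef lam (n + 1 - i.1)| := by
  have h0 : 0 < |lam| := by linarith
  have hk := kap_Coef lam h
  have hd := div_Coef lam h n
  have hl : 0 < |lam| ^ (n + 2) := pow_pos h0 _
  have hD : 0 < (1 - |lam|⁻¹) ^ 2 * |lam| ^ (n + 2) := mul_pos hk hl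
  have hS : 0 ≤ ∑ i : Fin (n + 1), |aCoef lam (i.1 + 1)| * |aCoef lam (n + 1 - i.1)| :=
    Finset.sum_nonneg (fun i _ => by positivity)
  rw [a2_Coef, abs_div]
  have hnum : |∑ i : Fin (n + 1), aCoef lam (i.1 + 1) * aCoef lam (n + 1 - i.1)| ≤
      ∑ i : Fin (n + 1), |aCoef lam (i.1 + 1)| * |aCoef lam (n + 1 - i.1)| := by
    refine (Finset.abs_sum_le_sum_abs _ _).trans (Finset.sum_le_sum (fun i _ => ?_))
    rw [abs_mul]
  calc |∑ i : Fin (n + 1), aCoef lam (i.1 + 1) * aCoef lam (n + 1 - i.1)| /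
        |lam ^ (n + 2) - (lam⁻¹) ^ (n + 2) - 2 * qq lam|
      ≤ (∑ i : Fin (n + 1), |aCoef lam (i.1 + 1)| * |aCoef lam (n + 1 - i.1)|) /
        ((1 - |lam|⁻¹) ^ 2 * |lam| ^ (n + 2)) := div_le_div₀ hS hnum hD hd
    _ = _ := by
      rw [div_eq_mul_inv, mul_inv, inv_pow]
      ring

/-- geometric bound through the Catalan numbers -/
private lemma cat_Coef (lam : ℝ) (h : 1 < |lam|) (K : ℝ) (hK1 : 1 ≤ K)
    (hK : ((1 - |lam|⁻¹) ^ 2)⁻¹ ≤ K) (n : ℕ) :
    |aCoef lam (n + 1)| ≤ K ^ n * catalan n := by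
  have h0 : 0 < |lam| := by linarith
  have hμ0 : 0 < |lam|⁻¹ := inv_pos.mpr h0
  have hμ1 : |lam|⁻¹ < 1 := inv_lt_one_of_one_lt₀ h
  have hk := kap_Coef lam h
  induction n using Nat.strong_induction_on with
  | _ n ih =>
    rcases n with _ | n
    · rw [zero_add, a1_Coef]
      simp
    · refine (est_Coef lam h n).trans ?_
      have hS : 0 ≤ ∑ i : Fin (n + 1), |aCoef lam (i.1 + 1)| * |aCoef lam (n + 1 - i.1)| :=
        Finset.sum_nonneg (fun i _ => by positivity)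
      have h1 : ((1 - |lam|⁻¹) ^ 2)⁻¹ * (|lam|⁻¹) ^ (n + 2) ≤ K := by
        calc ((1 - |lam|⁻¹) ^ 2)⁻¹ * (|lam|⁻¹) ^ (n + 2) ≤ ((1 - |lam|⁻¹) ^ 2)⁻¹ * 1 :=
              mul_le_mul_of_nonneg_left (pow_le_one₀ hμ0.le hμ1.le) (inv_pos.mpr hk).le
          _ ≤ K := by rw [mul_one]; exact hK
      refine (mul_le_mul_of_nonneg_right h1 hS).trans ?_
      have h2 : ∑ i : Fin (n + 1), |aCoef lam (i.1 + 1)| * |aCoef lam (n + 1 - i.1)|
          ≤ ∑ i : Fin (n + 1), K ^ n * ((catalan i.1 : ℝ) * (catalan (n - i.1) : ℝ)) := by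
        refine Finset.sum_le_sum (fun i _ => ?_)
        have hi : i.1 < n + 1 := i.2
        have e1 := ih i.1 (by omega)
        have e2 := ih (n - i.1) (by omega)
        have e3 : n + 1 - i.1 = (n - i.1) + 1 := by omega
        rw [e3]
        calc |aCoef lam (i.1 + 1)| * |aCoef lam ((n - i.1) + 1)|
            ≤ (K ^ i.1 * catalan i.1) * (K ^ (n - i.1) * catalan (n - i.1)) :=
              mul_le_mul e1 e2 (abs_nonneg _) (by positivity)
          _ = K ^ (i.1 + (n - i.1)) * ((catalan i.1 : ℝ) * (catalan (n - i.1) : ℝ)) := by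
              rw [pow_add]; ring
          _ = _ := by
              have : i.1 + (n - i.1) = n := by omega
              rw [this]
      refine (mul_le_mul_of_nonneg_left h2 (by linarith)).trans ?_
      rw [← Finset.mul_sum, catalan_succ]
      push_cast
      rw [pow_succ]
      apply le_of_eq
      ring

private lemma catle_Coef (n : ℕ) : (catalan n : ℝ) ≤ 4 ^ n := by
  have h1 : catalan n ≤ n.centralBinom := by
    rw [catalan_eq_centralBinom_div]
    exact Nat.div_le_self _ _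
  have h2 : n.centralBinom ≤ 4 ^ n := by
    unfold Nat.centralBinom
    calc (2 * n).choose n ≤ 2 ^ (2 * n) := Nat.choose_le_two_pow _ _
      _ = 4 ^ n := by rw [pow_mul]; norm_num
  exact_mod_cast h1.trans h2

private lemma geo_Coef (lam : ℝ) (h : 1 < |lam|) :
    ∃ C r : ℝ, 0 < C ∧ 0 < r ∧ ∀ n, |aCoef lam n| ≤ C * r ^ n := by
  set K : ℝ := max 1 (((1 - |lam|⁻¹) ^ 2)⁻¹) with hKdef
  have hK1 : 1 ≤ K := le_max_left _ _
  have hK : ((1 - |lam|⁻¹) ^ 2)⁻¹ ≤ K := le_max_right _ _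
  refine ⟨|qq lam| + 1, 4 * K, by positivity, by positivity, ?_⟩
  intro n
  rcases n with _ | n
  · rw [a0_Coef, pow_zero, mul_one]
    linarith
  · have h1 := cat_Coef lam h K hK1 hK n
    have h2 := catle_Coef n
    have hKp : 0 < K ^ n := by positivity
    calc |aCoef lam (n + 1)| ≤ K ^ n * 4 ^ n := h1.trans (mul_le_mul_of_nonneg_left h2 hKp.le)
      _ = (4 * K) ^ n := by rw [mul_pow]; ring
      _ ≤ (4 * K) ^ (n + 1) := pow_le_pow_right₀ (by linarith) (by omega)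
      _ ≤ (|qq lam| + 1) * (4 * K) ^ (n + 1) := by
          refine le_mul_of_one_le_left (by positivity) ?_
          have := abs_nonneg (qq lam)
          linarith

/-- improvement step -/
private lemma step_Coef (lam : ℝ) (h : 1 < |lam|) (C r : ℝ) (hC : 0 < C) (hr : 0 < r)
    (hb : ∀ n, |aCoef lam n| ≤ C * r ^ n) :
    ∃ C', 0 < C' ∧ ∀ n, |aCoef lam n| ≤ C' * (r * Real.sqrt (|lam|⁻¹)) ^ n := by
  have h0 : 0 < |lam| := by linarith
  have hμ0 : 0 < |lam|⁻¹ := inv_pos.mpr h0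
  have hμ1 : |lam|⁻¹ < 1 := inv_lt_one_of_one_lt₀ h
  set s := Real.sqrt (|lam|⁻¹) with hs
  have hs0 : 0 < s := Real.sqrt_pos.mpr hμ0
  have hs2 : s * s = |lam|⁻¹ := Real.mul_self_sqrt hμ0.le
  have hs1 : s < 1 := by
    by_contra hcon
    push Not at hcon
    nlinarith
  have hk := kap_Coef lam h
  have hkap : 0 < ((1 - |lam|⁻¹) ^ 2)⁻¹ := inv_pos.mpr hk
  -- n s^n bounded
  have hlim : Filter.Tendsto (fun n : ℕ => (n : ℝ) * s ^ n) Filter.atTop (nhds 0) :=
    tendsto_self_mul_const_pow_of_lt_one hs0.le hs1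
  obtain ⟨B, hB⟩ := hlim.bddAbove_range
  have hB' : ∀ n : ℕ, (n : ℝ) * s ^ n ≤ B := fun n => hB ⟨n, rfl⟩
  have hB0 : 0 ≤ B := by
    have := hB' 0
    simpa using this
  set C' : ℝ := C + C / s + ((1 - |lam|⁻¹) ^ 2)⁻¹ * B * C ^ 2 + 1 with hC'
  have hCs : 0 < C / s := div_pos hC hs0
  have hprod : 0 ≤ ((1 - |lam|⁻¹) ^ 2)⁻¹ * B * C ^ 2 := by positivity
  refine ⟨C', by rw [hC']; linarith, ?_⟩
  intro n
  rcases n with _ | _ | n
  · rw [pow_zero, mul_one]
    have := hb 0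
    rw [pow_zero, mul_one] at this
    rw [hC']; linarith
  · rw [zero_add, pow_one]
    have h1 := hb 1
    rw [pow_one] at h1
    have h2 : C * r = (C / s) * (r * s) := by field_simp
    calc |aCoef lam 1| ≤ (C / s) * (r * s) := by rw [← h2]; exact h1
      _ ≤ C' * (r * s) := by
        refine mul_le_mul_of_nonneg_right ?_ (by positivity)
        rw [hC']; linarith
  · refine (est_Coef lam h n).trans ?_
    have hsum : ∑ i : Fin (n + 1), |aCoef lam (i.1 + 1)| * |aCoef lam (n + 1 - i.1)|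
        ≤ ∑ _i : Fin (n + 1), C ^ 2 * r ^ (n + 2) := by
      refine Finset.sum_le_sum (fun i _ => ?_)
      have hi : i.1 < n + 1 := i.2
      calc |aCoef lam (i.1 + 1)| * |aCoef lam (n + 1 - i.1)|
          ≤ (C * r ^ (i.1 + 1)) * (C * r ^ (n + 1 - i.1)) :=
            mul_le_mul (hb _) (hb _) (abs_nonneg _) (by positivity)
        _ = C ^ 2 * r ^ ((i.1 + 1) + (n + 1 - i.1)) := by rw [pow_add]; ring
        _ = C ^ 2 * r ^ (n + 2) := by
            have : (i.1 + 1) + (n + 1 - i.1) = n + 2 := by omega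
            rw [this]
    rw [Finset.sum_const, Finset.card_univ, Fintype.card_fin, nsmul_eq_mul] at hsum
    have hμn : 0 < (|lam|⁻¹) ^ (n + 2) := pow_pos hμ0 _
    calc ((1 - |lam|⁻¹) ^ 2)⁻¹ * (|lam|⁻¹) ^ (n + 2) *
          ∑ i : Fin (n + 1), |aCoef lam (i.1 + 1)| * |aCoef lam (n + 1 - i.1)|
        ≤ ((1 - |lam|⁻¹) ^ 2)⁻¹ * (|lam|⁻¹) ^ (n + 2) * (((n + 1 : ℕ) : ℝ) * (C ^ 2 * r ^ (n + 2))) :=
          mul_le_mul_of_nonneg_left hsum (by positivity)
      _ = ((1 - |lam|⁻¹) ^ 2)⁻¹ * C ^ 2 * (((n + 1 : ℕ) : ℝ) * s ^ (n + 2)) * (r * s) ^ (n + 2) := by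
          rw [← hs2, mul_pow, mul_pow]; ring
      _ ≤ ((1 - |lam|⁻¹) ^ 2)⁻¹ * C ^ 2 * B * (r * s) ^ (n + 2) := by
          refine mul_le_mul_of_nonneg_right ?_ (by positivity)
          refine mul_le_mul_of_nonneg_left ?_ (by positivity)
          refine le_trans ?_ (hB' (n + 2))
          refine mul_le_mul_of_nonneg_right ?_ (by positivity)
          push_cast
          linarith
      _ ≤ C' * (r * s) ^ (n + 1 + 1) := by
          refine mul_le_mul_of_nonneg_right ?_ (by positivity)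
          rw [hC']
          nlinarith [hC, hCs]

theorem hCoef : StCoef := by
  intro lam h
  have h0 : 0 < |lam| := by linarith
  have hμ0 : 0 < |lam|⁻¹ := inv_pos.mpr h0
  have hμ1 : |lam|⁻¹ < 1 := inv_lt_one_of_one_lt₀ h
  refine ⟨aCoef lam, a0_Coef lam, a1_Coef lam, ?_, ?_⟩
  · intro n hn
    obtain ⟨m, rfl⟩ : ∃ m, n = m + 2 := ⟨n - 2, by omega⟩
    have hd := div_Coef lam h m
    have hk := kap_Coef lam h
    have hD : 0 < (1 - |lam|⁻¹) ^ 2 * |lam| ^ (m + 2) := mul_pos hk (pow_pos h0 _)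
    have hne : lam ^ (m + 2) - (lam⁻¹) ^ (m + 2) - 2 * qq lam ≠ 0 := abs_pos.mp (lt_of_lt_of_le hD hd)
    rw [a2_Coef, mul_div_cancel₀ _ hne]
    have e1 : (∑ i : Fin (m + 1), aCoef lam (i.1 + 1) * aCoef lam (m + 1 - i.1))
        = ∑ i ∈ Finset.range (m + 1), aCoef lam (i + 1) * aCoef lam (m + 1 - i) :=
      (Finset.sum_range (fun i => aCoef lam (i + 1) * aCoef lam (m + 1 - i))).symm
    rw [e1]
    refine Finset.sum_bij (fun i _ => i + 1) ?_ ?_ ?_ ?_
    · intro i hi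
      rw [Finset.mem_range] at hi
      rw [Finset.mem_Icc]
      omega
    · intro i _ j _ hij
      simpa using hij
    · intro j hj
      rw [Finset.mem_Icc] at hj
      exact ⟨j - 1, by rw [Finset.mem_range]; omega, by omega⟩
    · intro i hi
      have : m + 2 - (i + 1) = m + 1 - i := by omega
      rw [this]
  · obtain ⟨C0, r, hC0, hr, hb⟩ := geo_Coef lam h
    set s := Real.sqrt (|lam|⁻¹) with hs
    have hs0 : 0 < s := Real.sqrt_pos.mpr hμ0
    have hs2 : s * s = |lam|⁻¹ := Real.mul_self_sqrt hμ0.le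
    have hs1 : s < 1 := by
      by_contra hcon
      push Not at hcon
      nlinarith
    have key : ∀ k : ℕ, ∃ C, 0 < C ∧ ∀ n, |aCoef lam n| ≤ C * (r * s ^ k) ^ n := by
      intro k
      induction k with
      | zero => exact ⟨C0, hC0, by simpa using hb⟩
      | succ k ih =>
        obtain ⟨C, hC, hCb⟩ := ih
        obtain ⟨C', hC', hb'⟩ := step_Coef lam h C (r * s ^ k) hC (by positivity) hCb
        refine ⟨C', hC', fun n => ?_⟩
        have := hb' n
        rw [← hs] at this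
        rw [pow_succ, ← mul_assoc]
        exact this
    intro R hR
    have hlim : Filter.Tendsto (fun k : ℕ => (r * R) * s ^ k) Filter.atTop (nhds ((r * R) * 0)) :=
      (tendsto_pow_atTop_nhds_zero_of_lt_one hs0.le hs1).const_mul _
    rw [mul_zero] at hlim
    obtain ⟨k, hk⟩ := (hlim.eventually (Iio_mem_nhds one_pos)).exists
    obtain ⟨C, hC, hCb⟩ := key k
    refine ⟨C, fun n => ?_⟩
    have hk' : r * s ^ k * R ≤ 1 := by
      have : r * R * s ^ k < 1 := hk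
      nlinarith
    calc |aCoef lam n| * R ^ n ≤ (C * (r * s ^ k) ^ n) * R ^ n :=
          mul_le_mul_of_nonneg_right (hCb n) (by positivity)
      _ = C * (r * s ^ k * R) ^ n := by rw [mul_pow (r * s ^ k) R]; ring
      _ ≤ C * 1 := mul_le_mul_of_nonneg_left (pow_le_one₀ (by positivity) hk') hC.le
      _ = C := mul_one C

end Helper83.PF
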