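import Pool.Agent.Helper83.PF.St

/-! # Project PE (MP_b39980_an): module `Cov` -/

set_option autoImplicit false

open Set Filter Topology
open Helper83.PE (vv Wu win Cross Covs)

noncomputable section

namespace Helper83.PF

theorem hCov (h1 : StPass) : StCov := by
  intro g U S N X Y r l L t0 m am ap bm bp ε ρ hfc hB hR
  have hbp0 : 0 < bp := by
    have := hR.h1; have := hR.h2; have := hR.h3; have := hR.h4
    linarith
  have hbb : bm < bp := by
    have := hR.h2; have := hR.h3; have := hR.h4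
    linarith
  have hl0 : 0 < l := lt_trans one_pos hB.hl
  obtain ⟨n0, hn0, hP⟩ := h1 g U S N X Y r l L t0 hfc hB bm bp ρ hR.h1 hbb hR.h5 hR.h9
  obtain ⟨k, hk⟩ := pow_unbounded_of_one_lt (2 * r / ε) hB.hl
  obtain ⟨n1, hn1, hk1⟩ : ∃ n1, n0 ≤ n1 ∧ k ≤ n1 := ⟨max n0 k, le_max_left _ _, le_max_right _ _⟩
  have hr : r / l ^ n1 ≤ ε / 2 := by
    have a1 : 2 * r / ε < l ^ n1 := lt_of_lt_of_le hk (pow_le_pow_right₀ hB.hl.le hk1)
    have hε := hR.h7
    rw [div_lt_iff₀ hε] at a1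
    have hp : 0 < l ^ n1 := pow_pos hl0 _
    rw [div_le_iff₀ hp]
    linarith
  have hr' : r / l ^ (n1 + 1) ≤ ε / 2 := by
    have a1 : r / l ^ (n1 + 1) ≤ r / l ^ n1 := by
      apply div_le_div_of_nonneg_left hB.hr.le (pow_pos hl0 _)
      exact pow_le_pow_right₀ hB.hl.le (Nat.le_succ n1)
    exact le_trans a1 hr
  have hrr : r / l ^ n1 ≤ r := by
    apply div_le_self hB.hr.le
    exact one_le_pow₀ hB.hl.le
  refine ⟨n1 + m, by omega, ?_⟩
  intro γ α β hγ
  obtain ⟨hαβ, hcont, hin, hends⟩ := hγ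
  -- the path after `m` steps
  have hc' : ContinuousOn (fun s => g^[m] (γ s)) (Icc α β) :=
    (hfc.iterate m).comp_continuousOn hcont
  have hin' : ∀ s ∈ Icc α β, g^[m] (γ s) ∈ N ∧ |X (g^[m] (γ s))| ≤ bm ∧
      |Y (g^[m] (γ s))| ≤ r := fun s hs => hR.G (γ s) (hin s hs)
  have hα : α ∈ Icc α β := ⟨le_refl _, hαβ⟩
  have hβ : β ∈ Icc α β := ⟨hαβ, le_refl _⟩
  have hρ := hR.h9
  have hends' : (X (g^[m] (γ α)) ≤ 0 ∧ ρ ≤ X (g^[m] (γ β))) ∨
      (ρ ≤ X (g^[m] (γ α)) ∧ X (g^[m] (γ β)) ≤ 0) := by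
    rcases hR.s with hs | hs
    · rcases hends with ⟨e1, e2⟩ | ⟨e1, e2⟩
      · left
        have g1 := (hs (γ α) (hin α hα)).1 e1
        have g2 := (hs (γ β) (hin β hβ)).2 e2
        exact ⟨by linarith, g2⟩
      · right
        have g1 := (hs (γ α) (hin α hα)).2 e1
        have g2 := (hs (γ β) (hin β hβ)).1 e2
        exact ⟨g1, by linarith⟩
    · rcases hends with ⟨e1, e2⟩ | ⟨e1, e2⟩
      · right
        have g1 := (hs (γ α) (hin α hα)).1 e1
        have g2 := (hs (γ β) (hin β hβ)).2 e2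
        exact ⟨g1, by linarith⟩
      · left
        have g1 := (hs (γ α) (hin α hα)).2 e1
        have g2 := (hs (γ β) (hin β hβ)).1 e2
        exact ⟨by linarith, g2⟩
  constructor
  · obtain ⟨α', β', b1, b2, b3, b4, b5⟩ := hP n1 hn1 (fun s => g^[m] (γ s)) α β hαβ hc' hin'
      hends'
    refine ⟨α', β', b1, b3, b2, ?_, ?_, ?_⟩
    · exact ((hfc.iterate (n1 + m)).comp_continuousOn hcont).mono (Icc_subset_Icc b1 b3)
    · intro s hs
      obtain ⟨c1, c2⟩ := b4 s hs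
      obtain ⟨d1, d2, d3, d4⟩ := c1 n1 le_rfl
      show g^[n1 + m] (γ s) ∈ _
      rw [Function.iterate_add_apply]
      exact ⟨d1, c2, d3, le_trans d4 hr⟩
    · simp only [Function.iterate_add_apply]
      exact b5
  · obtain ⟨α', β', b1, b2, b3, b4, b5⟩ := hP (n1 + 1) (by omega) (fun s => g^[m] (γ s)) α β
      hαβ hc' hin' hends'
    have e : n1 + m + 1 = (n1 + 1) + m := by omega
    refine ⟨α', β', b1, b3, ⟨b2, ?_, ?_, ?_⟩, ?_⟩
    · exact ((hfc.iterate (n1 + m + 1)).comp_continuousOn hcont).mono (Icc_subset_Icc b1 b3)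
    · intro s hs
      obtain ⟨c1, c2⟩ := b4 s hs
      obtain ⟨d1, d2, d3, d4⟩ := c1 (n1 + 1) le_rfl
      show g^[n1 + m + 1] (γ s) ∈ _
      rw [e, Function.iterate_add_apply]
      exact ⟨d1, c2, d3, le_trans d4 hr'⟩
    · rw [e]
      simp only [Function.iterate_add_apply g (n1 + 1) m]
      exact b5
    · intro s hs
      obtain ⟨c1, c2⟩ := b4 s hs
      obtain ⟨d1, d2, d3, d4⟩ := c1 n1 (Nat.le_succ n1)
      obtain ⟨f1, f2, f3, f4⟩ := c1 (n1 + 1) le_rfl
      rw [Function.iterate_succ_apply'] at f1 f2 f3 f4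
      rw [Function.iterate_add_apply]
      have hx : |X (g^[n1] (g^[m] (γ s)))| ≤ r / L := by
        rw [abs_of_nonneg d2]
        exact le_trans d3 hR.h5
      obtain ⟨g1, g2, g3, g4, g5⟩ := hB.dyn _ d1 hx (le_trans d4 hrr)
      rw [abs_of_nonneg d2, abs_of_nonneg f2] at g2
      have hX : X (g^[n1] (g^[m] (γ s))) ≤ bp / l := by
        rw [le_div_iff₀ hl0]
        linarith
      have hneg : -(bp / l) ≤ 0 := by
        have : 0 < bp / l := div_pos hbp0 hl0
        linarith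
      exact ⟨d1, le_trans hneg d2, hX, le_trans d4 hrr⟩

end Helper83.PF

end
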