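import Pool.Agent.Helper83.PF.St

set_option autoImplicit false

open Set Filter Topology
open Helper83.PE (vv)

namespace Helper83.PF

private lemma vv_hasDeriv_Fir (φ : ℂ → ℂ) (hd : Differentiable ℂ φ) (t : ℝ) :
    HasDerivAt (vv φ) (deriv φ (t : ℂ)).re t :=
  (hd (t : ℂ)).hasDerivAt.real_of_complex

private lemma vv_cont_Fir (φ : ℂ → ℂ) (hd : Differentiable ℂ φ) : Continuous (vv φ) :=
  continuous_iff_continuousAt.2 fun t => (vv_hasDeriv_Fir φ hd t).continuousAt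

private lemma vv_eq_Fir (κ : ℝ) (φ : ℂ → ℂ) (h : UP κ φ) (t : ℝ) :
    vv φ (κ * t) = vv φ t ^ 2 - qq κ ^ 2 + vv φ (t / κ) := by
  obtain ⟨-, -, -, he, hr⟩ := h
  have h1 := congrArg Complex.re (he (t : ℂ))
  rw [Complex.add_re, Complex.sub_re] at h1
  have h2 : (φ (t : ℂ) ^ 2).re = (φ (t : ℂ)).re ^ 2 := by
    rw [pow_two, Complex.mul_re, hr t]
    ring
  have h3 : ((qq κ : ℂ) ^ 2).re = qq κ ^ 2 := by
    rw [← Complex.ofReal_pow, Complex.ofReal_re]
  rw [h2, h3] at h1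
  unfold vv
  push_cast
  exact h1

private lemma vv_zero_Fir (κ : ℝ) (φ : ℂ → ℂ) (h : UP κ φ) : vv φ 0 = qq κ := by
  unfold vv
  rw [Complex.ofReal_zero, h.2.1, Complex.ofReal_re]

private lemma vv_deriv0_Fir (κ : ℝ) (φ : ℂ → ℂ) (h : UP κ φ) : HasDerivAt (vv φ) (-1) 0 := by
  have h1 := vv_hasDeriv_Fir φ h.1 0
  rw [Complex.ofReal_zero, h.2.2.1] at h1
  simpa using h1

/-- a function vanishing at zero with negative derivative -/
private lemma slope_Fir (D : ℝ → ℝ) (d : ℝ) (hD : HasDerivAt D d 0) (hd : d < 0) (y : ℕ → ℝ)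
    (hy0 : ∀ m, y m ≠ 0) (hy : Tendsto y atTop (𝓝 0)) :
    ∀ᶠ m in atTop, (D (y m) - D 0) * y m < 0 := by
  have h1 := hasDerivAt_iff_tendsto_slope.1 hD
  have h2 : Tendsto y atTop (𝓝[≠] 0) :=
    tendsto_nhdsWithin_iff.2 ⟨hy, Eventually.of_forall hy0⟩
  filter_upwards [(h1.comp h2).eventually (gt_mem_nhds hd)] with m hm
  rw [Function.comp_apply, slope_def_field, sub_zero] at hm
  have h3 : 0 < y m * y m := mul_self_pos.2 (hy0 m)
  have h4 : (D (y m) - D 0) * y m = ((D (y m) - D 0) / y m) * (y m * y m) := by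
    have := hy0 m
    field_simp
  rw [h4]
  exact mul_neg_of_neg_of_pos hm h3

theorem hFir (h1 : StSeqP) (h2 : StSeqM) : StFir := by
  intro κ φ hκ hU
  have hκ0 : κ ≠ 0 := by
    intro h
    rw [h, abs_zero] at hκ
    linarith
  have hv0 := vv_zero_Fir κ φ hU
  have hvd := vv_deriv0_Fir κ φ hU
  have hvc := vv_cont_Fir φ hU.1
  have hrec : ∀ n : ℤ, vv φ (κ ^ (n + 1)) = vv φ (κ ^ n) ^ 2 - |qq κ| ^ 2 + vv φ (κ ^ (n - 1)) := by
    intro n
    have h := vv_eq_Fir κ φ hU (κ ^ n)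
    rw [zpow_add_one₀ hκ0, zpow_sub_one₀ hκ0, mul_comm (κ ^ n) κ, h, sq_abs, div_eq_mul_inv]
  have hdiv : ∀ n : ℤ, κ ^ (n - 1) = κ ^ n / κ := by
    intro n
    rw [zpow_sub_one₀ hκ0, div_eq_mul_inv]
  -- the sequence tending to zero
  have hy0 : ∀ m : ℕ, κ ^ (-(m : ℤ)) ≠ 0 := fun m => zpow_ne_zero _ hκ0
  have hy : Tendsto (fun m : ℕ => κ ^ (-(m : ℤ))) atTop (𝓝 0) := by
    have h3 : |κ⁻¹| < 1 := by
      rw [abs_inv]
      exact inv_lt_one_of_one_lt₀ hκ
    have h4 := tendsto_pow_atTop_nhds_zero_of_abs_lt_one h3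
    refine h4.congr fun m => ?_
    rw [zpow_neg, zpow_natCast, inv_pow]
  have hyv : Tendsto (fun m : ℕ => vv φ (κ ^ (-(m : ℤ)))) atTop (𝓝 (qq κ)) := by
    rw [← hv0]
    exact (hvc.tendsto 0).comp hy
  rcases lt_or_gt_of_ne hκ0 with hneg | hpos
  · -- negative κ
    have hκ1 : κ < -1 := by
      rw [abs_of_neg hneg] at hκ
      linarith
    have hq : qq κ < 0 := by
      unfold qq
      have h3 : |κ⁻¹| < 1 := by
        rw [abs_inv]
        exact inv_lt_one_of_one_lt₀ hκ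
      have h4 := (abs_lt.1 h3).1
      linarith
    have hs : 0 < |qq κ| := abs_pos.2 hq.ne
    have hD : HasDerivAt (fun y : ℝ => vv φ y - vv φ (y / κ)) (-1 - (-1) / κ) 0 := by
      have h3 : HasDerivAt (vv φ) (-1) ((0 : ℝ) / κ) := by rw [zero_div]; exact hvd
      have h4 : HasDerivAt (fun y : ℝ => y / κ) (1 / κ) 0 := (hasDerivAt_id (0 : ℝ)).div_const κ
      have h5 := hvd.sub (h3.comp (0 : ℝ) h4)
      refine h5.congr_deriv ?_
      ring
    have hDn : -1 - (-1) / κ < 0 := by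
      have h3 : 1 / κ < 0 := one_div_neg.2 hneg
      have h4 : -1 - (-1) / κ = -1 + 1 / κ := by ring
      linarith
    have hev := slope_Fir _ _ hD hDn _ hy0 hy
    obtain ⟨m, hm⟩ := eventually_atTop.1 (hev.and (hyv.eventually (gt_mem_nhds hq)))
    have ha := hm m le_rfl
    have hb := hm (m + 1) (Nat.le_succ m)
    have hsucc : κ ^ (-((m + 1 : ℕ) : ℤ)) = κ ^ (-(m : ℤ)) / κ := by
      rw [← hdiv]
      congr 1
      push_cast
      ring
    have hD0 : vv φ 0 - vv φ (0 / κ) = 0 := by rw [zero_div, sub_self]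
    have ha1 := ha.1
    have hb1 := hb.1
    simp only [hD0, sub_zero] at ha1 hb1
    rw [hsucc] at hb1
    have hbv := hb.2
    rw [hsucc] at hbv
    set y : ℝ := κ ^ (-(m : ℤ)) with hyd
    have hyn : y ≠ 0 := hy0 m
    obtain ⟨n, hn⟩ := h2 |qq κ| (fun n => vv φ (κ ^ n)) (-(m : ℤ)) (-(m : ℤ)) hs hrec (by
      simp only [hdiv]
      have e1 : κ ^ (-(m : ℤ) - 2) = y / κ / κ := by
        have : (-(m : ℤ) - 2) = (-(m : ℤ) - 1) - 1 := by ring
        rw [this, hdiv, hdiv]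
      rw [e1, ← hyd]
      have e2 : 0 < (vv φ y - vv φ (y / κ)) * y * ((vv φ (y / κ) - vv φ (y / κ / κ)) * (y / κ)) :=
        mul_pos_of_neg_of_neg ha1 hb1
      have e3 : (vv φ y - vv φ (y / κ)) * y * ((vv φ (y / κ) - vv φ (y / κ / κ)) * (y / κ)) =
          (vv φ y - vv φ (y / κ)) * (vv φ (y / κ) - vv φ (y / κ / κ)) * (y * y / κ) := by ring
      rw [e3] at e2
      have e4 : y * y / κ < 0 := div_neg_of_pos_of_neg (mul_self_pos.2 hyn) hneg
      by_contra hcon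
      push Not at hcon
      exact absurd e2 (not_lt.2 (mul_nonpos_of_nonneg_of_nonpos hcon e4.le))) (by
      simp only [hdiv]
      rw [← hyd]
      linarith [ha.2])
    refine ⟨κ ^ n, zpow_ne_zero _ hκ0, fun h => absurd h (not_lt.2 hneg.le), ?_⟩
    simp only [hdiv] at hn
    unfold Zs
    exact mul_neg_of_neg_of_pos hq hn
  · -- positive κ
    have hκ1 : 1 < κ := by rwa [abs_of_pos hpos] at hκ
    have hq : 0 < qq κ := by
      unfold qq
      have h3 : κ⁻¹ < 1 := inv_lt_one_of_one_lt₀ hκ1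
      linarith
    have habs : |qq κ| = qq κ := abs_of_pos hq
    have hev := slope_Fir _ _ hvd (by norm_num) _ hy0 hy
    obtain ⟨m, hm⟩ := eventually_atTop.1
      (hev.and (hyv.eventually (lt_mem_nhds (show -qq κ < qq κ by linarith))))
    have key : ∀ j, m ≤ j → |vv φ (κ ^ (-(j : ℤ)))| < |qq κ| := by
      intro j hj
      obtain ⟨hj1, hj2⟩ := hm j hj
      have hpj : 0 < κ ^ (-(j : ℤ)) := zpow_pos hpos _
      rw [habs, abs_lt]
      refine ⟨hj2, ?_⟩
      rw [hv0] at hj1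
      by_contra hcon
      push Not at hcon
      have : 0 ≤ (vv φ (κ ^ (-(j : ℤ))) - qq κ) * κ ^ (-(j : ℤ)) :=
        mul_nonneg (by linarith) hpj.le
      linarith
    obtain ⟨n, hn⟩ := h1 |qq κ| (fun n => vv φ (κ ^ n)) (-(m : ℤ)) (by rw [habs]; exact hq) hrec
      (key m le_rfl) (by
        have := key (m + 1) (Nat.le_succ m)
        have e : (-((m + 1 : ℕ) : ℤ)) = -(m : ℤ) - 1 := by push_cast; ring
        rw [e] at this
        exact this)
    refine ⟨κ ^ n, zpow_ne_zero _ hκ0, fun _ => zpow_pos hpos _, ?_⟩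
    simp only [hdiv] at hn
    unfold Zs
    exact mul_neg_of_pos_of_neg hq hn

end Helper83.PF
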