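import Pool.Agent.Helper83.PF.St

/-!
# Project PF, module Hor: horseshoe for very negative `c`
-/

set_option autoImplicit false

open Set Filter Topology
open Helper85.HN (hen Orb Bd KK E0)
open Helper83.PE (vv Wu win Cross Covs)

noncomputable section

namespace Helper83.PF

private theorem cont_hen_Hor (b c : ℝ) : Continuous (hen b c) := by
  unfold hen
  fun_prop

theorem hHor (h1 : Helper83.PE.StSub) (h2 : Helper83.PE.StWord) (h3 : Helper83.PE.StBi)
    (h4 : Helper83.PE.StEnt) (h5 : Helper85.HN.StKc) : StHor := by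
  intro b c hb hb2 hc
  obtain ⟨s, hs0, hs⟩ : ∃ s : ℝ, 0 ≤ s ∧ s ^ 2 = -c :=
    ⟨Real.sqrt (-c), Real.sqrt_nonneg _, Real.sq_sqrt (by linarith)⟩
  have hs6 : 6 ≤ s := by nlinarith
  obtain ⟨R, hR⟩ : ∃ R : ℝ, R = s + 4 := ⟨_, rfl⟩
  have hR1 : R ≤ R ^ 2 + c - 2 * R := by rw [hR]; nlinarith
  have hR2 : 1 + c + 2 * R ≤ -R := by rw [hR]; nlinarith
  have hR10 : 10 ≤ R := by linarith
  set g : ℝ × ℝ → ℝ × ℝ := hen b c with hg
  have hgc : Continuous g := cont_hen_Hor b c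
  have hg1 : ∀ z : ℝ × ℝ, (g z).1 = z.1 ^ 2 + c - b * z.2 := fun z => rfl
  have hg2 : ∀ z : ℝ × ℝ, (g z).2 = z.1 := fun z => rfl
  set X : ℝ × ℝ → ℝ := fun z => z.1 with hX
  set D : Set (ℝ × ℝ) := Icc 1 R ×ˢ Icc (-R) R with hD
  set E : Set (ℝ × ℝ) := Icc (-R) (-1) ×ˢ Icc (-R) R with hE
  have hby : ∀ y : ℝ, |y| ≤ R → |b * y| ≤ 2 * R := by
    intro y hy
    rw [abs_mul]
    exact mul_le_mul hb2 hy (abs_nonneg _) (by norm_num)
  -- values at the sides
  have hout : ∀ z : ℝ × ℝ, |z.2| ≤ R → (z.1 = R ∨ z.1 = -R) → R ≤ (g z).1 := by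
    intro z hz hz'
    rw [hg1]
    have e1 := (abs_le.1 (hby _ hz)).2
    have e2 : z.1 ^ 2 = R ^ 2 := by
      rcases hz' with h | h <;> rw [h]
      ring
    rw [e2]
    linarith
  have hinn : ∀ z : ℝ × ℝ, |z.2| ≤ R → (z.1 = 1 ∨ z.1 = -1) → (g z).1 ≤ -R := by
    intro z hz hz'
    rw [hg1]
    have e1 := (abs_le.1 (hby _ hz)).1
    have e2 : z.1 ^ 2 = 1 := by
      rcases hz' with h | h <;> rw [h] <;> ring
    rw [e2]
    linarith
  have hcov : Covs g X D D E 1 R 1 R 1 2 := by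
    rintro γ α β ⟨hαβ, hγc, hγD, hends⟩
    have hγ2 : ∀ t ∈ Icc α β, |(γ t).2| ≤ R := by
      intro t ht
      have := (hγD t ht).2
      exact abs_le.2 ⟨this.1, this.2⟩
    have hγ1 : ∀ t ∈ Icc α β, |(γ t).1| ≤ R := by
      intro t ht
      have := (hγD t ht).1
      rw [mem_Icc] at this
      rw [abs_le]
      constructor <;> linarith [this.1, this.2]
    have hα : α ∈ Icc α β := ⟨le_rfl, hαβ⟩
    have hβ : β ∈ Icc α β := ⟨hαβ, le_rfl⟩
    have hgγ : ContinuousOn (fun t => g (γ t)) (Icc α β) := hgc.comp_continuousOn hγc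
    have hh : ContinuousOn (fun t => (g (γ t)).1) (Icc α β) :=
      continuous_fst.comp_continuousOn hgγ
    have hcross : ((g (γ α)).1 ≤ -R ∧ R ≤ (g (γ β)).1) ∨ (R ≤ (g (γ α)).1 ∧ (g (γ β)).1 ≤ -R) := by
      rcases hends with ⟨e1, e2⟩ | ⟨e1, e2⟩
      · left
        exact ⟨hinn _ (hγ2 _ hα) (Or.inl e1), hout _ (hγ2 _ hβ) (Or.inl e2)⟩
      · right
        exact ⟨hout _ (hγ2 _ hα) (Or.inl e1), hinn _ (hγ2 _ hβ) (Or.inl e2)⟩
    refine ⟨?_, ?_⟩
    · obtain ⟨α', β', ha, hab, hb', hin, hen'⟩ := h1 (fun t => (g (γ t)).1) α β 1 R (by linarith)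
        hαβ hh (by
          rcases hcross with ⟨e1, e2⟩ | ⟨e1, e2⟩
          · left; exact ⟨by linarith, e2⟩
          · right; exact ⟨e1, by linarith⟩)
      refine ⟨α', β', ha, hb', hab, ?_, ?_, ?_⟩
      · exact hgγ.mono (Icc_subset_Icc ha hb')
      · intro t ht
        have ht' : t ∈ Icc α β := ⟨ha.trans ht.1, ht.2.trans hb'⟩
        have := hin t ht
        refine ⟨⟨this.1, this.2⟩, ?_⟩
        have e := hγ1 t ht'
        exact abs_le.1 e
      · exact hen'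
    · obtain ⟨α₁, β₁, ha, hab, hb', hin, hen'⟩ := h1 (fun t => (g (γ t)).1) α β (-R) (-1)
        (by linarith) hαβ hh (by
          rcases hcross with ⟨e1, e2⟩ | ⟨e1, e2⟩
          · left; exact ⟨e1, by linarith⟩
          · right; exact ⟨by linarith, e2⟩)
      have hsub : Icc α₁ β₁ ⊆ Icc α β := Icc_subset_Icc ha hb'
      have hα₁ : α₁ ∈ Icc α₁ β₁ := ⟨le_rfl, hab⟩
      have hβ₁ : β₁ ∈ Icc α₁ β₁ := ⟨hab, le_rfl⟩
      have hggγ : ContinuousOn (fun t => g (g (γ t))) (Icc α₁ β₁) :=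
        hgc.comp_continuousOn (hgγ.mono hsub)
      have hkk : ContinuousOn (fun t => (g (g (γ t))).1) (Icc α₁ β₁) :=
        continuous_fst.comp_continuousOn hggγ
      have hg2' : ∀ t ∈ Icc α₁ β₁, |(g (γ t)).2| ≤ R := fun t ht => hγ1 t (hsub ht)
      obtain ⟨α', β', ha2, hab2, hb2', hin2, hen2⟩ := h1 (fun t => (g (g (γ t))).1) α₁ β₁ 1 R
        (by linarith) hab hkk (by
          rcases hen' with ⟨e1, e2⟩ | ⟨e1, e2⟩
          · right
            have e3 := hout _ (hg2' _ hα₁) (Or.inr e1)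
            have e4 := hinn _ (hg2' _ hβ₁) (Or.inr e2)
            exact ⟨e3, by linarith⟩
          · left
            have e3 := hinn _ (hg2' _ hα₁) (Or.inr e1)
            have e4 := hout _ (hg2' _ hβ₁) (Or.inr e2)
            exact ⟨by linarith, e4⟩)
      refine ⟨α', β', ha.trans ha2, hb2'.trans hb', ⟨hab2, ?_, ?_, ?_⟩, ?_⟩
      · exact hggγ.mono (Icc_subset_Icc ha2 hb2')
      · intro t ht
        have ht' : t ∈ Icc α₁ β₁ := ⟨ha2.trans ht.1, ht.2.trans hb2'⟩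
        have e1 := hin2 t ht
        have e2 := hin t ht'
        refine ⟨⟨e1.1, e1.2⟩, ?_⟩
        have e3 : (g (γ t)).1 ∈ Icc (-R) R := ⟨e2.1, by linarith [e2.2]⟩
        exact e3
      · exact hen2
      · intro t ht
        have ht' : t ∈ Icc α₁ β₁ := ⟨ha2.trans ht.1, ht.2.trans hb2'⟩
        have e2 := hin t ht'
        exact ⟨⟨e2.1, e2.2⟩, abs_le.1 (hg2' t ht')⟩
  have hDc : IsCompact D := isCompact_Icc.prod isCompact_Icc
  have hEc : IsCompact E := isCompact_Icc.prod isCompact_Icc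
  have hdis : Disjoint D E := by
    rw [Set.disjoint_left]
    rintro z hz hz'
    have e1 := hz.1.1
    have e2 := hz'.1.2
    linarith
  have hinit : ∃ (γ : ℝ → ℝ × ℝ) (α β : ℝ), Cross X D 1 R γ α β := by
    refine ⟨fun t => (t, 0), 1, R, by linarith, by fun_prop, ?_, Or.inl ⟨rfl, rfl⟩⟩
    intro t ht
    exact ⟨ht, ⟨by linarith, by linarith⟩⟩
  have hword := h2 g X D E 1 R 1 2 hcov hinit
  have hbi := h3 b c D E 1 2 hb le_rfl hDc hEc hword
  exact h4 g (KK b c) D E 1 3 (by norm_num) (by norm_num) (h5 b c).2.2.1 hDc hEc hdis hbi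

end Helper83.PF
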