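import Pool.Agent.Helper83.PF.St

set_option autoImplicit false

open Set Filter Topology

namespace Helper83.PF

private lemma tend_Inj {lam : ℝ} (hl : 1 < |lam|) (t : ℂ) :
    Tendsto (fun k : ℕ => t / (lam : ℂ) ^ k) atTop (𝓝 0) := by
  have h1 : ‖((lam : ℂ))⁻¹‖ < 1 := by
    rw [norm_inv, Complex.norm_real, Real.norm_eq_abs]
    exact inv_lt_one_of_one_lt₀ hl
  have h2 := (tendsto_pow_atTop_nhds_zero_of_norm_lt_one h1).const_mul t
  rw [mul_zero] at h2
  refine h2.congr fun k => ?_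
  rw [inv_pow, div_eq_mul_inv]

theorem hInj : StInj := by
  intro lam φ hl ⟨hd, h0, h1, heq, hre⟩
  have hl0 : (lam : ℂ) ≠ 0 := by
    have : lam ≠ 0 := abs_pos.mp (by linarith)
    exact_mod_cast this
  have key : ∀ t : ℂ, ∀ k : ℕ, φ (t / (lam : ℂ) ^ (k + 2)) =
      φ (t / (lam : ℂ) ^ k) - φ (t / (lam : ℂ) ^ (k + 1)) ^ 2 + (qq lam : ℂ) ^ 2 := by
    intro t k
    have h := heq (t / (lam : ℂ) ^ (k + 1))
    have e1 : (lam : ℂ) * (t / (lam : ℂ) ^ (k + 1)) = t / (lam : ℂ) ^ k := by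
      field_simp
      ring
    have e2 : t / (lam : ℂ) ^ (k + 1) / (lam : ℂ) = t / (lam : ℂ) ^ (k + 2) := by
      rw [div_div, ← pow_succ]
    rw [e1, e2] at h
    linear_combination -h
  constructor
  · intro t s hts hts'
    have hall : ∀ k : ℕ, φ (t / (lam : ℂ) ^ k) = φ (s / (lam : ℂ) ^ k) ∧
        φ (t / (lam : ℂ) ^ (k + 1)) = φ (s / (lam : ℂ) ^ (k + 1)) := by
      intro k
      induction k with
      | zero => simpa using ⟨hts, hts'⟩
      | succ k ih =>
        refine ⟨ih.2, ?_⟩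
        rw [key t k, key s k, ih.1, ih.2]
    have hstr : HasStrictDerivAt φ (deriv φ 0) 0 := (hd.analyticAt 0).hasStrictDerivAt
    have hne : deriv φ 0 ≠ 0 := by
      rw [h1]
      norm_num
    have hev := hstr.eventually_left_inverse hne
    obtain ⟨k, hk1, hk2⟩ := (((tend_Inj hl t).eventually hev).and
      ((tend_Inj hl s).eventually hev)).exists
    have h2 : t / (lam : ℂ) ^ k = s / (lam : ℂ) ^ k := by
      rw [← hk1, ← hk2, (hall k).1]
    have hpk : (lam : ℂ) ^ k ≠ 0 := pow_ne_zero _ hl0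
    field_simp at h2
    exact h2
  · rintro t ⟨ht, ht'⟩
    have hder : ∀ z : ℂ, (lam : ℂ) * deriv φ ((lam : ℂ) * z) - deriv φ (z / (lam : ℂ)) / (lam : ℂ) =
        2 * φ z * deriv φ z := by
      intro z
      have hL : HasDerivAt (fun z => φ ((lam : ℂ) * z) - φ (z / (lam : ℂ)))
          (deriv φ ((lam : ℂ) * z) * ((lam : ℂ) * 1) - deriv φ (z / (lam : ℂ)) * (1 / (lam : ℂ))) z := by
        have a1 : HasDerivAt (fun z : ℂ => (lam : ℂ) * z) ((lam : ℂ) * 1) z :=
          (hasDerivAt_id z).const_mul _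
        have a2 : HasDerivAt (fun z : ℂ => z / (lam : ℂ)) (1 / (lam : ℂ)) z :=
          (hasDerivAt_id z).div_const _
        exact ((hd _).hasDerivAt.comp z a1).sub ((hd _).hasDerivAt.comp z a2)
      have hR : HasDerivAt (fun z => φ z ^ 2 - (qq lam : ℂ) ^ 2) (2 * φ z * deriv φ z) z := by
        have := ((hd z).hasDerivAt.pow 2).sub_const ((qq lam : ℂ) ^ 2)
        simpa using this
      have hfun : (fun z => φ ((lam : ℂ) * z) - φ (z / (lam : ℂ))) = fun z => φ z ^ 2 - (qq lam : ℂ) ^ 2 :=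
        funext fun z => by rw [heq z]; ring
      rw [hfun] at hL
      have := hL.unique hR
      rw [← this]
      ring
    have hall : ∀ k : ℕ, deriv φ (t / (lam : ℂ) ^ k) = 0 ∧
        deriv φ (t / (lam : ℂ) ^ (k + 1)) = 0 := by
      intro k
      induction k with
      | zero => simpa using ⟨ht, ht'⟩
      | succ k ih =>
        refine ⟨ih.2, ?_⟩
        have h := hder (t / (lam : ℂ) ^ (k + 1))
        have e1 : (lam : ℂ) * (t / (lam : ℂ) ^ (k + 1)) = t / (lam : ℂ) ^ k := by
          field_simp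
          ring
        have e2 : t / (lam : ℂ) ^ (k + 1) / (lam : ℂ) = t / (lam : ℂ) ^ (k + 2) := by
          rw [div_div, ← pow_succ]
        rw [e1, e2, ih.1, ih.2, mul_zero, mul_zero, zero_sub, neg_eq_zero] at h
        exact (div_eq_zero_iff.mp h).resolve_right hl0
    have hcont : Continuous (deriv φ) := (hd.contDiff (n := 1)).continuous_deriv le_rfl
    have hlim : Tendsto (fun k : ℕ => deriv φ (t / (lam : ℂ) ^ k)) atTop (𝓝 (deriv φ 0)) :=
      (hcont.tendsto 0).comp (tend_Inj hl t)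
    have hconst : Tendsto (fun k : ℕ => deriv φ (t / (lam : ℂ) ^ k)) atTop (𝓝 0) := by
      refine tendsto_const_nhds.congr fun k => ?_
      exact (hall k).1.symm
    have := tendsto_nhds_unique hlim hconst
    rw [h1] at this
    norm_num at this

end Helper83.PF
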