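import Pool.Agent.Helper83.PF.St

/-!
# MP_b39980_an, project PF, module Itv: an interval with two cut points
-/

set_option autoImplicit false

open Set Filter Topology

namespace Helper83.PF

/-- crossing a level inside an order connected set -/
private theorem ivt_Itv (g : ℝ → ℝ) (I : Set ℝ) (hI : I.OrdConnected) (hg : ContinuousOn g I)
    (a b v : ℝ) (ha : a ∈ I) (hb : b ∈ I) (h1 : g a < v) (h2 : v < g b) :
    ∃ t ∈ I, g t = v ∧ t ∈ uIcc a b := by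
  have hsub : uIcc a b ⊆ I := hI.uIcc_subset ha hb
  have h3 := intermediate_value_uIcc (hg.mono hsub)
  have h4 : v ∈ uIcc (g a) (g b) := by
    rw [mem_uIcc]
    exact Or.inl ⟨h1.le, h2.le⟩
  obtain ⟨t, ht, htv⟩ := h3 h4
  exact ⟨t, hsub ht, htv, ht⟩

/-- the case `t2 < t1` -/
private theorem cut_Itv (g : ℝ → ℝ) (I : Set ℝ) (hI : I.OrdConnected) (hg : ContinuousOn g I)
    (t1 t2 : ℝ) (h1I : t1 ∈ I) (h2I : t2 ∈ I) (h1 : g t1 = 1) (h2 : g t2 = -1)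
    (u1 : ∀ t ∈ I, g t = 1 → t = t1) (u2 : ∀ t ∈ I, g t = -1 → t = t2)
    (hp : ∃ t ∈ I, 1 < g t) (hm : ∃ t ∈ I, g t < -1) (hlt : t2 < t1) :
    ∀ t ∈ I, |g t| ≤ 1 ↔ t ∈ Icc t2 t1 := by
  have hin : ∀ t ∈ I, t ∈ Icc t2 t1 → |g t| ≤ 1 := by
    intro t ht htt
    rw [abs_le]
    constructor
    · by_contra hlt'
      rw [not_le] at hlt'
      obtain ⟨t', ht'I, ht'v, ht'⟩ := ivt_Itv g I hI hg t t1 (-1) ht h1I hlt' (by rw [h1]; norm_num)
      have e := u2 t' ht'I ht'v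
      rw [uIcc_of_le htt.2] at ht'
      have e2 : t = t2 := le_antisymm (by rw [← e]; exact ht'.1) htt.1
      rw [e2, h2] at hlt'
      exact lt_irrefl _ hlt'
    · by_contra hlt'
      rw [not_le] at hlt'
      obtain ⟨t', ht'I, ht'v, ht'⟩ := ivt_Itv g I hI hg t2 t 1 h2I ht (by rw [h2]; norm_num) hlt'
      have e := u1 t' ht'I ht'v
      rw [uIcc_of_le htt.1] at ht'
      have e2 : t = t1 := le_antisymm htt.2 (by rw [← e]; exact ht'.2)
      rw [e2, h1] at hlt'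
      exact lt_irrefl _ hlt'
  have hr : ∀ t ∈ I, t1 < t → 1 < g t := by
    intro t ht htt
    by_contra hle
    rw [not_lt] at hle
    have hlt1 : g t < 1 := lt_of_le_of_ne hle fun h => by
      have := u1 t ht h
      linarith
    obtain ⟨p, hpI, hpg⟩ := hp
    rcases le_or_gt t1 p with h | h
    · obtain ⟨t', ht'I, ht'v, ht'⟩ := ivt_Itv g I hI hg t p 1 ht hpI hlt1 hpg
      have e := u1 t' ht'I ht'v
      have hne : t1 ≠ p := fun h' => by
        rw [← h', h1] at hpg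
        exact lt_irrefl _ hpg
      have hlt2 : t1 < p := lt_of_le_of_ne h hne
      have : t1 < t' := lt_of_lt_of_le (lt_min htt hlt2) ht'.1
      linarith
    · have hp2 : p < t2 := by
        by_contra hh
        rw [not_lt] at hh
        have := hin p hpI ⟨hh, h.le⟩
        have := (abs_le.mp this).2
        linarith
      obtain ⟨t', ht'I, ht'v, ht'⟩ := ivt_Itv g I hI hg t2 p 1 h2I hpI (by rw [h2]; norm_num) hpg
      have e := u1 t' ht'I ht'v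
      have : t' ≤ t2 := ht'.2.trans (max_le le_rfl hp2.le)
      linarith
  have hl : ∀ t ∈ I, t < t2 → g t < -1 := by
    intro t ht htt
    by_contra hle
    rw [not_lt] at hle
    have hlt1 : -1 < g t := lt_of_le_of_ne hle fun h => by
      have := u2 t ht h.symm
      linarith
    obtain ⟨p, hpI, hpg⟩ := hm
    rcases le_or_gt p t2 with h | h
    · obtain ⟨t', ht'I, ht'v, ht'⟩ := ivt_Itv g I hI hg p t (-1) hpI ht hpg hlt1
      have e := u2 t' ht'I ht'v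
      have hne : p ≠ t2 := fun h' => by
        rw [h', h2] at hpg
        exact lt_irrefl _ hpg
      have hlt2 : p < t2 := lt_of_le_of_ne h hne
      have : t' < t2 := lt_of_le_of_lt ht'.2 (max_lt hlt2 htt)
      linarith
    · have hp2 : t1 < p := by
        by_contra hh
        rw [not_lt] at hh
        have := hin p hpI ⟨h.le, hh⟩
        have := (abs_le.mp this).1
        linarith
      have := hr p hpI hp2
      linarith
  intro t ht
  refine ⟨fun h => ⟨?_, ?_⟩, hin t ht⟩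
  · by_contra hh
    rw [not_le] at hh
    have := hl t ht hh
    have := (abs_le.mp h).1
    linarith
  · by_contra hh
    rw [not_le] at hh
    have := hr t ht hh
    have := (abs_le.mp h).2
    linarith

/-- both cases -/
private theorem cut2_Itv (g : ℝ → ℝ) (I : Set ℝ) (hI : I.OrdConnected) (hg : ContinuousOn g I)
    (t1 t2 : ℝ) (h1I : t1 ∈ I) (h2I : t2 ∈ I) (h1 : g t1 = 1) (h2 : g t2 = -1)
    (u1 : ∀ t ∈ I, g t = 1 → t = t1) (u2 : ∀ t ∈ I, g t = -1 → t = t2)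
    (hp : ∃ t ∈ I, 1 < g t) (hm : ∃ t ∈ I, g t < -1) :
    ∀ t ∈ I, |g t| ≤ 1 ↔ t ∈ uIcc t2 t1 := by
  rcases lt_trichotomy t2 t1 with h | h | h
  · rw [uIcc_of_le h.le]
    exact cut_Itv g I hI hg t1 t2 h1I h2I h1 h2 u1 u2 hp hm h
  · rw [h, h1] at h2
    norm_num at h2
  · rw [uIcc_of_ge h.le]
    have h3 := cut_Itv (fun t => -g t) I hI hg.neg t2 t1 h2I h1I (by simp [h2]) (by simp [h1])
      (fun t ht hv => u2 t ht (by linarith)) (fun t ht hv => u1 t ht (by linarith))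
      (by
        obtain ⟨t, ht, hv⟩ := hm
        exact ⟨t, ht, by linarith⟩)
      (by
        obtain ⟨t, ht, hv⟩ := hp
        exact ⟨t, ht, by linarith⟩) h
    intro t ht
    have h4 := h3 t ht
    rwa [abs_neg] at h4

private theorem aff_mem_Itv (t1 t2 s : ℝ) (hs : s ∈ Icc (0 : ℝ) 1) :
    t2 + s * (t1 - t2) ∈ uIcc t2 t1 := by
  obtain ⟨h0, h1⟩ := hs
  rw [mem_uIcc]
  rcases le_total t2 t1 with h | h
  · left
    constructor <;> nlinarith
  · right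
    constructor <;> nlinarith

private theorem aff_inv_mem_Itv (t1 t2 t : ℝ) (hne : t1 ≠ t2) (ht : t ∈ uIcc t2 t1) :
    (t - t2) / (t1 - t2) ∈ Icc (0 : ℝ) 1 := by
  rw [mem_uIcc] at ht
  rcases lt_or_gt_of_ne hne with h | h
  · have hneg : t1 - t2 < 0 := by linarith
    have ht' : t1 ≤ t ∧ t ≤ t2 := by
      rcases ht with ⟨ha, hb⟩ | ⟨ha, hb⟩
      · constructor <;> linarith
      · exact ⟨ha, hb⟩
    constructor
    · exact div_nonneg_of_nonpos (by linarith) hneg.le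
    · rw [div_le_one_of_neg hneg]
      linarith
  · have hpos : 0 < t1 - t2 := by linarith
    have ht' : t2 ≤ t ∧ t ≤ t1 := by
      rcases ht with ⟨ha, hb⟩ | ⟨ha, hb⟩
      · exact ⟨ha, hb⟩
      · constructor <;> linarith
    constructor
    · exact div_nonneg (by linarith) hpos.le
    · rw [div_le_one hpos]
      linarith

/-- MODULE Itv. -/
theorem hItv : StItv := by
  intro S p1 p2 hp1 hp2 hp1v hp2v u1 u2 hbig hsmall I hI hhom
  obtain ⟨φ⟩ := hhom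
  classical
  -- the function on the interval
  set g : ℝ → ℝ := fun t => if h : t ∈ I then (φ ⟨t, h⟩ : ℝ × ℝ).1 else 0 with hgdef
  have hgv : ∀ t (h : t ∈ I), g t = (φ ⟨t, h⟩ : ℝ × ℝ).1 := by
    intro t h
    rw [hgdef]
    exact dif_pos h
  have hgc : ContinuousOn g I := by
    rw [continuousOn_iff_continuous_domRestrict]
    have e : I.domRestrict g = fun t : I => (φ t : ℝ × ℝ).1 := by
      funext t
      exact hgv t t.2
    rw [e]
    exact continuous_fst.comp (continuous_subtype_val.comp φ.continuous)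
  set t1 : ℝ := (φ.symm ⟨p1, hp1⟩ : ℝ) with ht1
  set t2 : ℝ := (φ.symm ⟨p2, hp2⟩ : ℝ) with ht2
  have h1I : t1 ∈ I := (φ.symm ⟨p1, hp1⟩).2
  have h2I : t2 ∈ I := (φ.symm ⟨p2, hp2⟩).2
  have e1 : φ ⟨t1, h1I⟩ = ⟨p1, hp1⟩ := φ.apply_symm_apply _
  have e2 : φ ⟨t2, h2I⟩ = ⟨p2, hp2⟩ := φ.apply_symm_apply _
  have hg1 : g t1 = 1 := by rw [hgv t1 h1I, e1, hp1v]
  have hg2 : g t2 = -1 := by rw [hgv t2 h2I, e2, hp2v]
  have v1 : ∀ t ∈ I, g t = 1 → t = t1 := by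
    intro t ht hv
    rw [hgv t ht] at hv
    have h3 := u1 _ (φ ⟨t, ht⟩).2 hv
    have h4 : φ ⟨t, ht⟩ = ⟨p1, hp1⟩ := Subtype.ext h3
    rw [← e1] at h4
    exact congrArg Subtype.val (φ.injective h4)
  have v2 : ∀ t ∈ I, g t = -1 → t = t2 := by
    intro t ht hv
    rw [hgv t ht] at hv
    have h3 := u2 _ (φ ⟨t, ht⟩).2 hv
    have h4 : φ ⟨t, ht⟩ = ⟨p2, hp2⟩ := Subtype.ext h3
    rw [← e2] at h4
    exact congrArg Subtype.val (φ.injective h4)
  have hbig' : ∃ t ∈ I, 1 < g t := by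
    obtain ⟨q, hq, hqv⟩ := hbig
    refine ⟨(φ.symm ⟨q, hq⟩ : ℝ), (φ.symm ⟨q, hq⟩).2, ?_⟩
    rw [hgv _ (φ.symm ⟨q, hq⟩).2]
    have : φ ⟨(φ.symm ⟨q, hq⟩ : ℝ), (φ.symm ⟨q, hq⟩).2⟩ = ⟨q, hq⟩ := φ.apply_symm_apply _
    rw [this]
    exact hqv
  have hsmall' : ∃ t ∈ I, g t < -1 := by
    obtain ⟨q, hq, hqv⟩ := hsmall
    refine ⟨(φ.symm ⟨q, hq⟩ : ℝ), (φ.symm ⟨q, hq⟩).2, ?_⟩
    rw [hgv _ (φ.symm ⟨q, hq⟩).2]
    have : φ ⟨(φ.symm ⟨q, hq⟩ : ℝ), (φ.symm ⟨q, hq⟩).2⟩ = ⟨q, hq⟩ := φ.apply_symm_apply _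
    rw [this]
    exact hqv
  have key := cut2_Itv g I hI hgc t1 t2 h1I h2I hg1 hg2 v1 v2 hbig' hsmall'
  have hsub : uIcc t2 t1 ⊆ I := hI.uIcc_subset h2I h1I
  have hne : t1 ≠ t2 := by
    intro h
    rw [h, hg2] at hg1
    norm_num at hg1
  have hne' : t1 - t2 ≠ 0 := sub_ne_zero.mpr hne
  have memI : ∀ s : Icc (0 : ℝ) 1, t2 + s * (t1 - t2) ∈ I := fun s => hsub (aff_mem_Itv t1 t2 s s.2)
  have memT : ∀ s : Icc (0 : ℝ) 1, (φ ⟨t2 + s * (t1 - t2), memI s⟩ : ℝ × ℝ) ∈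
      {q : ℝ × ℝ | q ∈ S ∧ |q.1| ≤ 1} := by
    intro s
    refine ⟨(φ _).2, ?_⟩
    rw [← hgv _ (memI s)]
    exact (key _ (memI s)).mpr (aff_mem_Itv t1 t2 s s.2)
  have memInv : ∀ q : {q : ℝ × ℝ | q ∈ S ∧ |q.1| ≤ 1},
      ((φ.symm ⟨(q : ℝ × ℝ), q.2.1⟩ : ℝ) - t2) / (t1 - t2) ∈ Icc (0 : ℝ) 1 := by
    intro q
    apply aff_inv_mem_Itv t1 t2 _ hne
    apply (key _ (φ.symm ⟨(q : ℝ × ℝ), q.2.1⟩).2).mp
    rw [hgv _ (φ.symm ⟨(q : ℝ × ℝ), q.2.1⟩).2]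
    have : φ ⟨(φ.symm ⟨(q : ℝ × ℝ), q.2.1⟩ : ℝ), (φ.symm ⟨(q : ℝ × ℝ), q.2.1⟩).2⟩ =
        ⟨(q : ℝ × ℝ), q.2.1⟩ := φ.apply_symm_apply _
    rw [this]
    exact q.2.2
  let e : Icc (0 : ℝ) 1 ≃ₜ {q : ℝ × ℝ | q ∈ S ∧ |q.1| ≤ 1} :=
    { toFun := fun s => ⟨(φ ⟨t2 + s * (t1 - t2), memI s⟩ : ℝ × ℝ), memT s⟩
      invFun := fun q => ⟨((φ.symm ⟨(q : ℝ × ℝ), q.2.1⟩ : ℝ) - t2) / (t1 - t2), memInv q⟩
      left_inv := by
        intro s
        apply Subtype.ext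
        have h3 : φ.symm ⟨((φ ⟨t2 + s * (t1 - t2), memI s⟩ : S) : ℝ × ℝ), (memT s).1⟩ =
            ⟨t2 + s * (t1 - t2), memI s⟩ := φ.symm_apply_apply _
        show ((φ.symm ⟨((φ ⟨t2 + s * (t1 - t2), memI s⟩ : S) : ℝ × ℝ), (memT s).1⟩ : ℝ) - t2) /
          (t1 - t2) = s
        rw [h3]
        show (t2 + s * (t1 - t2) - t2) / (t1 - t2) = s
        field_simp
        ring
      right_inv := by
        intro q
        apply Subtype.ext
        have h3 : t2 + ((φ.symm ⟨(q : ℝ × ℝ), q.2.1⟩ : ℝ) - t2) / (t1 - t2) * (t1 - t2) =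
            (φ.symm ⟨(q : ℝ × ℝ), q.2.1⟩ : ℝ) := by
          field_simp
          ring
        have h4 : (⟨t2 + ((φ.symm ⟨(q : ℝ × ℝ), q.2.1⟩ : ℝ) - t2) / (t1 - t2) * (t1 - t2),
            memI ⟨_, memInv q⟩⟩ : I) = φ.symm ⟨(q : ℝ × ℝ), q.2.1⟩ := Subtype.ext h3
        show ((φ ⟨t2 + ((φ.symm ⟨(q : ℝ × ℝ), q.2.1⟩ : ℝ) - t2) / (t1 - t2) * (t1 - t2),
            memI ⟨_, memInv q⟩⟩ : S) : ℝ × ℝ) = q
        rw [h4, φ.apply_symm_apply]
      continuous_toFun := by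
        refine Continuous.subtype_mk ?_ _
        refine continuous_subtype_val.comp (φ.continuous.comp ?_)
        refine Continuous.subtype_mk ?_ _
        fun_prop
      continuous_invFun := by
        refine Continuous.subtype_mk ?_ _
        refine Continuous.div_const (Continuous.sub ?_ continuous_const) _
        refine continuous_subtype_val.comp (φ.symm.continuous.comp ?_)
        exact Continuous.subtype_mk continuous_subtype_val _ }
  refine ⟨e, ?_, ?_⟩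
  · show ((φ ⟨t2 + (0 : ℝ) * (t1 - t2), _⟩ : S) : ℝ × ℝ) = p2
    have h3 : (⟨t2 + (0 : ℝ) * (t1 - t2), memI ⟨0, by norm_num, by norm_num⟩⟩ : I) = ⟨t2, h2I⟩ :=
      Subtype.ext (by ring)
    rw [h3, e2]
  · show ((φ ⟨t2 + (1 : ℝ) * (t1 - t2), _⟩ : S) : ℝ × ℝ) = p1
    have h3 : (⟨t2 + (1 : ℝ) * (t1 - t2), memI ⟨1, by norm_num, by norm_num⟩⟩ : I) = ⟨t1, h1I⟩ :=
      Subtype.ext (by ring)
    rw [h3, e1]

end Helper83.PF
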