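import Pool.Agent.Helper83.PF.St

set_option autoImplicit false

open Set Filter Topology
open Helper83.PE (vv)

namespace Helper83.PF

theorem hOdd (h1 : StUsh) : StOdd := by
  intro κ φ tq hκ hφ htq0 hZ hZ'
  have hφ' := hφ
  obtain ⟨hdiff, -, -, -, hre⟩ := hφ
  have hvv : ∀ t : ℝ, φ (t : ℂ) = ((vv φ t : ℝ) : ℂ) := by
    intro t
    apply Complex.ext
    · simp [vv]
    · rw [hre t]; simp
  have hdivc : ∀ t : ℝ, (t : ℂ) / (κ : ℂ) = ((t / κ : ℝ) : ℂ) := by
    intro t; push_cast; rfl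
  -- the complex functions
  set Dc : ℂ → ℂ := fun z => φ z + φ (z / (κ : ℂ)) with hDc
  set Sc : ℂ → ℂ := fun z => φ z - φ (z / (κ : ℂ)) with hSc
  have hdiv : Differentiable ℂ (fun z : ℂ => z / (κ : ℂ)) := differentiable_id.div_const _
  have hDd : Differentiable ℂ Dc := hdiff.add (hdiff.comp hdiv)
  have hSd : Differentiable ℂ Sc := hdiff.sub (hdiff.comp hdiv)
  have hDr : ∀ t : ℝ, Dc (t : ℂ) = ((Zs κ φ t : ℝ) : ℂ) := by
    intro t
    simp only [hDc, Zs]
    rw [hdivc, hvv, hvv]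
    push_cast
    rfl
  have hSr : ∀ t : ℝ, Sc (t : ℂ) = ((vv φ t - vv φ (t / κ) : ℝ) : ℂ) := by
    intro t
    simp only [hSc]
    rw [hdivc, hvv, hvv]
    push_cast
    rfl
  have hD0 : Dc (tq : ℂ) = 0 := by
    rw [hDr, hZ]
    simp
  -- real derivative
  have hstr : HasStrictDerivAt Dc (deriv Dc (tq : ℂ)) (tq : ℂ) :=
    (hDd.analyticAt _).hasStrictDerivAt
  have hstrR : HasStrictDerivAt (Zs κ φ) (deriv Dc (tq : ℂ)).re tq := by
    have h2 := hstr.real_of_complex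
    have e : (fun t : ℝ => (Dc (t : ℂ)).re) = Zs κ φ := by
      funext t
      rw [hDr, Complex.ofReal_re]
    rwa [e] at h2
  have hcre : (deriv Dc (tq : ℂ)).re ≠ 0 := by
    rw [← hstrR.hasDerivAt.deriv]
    exact hZ'
  have hcne : deriv Dc (tq : ℂ) ≠ 0 := by
    intro h
    rw [h] at hcre
    exact hcre Complex.zero_re
  -- the local inverse
  obtain ⟨ι, hι, hleft, hright, hι0⟩ : ∃ ι : ℂ → ℂ, AnalyticAt ℂ ι 0 ∧
      (∀ᶠ z in 𝓝 (tq : ℂ), ι (Dc z) = z) ∧ (∀ᶠ w in 𝓝 (0 : ℂ), Dc (ι w) = w) ∧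
      ι 0 = (tq : ℂ) := by
    have hA := hDd.analyticAt (tq : ℂ)
    refine ⟨hA.hasStrictDerivAt.localInverse _ _ _ hcne, ?_, ?_, ?_, ?_⟩
    · have := hA.analyticAt_localInverse hcne
      rwa [hD0] at this
    · exact HasStrictDerivAt.eventually_left_inverse ..
    · have := HasStrictDerivAt.eventually_right_inverse hA.hasStrictDerivAt hcne
      rwa [hD0] at this
    · have := (HasStrictDerivAt.eventually_left_inverse hA.hasStrictDerivAt hcne).self_of_nhds
      rwa [hD0] at this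
  set ψc : ℂ → ℂ := fun w => Sc (ι w) with hψc
  have hψa : AnalyticAt ℂ ψc 0 := (hSd.analyticAt (ι 0)).comp hι
  set h : ℂ → ℂ := fun w => ψc w - ψc (-w) with hh
  have hha : AnalyticAt ℂ h 0 := by
    have h2 : AnalyticAt ℂ (fun w : ℂ => ψc (-w)) 0 := by
      have h3 : AnalyticAt ℂ (fun w : ℂ => -w) 0 := analyticAt_id.neg
      have h4 : AnalyticAt ℂ ψc ((fun w : ℂ => -w) 0) := by
        show AnalyticAt ℂ ψc (-0)
        rw [neg_zero]; exact hψa
      exact AnalyticAt.comp (g := ψc) (f := fun w : ℂ => -w) h4 h3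
    exact hψa.sub h2
  have hleftR : ∀ᶠ t : ℝ in 𝓝 tq, ι (Dc ((t : ℝ) : ℂ)) = (t : ℂ) :=
    (Complex.continuous_ofReal.tendsto tq).eventually hleft
  have hreal : ∀ᶠ d : ℝ in 𝓝 (0 : ℝ), (ψc (d : ℂ)).im = 0 := by
    have h2 := hstrR.map_nhds_eq hcre
    rw [hZ] at h2
    rw [← h2, eventually_map]
    filter_upwards [hleftR] with t ht
    rw [← hDr]
    show (Sc (ι (Dc (t : ℂ)))).im = 0
    rw [ht, hSr, Complex.ofReal_im]
  rcases hha.eventually_eq_zero_or_eventually_ne_zero with hz | hz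
  · -- coincidence
    exfalso
    refine h1 κ φ hκ hφ' (tq : ℂ) (tq : ℂ) ⟨by exact_mod_cast htq0, by
      exact_mod_cast htq0, fun z => ι (-Dc z), ?_, ?_, ?_⟩
    · have h3 : AnalyticAt ℂ (fun z : ℂ => -Dc z) (tq : ℂ) := (hDd.analyticAt _).neg
      have h4 : AnalyticAt ℂ ι ((fun z : ℂ => -Dc z) (tq : ℂ)) := by
        show AnalyticAt ℂ ι (-Dc (tq : ℂ))
        rw [hD0, neg_zero]; exact hι
      exact AnalyticAt.comp (g := ι) (f := fun z : ℂ => -Dc z) h4 h3
    · show ι (-Dc (tq : ℂ)) = _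
      rw [hD0, neg_zero, hι0]
    · have hDt : Tendsto Dc (𝓝 (tq : ℂ)) (𝓝 0) := by
        have := hDd.continuous.tendsto (tq : ℂ)
        rwa [hD0] at this
      have hDtn : Tendsto (fun z => -Dc z) (𝓝 (tq : ℂ)) (𝓝 0) := by
        have := hDt.neg
        rwa [neg_zero] at this
      filter_upwards [hleft, hDtn.eventually hright, hDt.eventually hz] with z h2 h3 h4
      have h5 : Sc (ι (-Dc z)) = Sc z := by
        have h6 : ψc (Dc z) - ψc (-Dc z) = 0 := h4
        have h7 : ψc (Dc z) = Sc z := by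
          show Sc (ι (Dc z)) = Sc z
          rw [h2]
        rw [h7] at h6
        exact (sub_eq_zero.1 h6).symm
      have h6 : φ (ι (-Dc z)) + φ (ι (-Dc z) / (κ : ℂ)) = -(φ z + φ (z / (κ : ℂ))) := h3
      have h7 : φ (ι (-Dc z)) - φ (ι (-Dc z) / (κ : ℂ)) = φ z - φ (z / (κ : ℂ)) := h5
      constructor
      · linear_combination (1 / 2 : ℂ) * h6 - (1 / 2 : ℂ) * h7
      · linear_combination (1 / 2 : ℂ) * h6 + (1 / 2 : ℂ) * h7
  · -- isolated zero
    have hA1 : ∀ᶠ d : ℝ in 𝓝[>] (0 : ℝ), h (d : ℂ) ≠ 0 := by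
      have h2 : Tendsto (fun d : ℝ => (d : ℂ)) (𝓝[>] (0 : ℝ)) (𝓝[≠] (0 : ℂ)) := by
        rw [tendsto_nhdsWithin_iff]
        constructor
        · have := Complex.continuous_ofReal.tendsto (0 : ℝ)
          rw [Complex.ofReal_zero] at this
          exact this.mono_left nhdsWithin_le_nhds
        · filter_upwards [self_mem_nhdsWithin] with d hd
          have h3 : (0 : ℝ) < d := hd
          show (d : ℂ) ∈ ({0}ᶜ : Set ℂ)
          simp [h3.ne']
      exact h2.eventually hz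
    have hneg : Tendsto (fun d : ℝ => -d) (𝓝 (0 : ℝ)) (𝓝 0) := by
      have := (continuous_neg (G := ℝ)).tendsto 0
      rwa [neg_zero] at this
    have hA2 : ∀ᶠ d : ℝ in 𝓝 (0 : ℝ), (h (d : ℂ)).im = 0 := by
      filter_upwards [hreal, hneg.eventually hreal] with d h2 h3
      show (ψc (d : ℂ) - ψc (-(d : ℂ))).im = 0
      rw [Complex.sub_im, h2]
      rw [Complex.ofReal_neg] at h3
      rw [h3, sub_zero]
    have hA3 : ∀ᶠ d : ℝ in 𝓝 (0 : ℝ), AnalyticAt ℂ h (d : ℂ) := by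
      have h2 := Complex.continuous_ofReal.tendsto (0 : ℝ)
      rw [Complex.ofReal_zero] at h2
      exact h2.eventually hha.eventually_analyticAt
    have hall : ∀ᶠ d : ℝ in 𝓝[>] (0 : ℝ), h (d : ℂ) ≠ 0 ∧ (h (d : ℂ)).im = 0 ∧
        AnalyticAt ℂ h (d : ℂ) :=
      hA1.and ((hA2.filter_mono nhdsWithin_le_nhds).and (hA3.filter_mono nhdsWithin_le_nhds))
    obtain ⟨ρ, hρ, hρs⟩ := mem_nhdsGT_iff_exists_Ioo_subset.1 hall
    have hρ0 : (0 : ℝ) < ρ := hρ
    have hgdef : ∀ d : ℝ, (ψc (d : ℂ)).re - (ψc ((-d : ℝ) : ℂ)).re = (h (d : ℂ)).re := by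
      intro d
      show _ = (ψc (d : ℂ) - ψc (-(d : ℂ))).re
      rw [Complex.sub_re (ψc (d : ℂ)) (ψc (-(d : ℂ))), Complex.ofReal_neg]
    have hne : ∀ d ∈ Ioo (0 : ℝ) ρ, (h (d : ℂ)).re ≠ 0 := by
      intro d hd h2
      obtain ⟨h3, h4, -⟩ := hρs hd
      exact h3 (Complex.ext h2 h4)
    have hcont : ContinuousOn (fun d : ℝ => (h (d : ℂ)).re) (Ioo 0 ρ) := by
      intro d hd
      obtain ⟨-, -, h5⟩ := hρs hd
      have h6 : ContinuousAt (fun d : ℝ => h (d : ℂ)) d :=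
        ContinuousAt.comp (f := fun d : ℝ => (d : ℂ)) (g := h) h5.continuousAt
          Complex.continuous_ofReal.continuousAt
      exact (Complex.continuous_re.continuousAt.comp h6).continuousWithinAt
    refine ⟨fun d => (ψc (d : ℂ)).re, ρ, hρ0, ?_, ?_⟩
    · filter_upwards [hleftR] with t ht
      show _ = (ψc ((Zs κ φ t : ℝ) : ℂ)).re
      rw [← hDr]
      show _ = (Sc (ι (Dc (t : ℂ)))).re
      rw [ht, hSr, Complex.ofReal_re]
    · have hmid : ρ / 2 ∈ Ioo (0 : ℝ) ρ := ⟨by linarith, by linarith⟩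
      have hivt : ∀ d ∈ Ioo (0 : ℝ) ρ, 0 < (h ((ρ / 2 : ℝ) : ℂ)).re * (h (d : ℂ)).re := by
        intro d hd
        have hsub : uIcc (ρ / 2) d ⊆ Ioo (0 : ℝ) ρ := by
          intro x hx
          rw [mem_uIcc] at hx
          obtain ⟨h2, h3⟩ := hd
          rcases hx with h4 | h4
          · exact ⟨by linarith [h4.1], by linarith [h4.2]⟩
          · exact ⟨by linarith [h4.1], by linarith [h4.2]⟩
        by_contra hneg2
        push Not at hneg2
        have h2 : (0 : ℝ) ∈ uIcc (h ((ρ / 2 : ℝ) : ℂ)).re (h (d : ℂ)).re := by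
          rw [mem_uIcc]
          rcases le_or_gt (h ((ρ / 2 : ℝ) : ℂ)).re 0 with h3 | h3
          · left
            refine ⟨h3, ?_⟩
            by_contra h4
            push Not at h4
            have h5 : (h ((ρ / 2 : ℝ) : ℂ)).re < 0 := lt_of_le_of_ne h3 (hne _ hmid)
            nlinarith [mul_pos_of_neg_of_neg h5 h4]
          · right
            refine ⟨?_, h3.le⟩
            by_contra h4
            push Not at h4
            nlinarith [mul_pos h3 h4]
        obtain ⟨x, hx, hx0⟩ := intermediate_value_uIcc (hcont.mono hsub) h2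
        exact hne x (hsub hx) hx0
      rcases lt_or_gt_of_ne (hne _ hmid) with h2 | h2
      · right
        intro d hd
        show (ψc (d : ℂ)).re - (ψc ((-d : ℝ) : ℂ)).re < 0
        rw [hgdef]
        have h3 := hivt d hd
        by_contra h4
        push Not at h4
        nlinarith
      · left
        intro d hd
        show 0 < (ψc (d : ℂ)).re - (ψc ((-d : ℝ) : ℂ)).re
        rw [hgdef]
        exact (mul_pos_iff_of_pos_left h2).1 (hivt d hd)

end Helper83.PF
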