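import Pool.Agent.Helper83.PF.St

/-!
# Project PF, module Pass: passage near the saddle (adaptation of PE, module Pass)
-/

set_option autoImplicit false

open Set Filter Topology
open Helper85.HN (hen Orb Bd KK E0)

noncomputable section

namespace Helper83.PF

private lemma last_Pass {h : ℝ → ℝ} {a b u : ℝ} (hab : a ≤ b) (hc : ContinuousOn h (Icc a b))
    (ha : h a ≤ u) (hb : u ≤ h b) :
    ∃ a' ∈ Icc a b, h a' = u ∧ ∀ s ∈ Icc a' b, u ≤ h s := by
  have hcomp : IsCompact (Icc a b ∩ h ⁻¹' (Iic u)) :=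
    isCompact_Icc.of_isClosed_subset (hc.preimage_isClosed_of_isClosed isClosed_Icc isClosed_Iic)
      inter_subset_left
  obtain ⟨a', ⟨ha', hh⟩, hmax⟩ := hcomp.exists_isGreatest ⟨a, ⟨left_mem_Icc.2 hab, ha⟩⟩
  have hmem : u ∈ Icc (h a') (h b) := ⟨hh, hb⟩
  obtain ⟨c, hc1, hc2⟩ :=
    intermediate_value_Icc ha'.2 (hc.mono (Icc_subset_Icc_left ha'.1)) hmem
  have hca : c ≤ a' := hmax ⟨⟨ha'.1.trans hc1.1, hc1.2⟩, hc2.le⟩
  have hca' : c = a' := le_antisymm hca hc1.1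
  have hu : h a' = u := by rw [← hca']; exact hc2
  refine ⟨a', ha', hu, ?_⟩
  intro s hs
  by_contra hcon
  rw [not_le] at hcon
  have h1 : s ≤ a' := hmax ⟨⟨ha'.1.trans hs.1, hs.2⟩, hcon.le⟩
  have h2 : s = a' := le_antisymm h1 hs.1
  rw [h2, hu] at hcon
  exact lt_irrefl _ hcon

private lemma cap_Pass {h : ℝ → ℝ} {a b v : ℝ} (hab : a ≤ b) (hc : ContinuousOn h (Icc a b))
    (ha : h a ≤ v) :
    ∃ b' ∈ Icc a b, (∀ s ∈ Icc a b', h s ≤ v) ∧ (b' = b ∨ h b' = v) := by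
  by_cases H : ∀ s ∈ Icc a b, h s ≤ v
  · exact ⟨b, right_mem_Icc.2 hab, H, Or.inl rfl⟩
  · push Not at H
    obtain ⟨s1, hs1, hv⟩ := H
    have hcomp : IsCompact (Icc a b ∩ h ⁻¹' (Ici v)) :=
      isCompact_Icc.of_isClosed_subset
        (hc.preimage_isClosed_of_isClosed isClosed_Icc isClosed_Ici) inter_subset_left
    obtain ⟨b', ⟨hb', hh⟩, hmin⟩ := hcomp.exists_isLeast ⟨s1, hs1, hv.le⟩
    have hmem : v ∈ Icc (h a) (h b') := ⟨ha, hh⟩
    obtain ⟨c, hc1, hc2⟩ :=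
      intermediate_value_Icc hb'.1 (hc.mono (Icc_subset_Icc_right hb'.2)) hmem
    have h1 : b' ≤ c := hmin ⟨⟨hc1.1, hc1.2.trans hb'.2⟩, hc2.ge⟩
    have h2 : c = b' := le_antisymm hc1.2 h1
    have hv' : h b' = v := by rw [← h2]; exact hc2
    refine ⟨b', hb', ?_, Or.inr hv'⟩
    intro s hs
    by_contra hcon
    rw [not_le] at hcon
    have h3 : b' ≤ s := hmin ⟨⟨hs.1, hs.2.trans hb'.2⟩, hcon.le⟩
    have h4 : s = b' := le_antisymm hs.2 h3
    rw [h4, hv'] at hcon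
    exact lt_irrefl _ hcon

private lemma step_Pass {g : ℝ × ℝ → ℝ × ℝ} {U S : ℝ → ℝ × ℝ} {N : Set (ℝ × ℝ)} {X Y : ℝ × ℝ → ℝ}
    {r l L t0 : ℝ} (hB : Bx g U S N X Y r l L t0) {bp : ℝ} (hbp : bp ≤ r / L) {z : ℝ × ℝ} {j : ℕ}
    (hz : z ∈ N) (h0 : 0 ≤ X z) (h1 : X z ≤ bp) (h2 : |Y z| ≤ r / l ^ j) :
    g z ∈ N ∧ l * X z ≤ X (g z) ∧ X (g z) ≤ L * X z ∧
      |Y (g z)| ≤ r / l ^ (j + 1) := by
  have hl0 : 0 < l := lt_trans zero_lt_one hB.hl
  have hX : |X z| = X z := abs_of_nonneg h0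
  have hY : |Y z| ≤ r := by
    refine h2.trans ?_
    rw [div_le_iff₀ (by positivity)]
    have : 1 ≤ l ^ j := one_le_pow₀ hB.hl.le
    nlinarith [hB.hr]
  obtain ⟨d1, d2, d3, d4, d5⟩ := hB.dyn z hz (by rw [hX]; linarith) hY
  rw [hX] at d2 d3
  have hnn : 0 ≤ X (g z) := by
    rcases eq_or_lt_of_le h0 with h | h
    · rw [← h, mul_zero] at d3
      have : |X (g z)| = 0 := le_antisymm d3 (abs_nonneg _)
      rw [abs_eq_zero] at this
      rw [this]
    · exact nonneg_of_mul_nonneg_right d4 h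
  rw [abs_of_nonneg hnn] at d2 d3
  refine ⟨d1, d2, d3, ?_⟩
  calc |Y (g z)| ≤ |Y z| / l := d5
    _ ≤ (r / l ^ j) / l := by gcongr
    _ = r / l ^ (j + 1) := by rw [div_div, pow_succ]

private lemma orient_Pass {g : ℝ × ℝ → ℝ × ℝ} {U S : ℝ → ℝ × ℝ} {N : Set (ℝ × ℝ)} {X Y : ℝ × ℝ → ℝ}
    {r l L t0 : ℝ} (hg : Continuous g) (hB : Bx g U S N X Y r l L t0) {bm bp ρ : ℝ} (hbm : 0 < bm) (hbb : bm < bp)
    (hbp : bp ≤ r / L) {n : ℕ} (hn : bp ≤ l ^ n * ρ) (γ : ℝ → ℝ × ℝ) (α β : ℝ)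
    (hαβ : α ≤ β) (hγ : ContinuousOn γ (Icc α β))
    (hin : ∀ s ∈ Icc α β, γ s ∈ N ∧ |X (γ s)| ≤ bm ∧ |Y (γ s)| ≤ r)
    (h0 : X (γ α) ≤ 0) (h1 : ρ ≤ X (γ β)) (hρ : 0 < ρ) :
    ∃ α' β', α ≤ α' ∧ α' ≤ β' ∧ β' ≤ β ∧
      (∀ s ∈ Icc α' β', (∀ j ≤ n, g^[j] (γ s) ∈ N ∧ 0 ≤ X (g^[j] (γ s)) ∧
        X (g^[j] (γ s)) ≤ bp ∧ |Y (g^[j] (γ s))| ≤ r / l ^ j) ∧
        bm ≤ X (g^[n] (γ s))) ∧
      X (g^[n] (γ α')) = bm ∧ X (g^[n] (γ β')) = bp := by
  have hl0 : 0 < l := lt_trans zero_lt_one hB.hl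
  have hcontX : ContinuousOn (fun s => X (γ s)) (Icc α β) :=
    hB.cX.continuousOn.comp hγ (fun s hs => (hin s hs).1)
  obtain ⟨s0, hs0, hs00, hs0p⟩ := last_Pass hαβ hcontX h0 (by linarith)
  have hcontj : ∀ (k : ℕ) (b : ℝ), b ≤ β → (∀ s ∈ Icc s0 b, g^[k] (γ s) ∈ N) →
      ContinuousOn (fun s => X (g^[k] (γ s))) (Icc s0 b) := by
    intro k b hb hk
    have hc : ContinuousOn (fun s => g^[k] (γ s)) (Icc s0 b) :=
      (hg.iterate k).comp_continuousOn (hγ.mono (Icc_subset_Icc hs0.1 hb))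
    exact hB.cX.continuousOn.comp hc hk
  have key : ∀ k : ℕ, ∃ b ∈ Icc s0 β,
      (∀ s ∈ Icc s0 b, ∀ j ≤ k, g^[j] (γ s) ∈ N ∧ 0 ≤ X (g^[j] (γ s)) ∧
        X (g^[j] (γ s)) ≤ bp ∧ |Y (g^[j] (γ s))| ≤ r / l ^ j) ∧
      min bp (l ^ k * ρ) ≤ X (g^[k] (γ b)) ∧ X (g^[k] (γ s0)) = 0 := by
    intro k
    induction k with
    | zero =>
      refine ⟨β, right_mem_Icc.2 hs0.2, ?_, ?_, ?_⟩
      · intro s hs j hj
        have hj0 : j = 0 := by omega
        subst hj0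
        have hs' : s ∈ Icc α β := ⟨hs0.1.trans hs.1, hs.2⟩
        obtain ⟨i1, i2, i3⟩ := hin s hs'
        refine ⟨i1, hs0p s hs, ?_, ?_⟩
        · have := le_abs_self (X (γ s))
          simp only [Function.iterate_zero, id_eq]
          linarith
        · simpa using i3
      · simp only [pow_zero, one_mul, Function.iterate_zero, id_eq]
        exact (min_le_right _ _).trans h1
      · simpa using hs00
    | succ k ih =>
      obtain ⟨b, hb, hQ, hmin, hz0⟩ := ih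
      have hst : ∀ s ∈ Icc s0 b, g (g^[k] (γ s)) ∈ N ∧
          l * X (g^[k] (γ s)) ≤ X (g (g^[k] (γ s))) ∧
          X (g (g^[k] (γ s))) ≤ L * X (g^[k] (γ s)) ∧
          |Y (g (g^[k] (γ s)))| ≤ r / l ^ (k + 1) := by
        intro s hs
        obtain ⟨q1, q2, q3, q4⟩ := hQ s hs k le_rfl
        exact step_Pass hB hbp q1 q2 q3 q4
      have hs0b : s0 ∈ Icc s0 b := left_mem_Icc.2 hb.1
      have hz0' : X (g^[k + 1] (γ s0)) = 0 := by
        obtain ⟨_, e1, e2, _⟩ := hst s0 hs0b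
        rw [hz0, mul_zero] at e1 e2
        rw [Function.iterate_succ_apply']
        exact le_antisymm e2 e1
      have hc := hcontj (k + 1) b hb.2 (fun s hs => by
        rw [Function.iterate_succ_apply']; exact (hst s hs).1)
      obtain ⟨b', hb', hle, hor⟩ := cap_Pass (v := bp) hb.1 hc (by
        show X (g^[k + 1] (γ s0)) ≤ bp
        rw [hz0']; linarith)
      refine ⟨b', ⟨hb'.1, hb'.2.trans hb.2⟩, ?_, ?_, hz0'⟩
      · intro s hs j hj
        have hs' : s ∈ Icc s0 b := ⟨hs.1, hs.2.trans hb'.2⟩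
        rcases Nat.lt_or_ge j (k + 1) with hj' | hj'
        · exact hQ s hs' j (by omega)
        · have hjk : j = k + 1 := by omega
          subst hjk
          obtain ⟨e0, e1, e2, e3⟩ := hst s hs'
          have q2 := (hQ s hs' k le_rfl).2.1
          have hle' := hle s hs
          simp only [Function.iterate_succ_apply'] at hle' ⊢
          refine ⟨e0, ?_, hle', e3⟩
          exact le_trans (by positivity) e1
      · rcases hor with h | h
        · rw [h]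
          obtain ⟨_, e1, _, _⟩ := hst b (right_mem_Icc.2 hb.1)
          rw [Function.iterate_succ_apply']
          refine le_trans ?_ e1
          rcases le_total bp (l ^ k * ρ) with h2 | h2
          · rw [min_eq_left h2] at hmin
            refine (min_le_left _ _).trans ?_
            nlinarith [hB.hl]
          · rw [min_eq_right h2] at hmin
            refine (min_le_right _ _).trans ?_
            rw [pow_succ]
            nlinarith [hB.hl]
        · rw [show X (g^[k + 1] (γ b')) = bp from h]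
          exact min_le_left _ _
  obtain ⟨b, hb, hQ, hmin, hz0⟩ := key n
  rw [min_eq_left hn] at hmin
  have hbeq : X (g^[n] (γ b)) = bp :=
    le_antisymm (hQ b (right_mem_Icc.2 hb.1) n le_rfl).2.2.1 hmin
  have hc := hcontj n b hb.2 (fun s hs => (hQ s hs n le_rfl).1)
  obtain ⟨a', ha', hau, hap⟩ := last_Pass (u := bm) hb.1 hc (by
      show X (g^[n] (γ s0)) ≤ bm
      rw [hz0]; linarith) (by
      show bm ≤ X (g^[n] (γ b))
      rw [hbeq]; linarith)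
  refine ⟨a', b, hs0.1.trans ha'.1, ha'.2, hb.2, ?_, hau, hbeq⟩
  intro s hs
  exact ⟨hQ s ⟨ha'.1.trans hs.1, hs.2⟩, hap s hs⟩

theorem hPass : StPass := by
  intro g U S N X Y r l L t0 hg hB bm bp ρ hbm hbb hbp hρ
  have hl0 : 0 < l := lt_trans zero_lt_one hB.hl
  obtain ⟨n0, hn0⟩ := pow_unbounded_of_one_lt (bp / ρ) hB.hl
  refine ⟨n0 + 1, by omega, ?_⟩
  intro n hn γ α β hαβ hγ hin hor
  have hnn : bp ≤ l ^ n * ρ := by
    have h1 : l ^ n0 ≤ l ^ n := pow_le_pow_right₀ hB.hl.le (by omega)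
    have h2 : bp / ρ ≤ l ^ n := hn0.le.trans h1
    rwa [div_le_iff₀ hρ] at h2
  rcases hor with ⟨h0, h1⟩ | ⟨h1, h0⟩
  · obtain ⟨a', b', i1, i2, i3, i4, i5, i6⟩ :=
      orient_Pass hg hB hbm hbb hbp hnn γ α β hαβ hγ hin h0 h1 hρ
    exact ⟨a', b', i1, i2, i3, i4, Or.inl ⟨i5, i6⟩⟩
  · have hmaps : ∀ s ∈ Icc α β, α + β - s ∈ Icc α β := by
      intro s hs
      exact ⟨by linarith [hs.2], by linarith [hs.1]⟩
    have hγ' : ContinuousOn (fun s => γ (α + β - s)) (Icc α β) :=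
      hγ.comp (by fun_prop) hmaps
    obtain ⟨a', b', i1, i2, i3, i4, i5, i6⟩ :=
      orient_Pass hg hB hbm hbb hbp hnn (fun s => γ (α + β - s)) α β hαβ hγ'
        (fun s hs => hin _ (hmaps s hs)) (by simpa using h0) (by simpa using h1) hρ
    refine ⟨α + β - b', α + β - a', by linarith, by linarith, by linarith, ?_, Or.inr ⟨i6, i5⟩⟩
    intro s hs
    have := i4 (α + β - s) ⟨by linarith [hs.2], by linarith [hs.1]⟩
    simpa using this

end Helper83.PF
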