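import Pool.Agent.Helper83.PF.St

set_option autoImplicit false

open Set Filter Topology

namespace Helper83.PF

private lemma bd_Phi {a : ℕ → ℝ} (h : ∀ R : ℝ, 0 < R → ∃ C : ℝ, ∀ n, |a n| * R ^ n ≤ C)
    (r : ℝ) (hr : 0 ≤ r) : ∃ C : ℝ, ∀ (n : ℕ) (t : ℂ), ‖t‖ ≤ r →
      ‖(a n : ℂ) * t ^ n‖ ≤ C * (1 / 2) ^ n := by
  obtain ⟨C, hC⟩ := h (2 * (r + 1)) (by positivity)
  refine ⟨C, fun n t ht => ?_⟩
  rw [norm_mul, norm_pow, Complex.norm_real, Real.norm_eq_abs]
  have h1 : ‖t‖ ^ n ≤ (2 * (r + 1)) ^ n * (1 / 2) ^ n := by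
    rw [← mul_pow]
    apply pow_le_pow_left₀ (norm_nonneg t)
    linarith
  calc |a n| * ‖t‖ ^ n ≤ |a n| * ((2 * (r + 1)) ^ n * (1 / 2) ^ n) :=
        mul_le_mul_of_nonneg_left h1 (abs_nonneg _)
    _ = (|a n| * (2 * (r + 1)) ^ n) * (1 / 2) ^ n := by ring
    _ ≤ C * (1 / 2) ^ n := mul_le_mul_of_nonneg_right (hC n) (by positivity)

private lemma geo_Phi (C : ℝ) : Summable (fun n : ℕ => C * (1 / 2 : ℝ) ^ n) :=
  (summable_geometric_of_lt_one (by norm_num) (by norm_num)).mul_left C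

private lemma summ_Phi {a : ℕ → ℝ} (h : ∀ R : ℝ, 0 < R → ∃ C : ℝ, ∀ n, |a n| * R ^ n ≤ C)
    (t : ℂ) : Summable (fun n : ℕ => ‖(a n : ℂ) * t ^ n‖) := by
  obtain ⟨C, hC⟩ := bd_Phi h ‖t‖ (norm_nonneg t)
  exact Summable.of_nonneg_of_le (fun n => norm_nonneg _) (fun n => hC n t le_rfl) (geo_Phi C)

theorem hPhi (h1 : StCoef) : StPhi := by
  intro lam hl
  obtain ⟨a, ha0, ha1, hrec, hbd⟩ := h1 lam hl
  have hl0 : lam ≠ 0 := abs_pos.mp (by linarith)
  have hlc : (lam : ℂ) ≠ 0 := by exact_mod_cast hl0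
  have hs : ∀ t : ℂ, Summable (fun n : ℕ => ‖(a n : ℂ) * t ^ n‖) := summ_Phi hbd
  let φ : ℂ → ℂ := fun t => ∑' n : ℕ, (a n : ℂ) * t ^ n
  refine ⟨φ, ?_, ?_, ?_, ?_, ?_⟩
  · intro z
    obtain ⟨C, hC⟩ := bd_Phi hbd (‖z‖ + 1) (by positivity)
    have hD : DifferentiableOn ℂ φ (Metric.ball 0 (‖z‖ + 1)) :=
      Complex.differentiableOn_tsum_of_summable_norm (geo_Phi C)
        (fun n => (((differentiable_id.pow n).const_mul (a n : ℂ)).differentiableOn))
        Metric.isOpen_ball (fun n w hw => hC n w (by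
          have := Metric.mem_ball.mp hw
          rw [dist_zero_right] at this
          exact this.le))
    exact hD.differentiableAt (Metric.isOpen_ball.mem_nhds (by simp))
  · show ∑' n : ℕ, (a n : ℂ) * (0 : ℂ) ^ n = (qq lam : ℂ)
    rw [tsum_eq_single 0]
    · rw [pow_zero, mul_one, ha0]
    · intro n hn
      rw [zero_pow hn, mul_zero]
  · obtain ⟨C, hC⟩ := bd_Phi hbd 1 zero_le_one
    have hS : HasSum (fun n : ℕ => deriv (fun w : ℂ => (a n : ℂ) * w ^ n) 0) (deriv φ 0) :=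
      Complex.hasSum_deriv_of_summable_norm (u := fun n => C * (1 / 2 : ℝ) ^ n)
        (F := fun n w => (a n : ℂ) * w ^ n) (U := Metric.ball 0 1) (geo_Phi C)
        (fun n => (((differentiable_id.pow n).const_mul (a n : ℂ)).differentiableOn))
        Metric.isOpen_ball (fun n w hw => hC n w (by
          have := Metric.mem_ball.mp hw
          rw [dist_zero_right] at this
          exact this.le)) (by simp)
    have hd : ∀ n : ℕ, deriv (fun w : ℂ => (a n : ℂ) * w ^ n) 0 =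
        if n = 1 then (a 1 : ℂ) else 0 := by
      intro n
      have : HasDerivAt (fun w : ℂ => (a n : ℂ) * w ^ n) ((a n : ℂ) * ((n : ℂ) * 0 ^ (n - 1))) 0 := by
        simpa using (hasDerivAt_pow n (0 : ℂ)).const_mul (a n : ℂ)
      rw [this.deriv]
      rcases n with _ | _ | n
      · simp
      · simp
      · simp
    have hS2 : HasSum (fun n : ℕ => if n = 1 then (a 1 : ℂ) else 0) (a 1 : ℂ) :=
      hasSum_ite_eq 1 (a 1 : ℂ)
    simp only [hd] at hS
    rw [hS.unique hS2, ha1]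
    push_cast
    ring
  · intro t
    have e1 : φ ((lam : ℂ) * t) = ∑' n : ℕ, ((a n : ℂ) * (lam : ℂ) ^ n) * t ^ n :=
      tsum_congr fun n => by rw [mul_pow]; ring
    have e2 : φ (t / (lam : ℂ)) = ∑' n : ℕ, ((a n : ℂ) * ((lam : ℂ)⁻¹) ^ n) * t ^ n :=
      tsum_congr fun n => by rw [div_eq_mul_inv, mul_pow]; ring
    have e3 : φ t ^ 2 = ∑' n : ℕ, (∑ kl ∈ Finset.HasAntidiagonal.antidiagonal n, (a kl.1 : ℂ) * (a kl.2 : ℂ)) * t ^ n := by
      have := tsum_mul_tsum_eq_tsum_sum_antidiagonal_of_summable_norm (hs t) (hs t)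
      rw [pow_two]
      show (∑' n : ℕ, (a n : ℂ) * t ^ n) * (∑' n : ℕ, (a n : ℂ) * t ^ n) = _
      rw [this]
      refine tsum_congr fun n => ?_
      rw [Finset.sum_mul]
      refine Finset.sum_congr rfl fun kl hkl => ?_
      have hkl' := Finset.HasAntidiagonal.mem_antidiagonal.mp hkl
      rw [← hkl', pow_add]
      ring
    have e4 : (qq lam : ℂ) ^ 2 = ∑' n : ℕ, (if n = 0 then (qq lam : ℂ) ^ 2 else 0) * t ^ n := by
      rw [tsum_eq_single 0]
      · simp
      · intro n hn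
        rw [if_neg hn, zero_mul]
    have s1 : Summable (fun n : ℕ => ((a n : ℂ) * (lam : ℂ) ^ n) * t ^ n) := by
      refine (hs ((lam : ℂ) * t)).of_norm.congr fun n => ?_
      rw [mul_pow]
      ring
    have s2 : Summable (fun n : ℕ => ((a n : ℂ) * ((lam : ℂ)⁻¹) ^ n) * t ^ n) := by
      refine (hs (t / (lam : ℂ))).of_norm.congr fun n => ?_
      rw [div_eq_mul_inv, mul_pow]
      ring
    have s4 : Summable (fun n : ℕ => (if n = 0 then (qq lam : ℂ) ^ 2 else 0) * t ^ n) := by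
      apply summable_of_ne_finset_zero (s := {0})
      intro n hn
      rw [if_neg (by simpa using hn), zero_mul]
    have hcoef : ∀ n : ℕ, (a n : ℂ) * (lam : ℂ) ^ n - (a n : ℂ) * ((lam : ℂ)⁻¹) ^ n +
        (if n = 0 then (qq lam : ℂ) ^ 2 else 0) =
        ∑ kl ∈ Finset.HasAntidiagonal.antidiagonal n, (a kl.1 : ℂ) * (a kl.2 : ℂ) := by
      intro n
      rcases n with _ | _ | n
      · rw [if_pos rfl]
        have h00 : Finset.HasAntidiagonal.antidiagonal 0 = {((0 : ℕ), (0 : ℕ))} := by decide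
        rw [h00, Finset.sum_singleton]
        show _ = (a 0 : ℂ) * (a 0 : ℂ)
        rw [pow_zero, pow_zero, ha0]
        ring
      · rw [if_neg (by norm_num)]
        have : Finset.HasAntidiagonal.antidiagonal 1 = {((0 : ℕ), (1 : ℕ)), ((1 : ℕ), (0 : ℕ))} := by decide
        rw [zero_add, this, Finset.sum_pair (by decide)]
        show _ = (a 0 : ℂ) * (a 1 : ℂ) + (a 1 : ℂ) * (a 0 : ℂ)
        rw [ha0, qq]
        push_cast
        ring
      · rw [if_neg (by omega), Finset.Nat.sum_antidiagonal_eq_sum_range_succ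
          (fun i j => (a i : ℂ) * (a j : ℂ)) (n + 1 + 1), Finset.sum_range_succ,
          Finset.sum_range_succ']
        have h := hrec (n + 1 + 1) (by omega)
        have h5 : ∑ i ∈ Finset.Icc 1 (n + 1 + 1 - 1), a i * a (n + 1 + 1 - i) =
            ∑ k ∈ Finset.range (n + 1), a (k + 1) * a (n + 1 + 1 - (k + 1)) := by
          have : Finset.Icc 1 (n + 1 + 1 - 1) = Finset.Ico 1 (n + 1 + 1) := by
            ext x
            simp only [Finset.mem_Icc, Finset.mem_Ico]
            omega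
          rw [this, Finset.sum_Ico_eq_sum_range]
          refine Finset.sum_congr rfl fun k _ => ?_
          rw [add_comm 1 k]
        rw [h5] at h
        have h6 : (((lam ^ (n + 1 + 1) - (lam⁻¹) ^ (n + 1 + 1) - 2 * qq lam) * a (n + 1 + 1) : ℝ) : ℂ) =
            ((∑ k ∈ Finset.range (n + 1), a (k + 1) * a (n + 1 + 1 - (k + 1)) : ℝ) : ℂ) :=
          congrArg _ h
        push_cast at h6
        have h7 : ∑ k ∈ Finset.range (n + 1), (a (k + 1) : ℂ) * (a (n + 1 + 1 - (k + 1)) : ℂ) =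
            ∑ k ∈ Finset.range (n + 1), (a (k + 1) : ℂ) * (a (n + 1 - k) : ℂ) :=
          Finset.sum_congr rfl fun k _ => by
            rw [show n + 1 + 1 - (k + 1) = n + 1 - k from by omega]
        rw [h7, ← h6, Nat.sub_zero, Nat.sub_self, ha0]
        ring
    have s3 : Summable (fun n : ℕ =>
        (∑ kl ∈ Finset.HasAntidiagonal.antidiagonal n, (a kl.1 : ℂ) * (a kl.2 : ℂ)) * t ^ n) := by
      refine ((s1.sub s2).add s4).congr fun n => ?_
      rw [← hcoef n]
      ring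
    rw [e1, e2, e3, e4, ← s3.tsum_sub s4, ← (s3.sub s4).tsum_add s2]
    refine tsum_congr fun n => ?_
    rw [← hcoef n]
    ring
  · intro t
    have : φ (t : ℂ) = ((∑' n : ℕ, a n * t ^ n : ℝ) : ℂ) := by
      show ∑' n : ℕ, (a n : ℂ) * (t : ℂ) ^ n = _
      rw [Complex.ofReal_tsum]
      refine tsum_congr fun n => ?_
      push_cast
      ring
    rw [this]
    exact Complex.ofReal_im _

end Helper83.PF
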