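import Pool.Agent.Helper83.PF.St

/-!
# MP_b39980_an, project PF: module Q (the crossing transported near the saddles)
-/

set_option autoImplicit false

open Set Filter Topology
open Helper85.HN (hen Orb Bd KK E0)
open Helper83.PE (vv Wu win Cross Covs)

noncomputable section

namespace Helper83.PF

private theorem eq_Q {κ : ℝ} {φ : ℂ → ℂ} (h : UP κ φ) (t : ℝ) :
    vv φ (κ * t) = vv φ t ^ 2 - (qq κ) ^ 2 + vv φ (t / κ) := by
  obtain ⟨_, _, _, he, hr⟩ := h
  have h1 := congrArg Complex.re (he (t : ℂ))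
  have h2 : φ (t : ℂ) = ((vv φ t : ℝ) : ℂ) := by
    apply Complex.ext
    · rfl
    · rw [hr t, Complex.ofReal_im]
  rw [h2] at h1
  have h3 : vv φ (κ * t) = (φ ((κ : ℂ) * (t : ℂ))).re := by
    unfold vv; push_cast; rfl
  have h4 : vv φ (t / κ) = (φ ((t : ℂ) / (κ : ℂ))).re := by
    unfold vv; push_cast; rfl
  rw [h3, h4]
  rw [Complex.add_re, Complex.sub_re, ← Complex.ofReal_pow, Complex.ofReal_re,
    ← Complex.ofReal_pow, Complex.ofReal_re] at h1
  exact h1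

private theorem FFWu_Q {κ : ℝ} {φ : ℂ → ℂ} (hl0 : κ ≠ 0) (h : UP κ φ) (t : ℝ) :
    FF κ (Wu κ φ t) = Wu κ φ (κ * t) := by
  have h1 := eq_Q h t
  unfold FF hen Wu
  refine Prod.ext ?_ ?_
  · simp only []; linarith
  · simp only []
    rw [mul_div_cancel_left₀ t hl0]

private theorem FFWr_Q {κ : ℝ} {φ : ℂ → ℂ} (hl0 : κ ≠ 0) (h : UP κ φ) (t : ℝ) :
    FF κ (Wr κ φ t) = Wr κ φ (t / κ) := by
  have h1 := eq_Q h (t / κ)
  rw [mul_div_cancel₀ t hl0] at h1
  unfold FF hen Wr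
  refine Prod.ext ?_ rfl
  simp only []; nlinarith [h1]

private theorem itWu_Q {κ : ℝ} {φ : ℂ → ℂ} (hl0 : κ ≠ 0) (h : UP κ φ) (k : ℕ) (t : ℝ) :
    (FF κ)^[k] (Wu κ φ t) = Wu κ φ (κ ^ k * t) := by
  induction k with
  | zero => simp
  | succ k ih =>
    rw [Function.iterate_succ_apply', ih, FFWu_Q hl0 h, pow_succ]
    congr 1
    ring

private theorem itWr_Q {κ : ℝ} {φ : ℂ → ℂ} (hl0 : κ ≠ 0) (h : UP κ φ) (k : ℕ) (t : ℝ) :
    (FF κ)^[k] (Wr κ φ t) = Wr κ φ (t / κ ^ k) := by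
  induction k with
  | zero => simp
  | succ k ih =>
    rw [Function.iterate_succ_apply', ih, FFWr_Q hl0 h, pow_succ]
    congr 1
    rw [div_div]

/-- the inverse map -/
private def fi_Q (κ : ℝ) (z : ℝ × ℝ) : ℝ × ℝ := (z.2, z.1 - z.2 ^ 2 + (qq κ) ^ 2)

private theorem left_Q (κ : ℝ) : Function.LeftInverse (fi_Q κ) (FF κ) := by
  rintro ⟨x, y⟩
  simp only [fi_Q, FF, hen]
  refine Prod.ext rfl ?_
  simp only []
  ring

private theorem right_Q (κ : ℝ) : Function.RightInverse (fi_Q κ) (FF κ) := by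
  rintro ⟨x, y⟩
  simp only [fi_Q, FF, hen]
  refine Prod.ext ?_ rfl
  simp only []
  ring

private theorem cdf_Q (κ : ℝ) : ContDiff ℝ 1 (FF κ) := by
  unfold FF hen
  fun_prop

private theorem cdi_Q (κ : ℝ) : ContDiff ℝ 1 (fi_Q κ) := by
  unfold fi_Q
  fun_prop

private theorem cdit_Q {f : ℝ × ℝ → ℝ × ℝ} (h : ContDiff ℝ 1 f) (k : ℕ) : ContDiff ℝ 1 (f^[k]) := by
  induction k with
  | zero => exact contDiff_id
  | succ k ih => rw [Function.iterate_succ']; exact h.comp ih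

private theorem g2it_Q (κ : ℝ) (m : ℕ) (z : ℝ × ℝ) : (g2 κ)^[m] z = (FF κ)^[m + m] z := by
  have h : g2 κ = (FF κ)^[2] := rfl
  rw [h, ← Function.iterate_mul, two_mul]

private theorem exM_Q {κ tq u : ℝ} (hk : 1 < |κ|) (ht : tq ≠ 0) (hp : 0 < κ → 0 < tq) (hu : 0 < u) :
    ∃ M : ℕ, 0 < tq / κ ^ M ∧ tq / κ ^ M < u := by
  obtain ⟨M, hM⟩ := pow_unbounded_of_one_lt (|tq| / u) hk
  have hk0 : κ ≠ 0 := by
    rintro rfl
    simp at hk
    linarith
  have hbig : ∀ K : ℕ, M ≤ K → |tq / κ ^ K| < u := by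
    intro K hK
    have h1 : |κ| ^ M ≤ |κ| ^ K := pow_le_pow_right₀ hk.le hK
    have h2 : 0 < |κ| ^ K := by positivity
    rw [abs_div, abs_pow, div_lt_iff₀ h2]
    rw [div_lt_iff₀ hu] at hM
    calc |tq| < |κ| ^ M * u := hM
      _ ≤ |κ| ^ K * u := mul_le_mul_of_nonneg_right h1 hu.le
      _ = u * |κ| ^ K := mul_comm _ _
  have hev : 0 < κ ^ (2 * M) := by
    rw [pow_mul]
    positivity
  rcases lt_or_gt_of_ne ht with h | h
  · have hk1 : κ < 0 := by
      rcases lt_or_gt_of_ne hk0 with h' | h'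
      · exact h'
      · exact absurd (hp h') (by linarith)
    have hneg : κ ^ (2 * M + 1) < 0 := by
      rw [pow_succ]
      exact mul_neg_of_pos_of_neg hev hk1
    refine ⟨2 * M + 1, div_pos_of_neg_of_neg h hneg, ?_⟩
    exact lt_of_le_of_lt (le_abs_self _) (hbig _ (by omega))
  · refine ⟨2 * M, div_pos h hev, ?_⟩
    exact lt_of_le_of_lt (le_abs_self _) (hbig _ (by omega))

theorem hQ : StQ := by
  intro κ φ ψ tq hk hU _ htq hpos hZ hCx N X Y r l L t0 N' X' Y' r' l' L' t0' hB hB'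
  have hk0 : κ ≠ 0 := by
    rintro rfl
    simp at hk
    linarith
  obtain ⟨M, hA0, hAm⟩ := exM_Q hk htq hpos (lt_min hB.ht hB'.ht)
  have hp : κ ^ M ≠ 0 := pow_ne_zero _ hk0
  set tA : ℝ := tq / κ ^ M with htA
  have hA1 : tA < t0 := lt_of_lt_of_le hAm (min_le_left _ _)
  have hA1' : tA < t0' := lt_of_lt_of_le hAm (min_le_right _ _)
  have hsc : κ ^ M * tA = tq := by
    rw [htA]; field_simp
  have hq : Wu κ φ tq = Wr κ φ tq := by
    unfold Zs at hZ
    unfold Wu Wr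
    refine Prod.ext ?_ ?_
    · simp only []; linarith
    · simp only []; linarith
  have hGA : (FF κ)^[M] (Wu κ φ tq) = Wr κ φ tA := by
    rw [hq, itWr_Q hk0 hU]
  have hwsA := hB'.ws tA ⟨by linarith [hB'.ht], hA1'.le⟩
  have hm : (g2 κ)^[M] (Wu κ φ tA) = Wr κ φ tA := by
    rw [g2it_Q, Function.iterate_add_apply, itWu_Q hk0 hU, hsc, hGA]
  -- the function `Lf`
  let Lf : ℝ × ℝ → ℝ := fun z => X' ((FF κ)^[M] z)
  have hXat : ContDiffAt ℝ 1 X' (Wr κ φ tA) := hB'.cX.contDiffAt (hB'.opn.mem_nhds hwsA.1)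
  have hLf : ContDiffAt ℝ 1 Lf (Wu κ φ tq) := by
    refine ContDiffAt.comp (Wu κ φ tq) ?_ (cdit_Q (cdf_Q κ) M).contDiffAt
    rw [hGA]
    exact hXat
  have hinv : (fi_Q κ)^[M] (Wr κ φ tA) = Wu κ φ tq := by
    rw [← hGA]
    exact (left_Q κ).iterate M _
  have hne : fderiv ℝ Lf (Wu κ φ tq) ≠ 0 := by
    intro h0
    apply hB'.grd tA ⟨by linarith [hB'.ht], hA1'.le⟩
    have hX : X' = Lf ∘ (fi_Q κ)^[M] := by
      funext z
      have := (right_Q κ).iterate M z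
      change X' z = X' ((FF κ)^[M] ((fi_Q κ)^[M] z))
      rw [this]
    have hd : DifferentiableAt ℝ Lf ((fi_Q κ)^[M] (Wr κ φ tA)) := by
      rw [hinv]
      exact hLf.differentiableAt one_ne_zero
    have hd' : DifferentiableAt ℝ ((fi_Q κ)^[M]) (Wr κ φ tA) :=
      ((cdit_Q (cdi_Q κ) M).contDiffAt).differentiableAt one_ne_zero
    rw [hX, fderiv_comp _ hd hd', hinv, h0, ContinuousLinearMap.zero_comp]
  have hev : ∀ᶠ t in 𝓝 tq, Lf (Wr κ φ t) = 0 := by
    have hc : Tendsto (fun t : ℝ => t / κ ^ M) (𝓝 tq) (𝓝 tA) :=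
      (continuous_id.div_const (κ ^ M)).tendsto tq
    filter_upwards [hc (Ioo_mem_nhds hA0 hA1')] with t ht
    change X' ((FF κ)^[M] (Wr κ φ t)) = 0
    rw [itWr_Q hk0 hU]
    exact (hB'.ws _ ⟨by linarith [ht.1, hB'.ht], ht.2.le⟩).2.1
  obtain ⟨d, hd, hs⟩ := hCx Lf hLf hne hev
  have key : ∀ t : ℝ, X' ((g2 κ)^[M] (Wu κ φ t)) = Lf (Wu κ φ (κ ^ M * t)) := by
    intro t
    rw [g2it_Q, Function.iterate_add_apply, itWu_Q hk0 hU]
  refine ⟨tA, M, hA0, hA1, ?_, ?_, ?_, d / |κ ^ M|, div_pos hd (abs_pos.2 hp), ?_⟩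
  · rw [hm]; exact hwsA.1
  · rw [hm]; exact hwsA.2.1
  · rw [hm]; exact hwsA.2.2
  · intro t ht t' ht'
    rw [key, key]
    rcases lt_or_gt_of_ne hp with hn | hn
    · have e1 : κ ^ M * (d / |κ ^ M|) = -d := by
        rw [abs_of_neg hn]; field_simp
      rw [mul_comm]
      refine hs _ ⟨?_, ?_⟩ _ ⟨?_, ?_⟩
      · have := mul_lt_mul_of_neg_left ht'.2 hn
        rw [mul_add, hsc, e1] at this
        linarith
      · have := mul_lt_mul_of_neg_left ht'.1 hn
        rw [hsc] at this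
        exact this
      · have := mul_lt_mul_of_neg_left ht.2 hn
        rw [hsc] at this
        exact this
      · have := mul_lt_mul_of_neg_left ht.1 hn
        rw [mul_sub, hsc, e1] at this
        linarith
    · have e1 : κ ^ M * (d / |κ ^ M|) = d := by
        rw [abs_of_pos hn]; field_simp
      refine hs _ ⟨?_, ?_⟩ _ ⟨?_, ?_⟩
      · have := mul_lt_mul_of_pos_left ht.1 hn
        rw [mul_sub, hsc, e1] at this
        exact this
      · have := mul_lt_mul_of_pos_left ht.2 hn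
        rw [hsc] at this
        exact this
      · have := mul_lt_mul_of_pos_left ht'.1 hn
        rw [hsc] at this
        exact this
      · have := mul_lt_mul_of_pos_left ht'.2 hn
        rw [mul_add, hsc, e1] at this
        exact this

end Helper83.PF

end
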