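import Pool.Agent.Helper83.PF.St

/-!
# MP_b39980_an, project PF: module Rect (a thin window around a piece of the unstable manifold, target box arbitrary)
-/

set_option autoImplicit false

open Set Filter Topology
open Helper85.HN (hen Orb Bd KK E0)
open Helper83.PE (vv Wu win Cross Covs)

namespace Helper83.PF

/-- Compactness: near the zero set of `Y` in a compact set we are in the open set. -/
private lemma compact_Rect (K V : Set (ℝ × ℝ)) (Y : ℝ × ℝ → ℝ) (r : ℝ) (hr : 0 < r)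
    (hK : IsCompact K) (hY : ContinuousOn Y K) (hV : IsOpen V) (h0 : ∀ z ∈ K, Y z = 0 → z ∈ V) :
    ∃ ε, 0 < ε ∧ ε ≤ r ∧ ∀ z ∈ K, |Y z| ≤ ε → z ∈ V := by
  have hKV : IsCompact (K \ V) := hK.diff hV
  by_cases hne : (K \ V).Nonempty
  · obtain ⟨z0, hz0, hmin⟩ := hKV.exists_isMinOn hne
      (f := fun z => |Y z|) ((hY.mono sdiff_subset).abs)
    have hpos : 0 < |Y z0| := by
      rw [abs_pos]
      intro h
      exact hz0.2 (h0 z0 hz0.1 h)
    refine ⟨min r (|Y z0| / 2), by positivity, min_le_left _ _, ?_⟩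
    intro z hz hzε
    by_contra hzV
    have h1 : |Y z0| ≤ |Y z| := hmin ⟨hz, hzV⟩
    have h2 : |Y z| ≤ |Y z0| / 2 := hzε.trans (min_le_right _ _)
    linarith only [h1, h2, hpos]
  · refine ⟨r, hr, le_refl _, ?_⟩
    intro z hz _
    by_contra hzV
    exact hne ⟨z, hz, hzV⟩

private lemma piece_Rect (g : ℝ × ℝ → ℝ × ℝ) (U S : ℝ → ℝ × ℝ) (N : Set (ℝ × ℝ)) (X Y : ℝ × ℝ → ℝ)
    (r l L t0 : ℝ) (hB : Bx g U S N X Y r l L t0) (t1 t2 : ℝ) (h1 : 0 ≤ t1) (h12 : t1 ≤ t2)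
    (h2 : t2 ≤ t0) (V : Set (ℝ × ℝ)) (hV : IsOpen V) (hW : ∀ t ∈ Icc t1 t2, U t ∈ V) :
    ∃ ε, 0 < ε ∧ ε ≤ r ∧ ∀ z ∈ N, X (U t1) ≤ X z → X z ≤ X (U t2) → |Y z| ≤ ε →
      z ∈ V := by
  have hXc : ContinuousOn X N := hB.cX.continuousOn
  have ht0 : 0 < t0 := hB.ht
  have m1 : t1 ∈ Icc 0 t0 := ⟨h1, h12.trans h2⟩
  have m2 : t2 ∈ Icc 0 t0 := ⟨h1.trans h12, h2⟩
  have m00 : (0 : ℝ) ∈ Icc 0 t0 := ⟨le_refl _, ht0.le⟩
  have mt0 : t0 ∈ Icc 0 t0 := ⟨ht0.le, le_refl _⟩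
  have mono := hB.wuX.monotoneOn
  have ha1 : 0 ≤ X (U t1) := by
    have := mono m00 m1 h1
    simpa only [hB.wu0] using this
  have ha2 : X (U t2) ≤ X (U t0) := mono m2 mt0 h2
  have hL1 : 1 < L := lt_of_lt_of_le hB.hl hB.hL
  have ha2r : X (U t2) ≤ r := by
    refine ((hB.wu t2 m2).2.2).trans ?_
    rw [div_le_iff₀ (by linarith only [hL1])]
    nlinarith only [hL1, hB.hr]
  set K : Set (ℝ × ℝ) := {z | z ∈ N ∧ |X z| ≤ r ∧ |Y z| ≤ r} with hKdef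
  have hKN : K ⊆ N := fun z hz => hz.1
  have hKcl : IsClosed (K ∩ X ⁻¹' Icc (X (U t1)) (X (U t2))) :=
    (hXc.mono hKN).preimage_isClosed_of_isClosed hB.cpt.isClosed isClosed_Icc
  have hK' : IsCompact (K ∩ X ⁻¹' Icc (X (U t1)) (X (U t2))) :=
    hB.cpt.of_isClosed_subset hKcl inter_subset_left
  obtain ⟨ε, hε, hεr, h⟩ := compact_Rect _ V Y r hB.hr hK'
    (hB.cY.mono (inter_subset_left.trans hKN)) hV (by
      intro z hz hYz
      obtain ⟨t, ht, rfl⟩ := hB.wuc z hz.1.1 hYz (ha1.trans hz.2.1) (hz.2.2.trans ha2)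
      refine hW t ⟨?_, ?_⟩
      · exact (hB.wuX.le_iff_le m1 ht).mp hz.2.1
      · exact (hB.wuX.le_iff_le ht m2).mp hz.2.2)
  refine ⟨ε, hε, hεr, ?_⟩
  intro z hz hz1 hz2 hzY
  refine h z ⟨⟨hz, ?_, hzY.trans hεr⟩, hz1, hz2⟩ hzY
  rw [abs_of_nonneg (ha1.trans hz1)]
  exact hz2.trans ha2r

theorem hRect : StRect := by
  intro g U S N X Y r l L t0 N' X' Y' r' β t1 t2 m hg hB hN' hX' hY' ht1 ht2 hA
  have hGc : Continuous (g^[m]) := hg.iterate m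
  have ht12 : t1 < t2 := hA.lt
  have m1 : t1 ∈ Icc 0 t0 := ⟨ht1.le, (ht12.trans ht2).le⟩
  have m2 : t2 ∈ Icc 0 t0 := ⟨(ht1.trans ht12).le, ht2.le⟩
  -- the open set
  have hXo : IsOpen (N' ∩ X' ⁻¹' Ioo (-β) β) := hX'.isOpen_inter_preimage hN' isOpen_Ioo
  have hYo : IsOpen (N' ∩ Y' ⁻¹' Ioo (-r') r') := hY'.isOpen_inter_preimage hN' isOpen_Ioo
  obtain ⟨V, hV⟩ : ∃ V : Set (ℝ × ℝ), V = g^[m] ⁻¹' (N' ∩ X' ⁻¹' Ioo (-β) β) ∩
      g^[m] ⁻¹' (N' ∩ Y' ⁻¹' Ioo (-r') r') := ⟨_, rfl⟩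
  have hVopen : IsOpen V := by
    rw [hV]; exact (hXo.preimage hGc).inter (hYo.preimage hGc)
  have hP : ∀ t ∈ Icc t1 t2, U t ∈ V := by
    intro t ht
    have := hA.inn t ht
    rw [hV]
    exact ⟨⟨this.1, abs_lt.mp this.2.1⟩, ⟨this.1, abs_lt.mp this.2.2⟩⟩
  have hprod := hA.sg
  obtain ⟨u1, hu1⟩ : ∃ u1, u1 = X' (g^[m] (U t1)) := ⟨_, rfl⟩
  obtain ⟨u2, hu2⟩ : ∃ u2, u2 = X' (g^[m] (U t2)) := ⟨_, rfl⟩
  rw [← hu1, ← hu2] at hprod
  have hu1n : u1 ≠ 0 := fun h => by rw [h, zero_mul] at hprod; exact lt_irrefl _ hprod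
  have hu2n : u2 ≠ 0 := fun h => by rw [h, mul_zero] at hprod; exact lt_irrefl _ hprod
  have hG1 : g^[m] (U t1) ∈ N' := (hA.inn t1 ⟨le_refl _, ht12.le⟩).1
  have hG2 : g^[m] (U t2) ∈ N' := (hA.inn t2 ⟨ht12.le, le_refl _⟩).1
  obtain ⟨ρ, hρ⟩ : ∃ ρ, ρ = min |u1| |u2| / 2 := ⟨_, rfl⟩
  have hρ0 : 0 < ρ := by
    rw [hρ]
    have := abs_pos.mpr hu1n
    have := abs_pos.mpr hu2n
    positivity
  have hρ1 : ρ < |u1| := by
    rw [hρ]; have h := min_le_left |u1| |u2|; have := abs_pos.mpr hu1n; linarith only [h, this]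
  have hρ2 : ρ < |u2| := by
    rw [hρ]; have h := min_le_right |u1| |u2|; have := abs_pos.mpr hu2n; linarith only [h, this]
  -- the three epsilons
  obtain ⟨ε1, hε1, hε1r, H1⟩ := piece_Rect g U S N X Y r l L t0 hB t1 t2 m1.1 ht12.le m2.2 V hVopen hP
  have hneg : IsOpen (g^[m] ⁻¹' (N' ∩ X' ⁻¹' Iio (-ρ))) :=
    (hX'.isOpen_inter_preimage hN' isOpen_Iio).preimage hGc
  have hpos : IsOpen (g^[m] ⁻¹' (N' ∩ X' ⁻¹' Ioi ρ)) :=
    (hX'.isOpen_inter_preimage hN' isOpen_Ioi).preimage hGc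
  have hS : ∃ ε2, 0 < ε2 ∧ ((∀ z ∈ win N X Y (X (U t1)) (X (U t2)) ε2,
      (X z = X (U t1) → X' (g^[m] z) ≤ -ρ) ∧
      (X z = X (U t2) → ρ ≤ X' (g^[m] z))) ∨
      (∀ z ∈ win N X Y (X (U t1)) (X (U t2)) ε2,
      (X z = X (U t1) → ρ ≤ X' (g^[m] z)) ∧
      (X z = X (U t2) → X' (g^[m] z) ≤ -ρ))) := by
    rcases lt_or_gt_of_ne hu1n with h | h
    · -- u1 < 0 < u2
      have h2 : 0 < u2 := by
        by_contra h3
        have h3' := not_lt.mp h3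
        have := mul_nonneg_of_nonpos_of_nonpos h.le h3'
        linarith only [this, hprod]
      rw [abs_of_neg h] at hρ1
      rw [abs_of_pos h2] at hρ2
      obtain ⟨ε2, hε2, _, H2⟩ := piece_Rect g U S N X Y r l L t0 hB t1 t1 m1.1 (le_refl _) m1.2 _ hneg
        (fun t ht => by
          have : t = t1 := le_antisymm ht.2 ht.1
          rw [this]
          refine ⟨hG1, ?_⟩
          show X' _ < -ρ
          rw [← hu1]; linarith only [hρ1])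
      obtain ⟨ε3, hε3, _, H3⟩ := piece_Rect g U S N X Y r l L t0 hB t2 t2 m2.1 (le_refl _) m2.2 _ hpos
        (fun t ht => by
          have : t = t2 := le_antisymm ht.2 ht.1
          rw [this]
          refine ⟨hG2, ?_⟩
          show ρ < X' _
          rw [← hu2]; exact hρ2)
      refine ⟨min ε2 ε3, lt_min hε2 hε3, Or.inl ?_⟩
      rintro z ⟨hz, _, _, hz3⟩
      refine ⟨fun hx => ?_, fun hx => ?_⟩
      · exact (H2 z hz hx.ge hx.le (hz3.trans (min_le_left _ _))).2.le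
      · exact (H3 z hz hx.ge hx.le (hz3.trans (min_le_right _ _))).2.le
    · have h2 : u2 < 0 := by
        by_contra h3
        have h3' := not_lt.mp h3
        have := mul_nonneg h.le h3'
        linarith only [this, hprod]
      rw [abs_of_pos h] at hρ1
      rw [abs_of_neg h2] at hρ2
      obtain ⟨ε2, hε2, _, H2⟩ := piece_Rect g U S N X Y r l L t0 hB t1 t1 m1.1 (le_refl _) m1.2 _ hpos
        (fun t ht => by
          have : t = t1 := le_antisymm ht.2 ht.1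
          rw [this]
          refine ⟨hG1, ?_⟩
          show ρ < X' _
          rw [← hu1]; exact hρ1)
      obtain ⟨ε3, hε3, _, H3⟩ := piece_Rect g U S N X Y r l L t0 hB t2 t2 m2.1 (le_refl _) m2.2 _ hneg
        (fun t ht => by
          have : t = t2 := le_antisymm ht.2 ht.1
          rw [this]
          refine ⟨hG2, ?_⟩
          show X' _ < -ρ
          rw [← hu2]; linarith only [hρ2])
      refine ⟨min ε2 ε3, lt_min hε2 hε3, Or.inr ?_⟩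
      rintro z ⟨hz, _, _, hz3⟩
      refine ⟨fun hx => ?_, fun hx => ?_⟩
      · exact (H2 z hz hx.ge hx.le (hz3.trans (min_le_left _ _))).2.le
      · exact (H3 z hz hx.ge hx.le (hz3.trans (min_le_right _ _))).2.le
  obtain ⟨ε2, hε2, H2⟩ := hS
  refine ⟨min ε1 ε2, ρ, (min_le_left _ _).trans hε1r, ?_⟩
  have hwin : ∀ z, z ∈ win N X Y (X (U t1)) (X (U t2)) (min ε1 ε2) →
      z ∈ win N X Y (X (U t1)) (X (U t2)) ε2 := by
    rintro z ⟨a, b, c, d⟩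
    exact ⟨a, b, c, d.trans (min_le_right _ _)⟩
  refine ⟨lt_min hε1 hε2, hρ0, ?_, ?_⟩
  · rintro z ⟨hz, hz1, hz2, hz3⟩
    have hzV := H1 z hz hz1 hz2 (hz3.trans (min_le_left _ _))
    rw [hV] at hzV
    exact ⟨hzV.1.1, abs_lt.mpr hzV.1.2, abs_lt.mpr hzV.2.2⟩
  · rcases H2 with H | H
    · exact Or.inl (fun z hz => H z (hwin z hz))
    · exact Or.inr (fun z hz => H z (hwin z hz))

end Helper83.PF
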