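import Pool.Agent.Helper83.PF.St

/-!
# Project PF, module SeqM: the elementary recursion, alternating signs
-/

set_option autoImplicit false

open Set Filter Topology

noncomputable section

namespace Helper83.PF

/-- forward part: no solution with `x n + x (n-1) < 0` for all `n` and alternating differences -/
theorem core_SeqM (s : ℝ) (hs : 0 < s) (y : ℕ → ℝ) (hy : ∀ k, y (k + 2) = y (k + 1) ^ 2 - s ^ 2 + y k)
    (hσ : ∀ k, y (k + 1) + y k < 0) (h0 : (y 2 - y 1) * (y 1 - y 0) < 0) : False := by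
  obtain ⟨a, ha⟩ : ∃ a : ℕ → ℝ, ∀ k, a k = y (k + 1) - y k := ⟨_, fun _ => rfl⟩
  obtain ⟨S, hS⟩ : ∃ S : ℕ → ℝ, ∀ k, S k = y (k + 1) + y k := ⟨_, fun _ => rfl⟩
  have hSn : ∀ k, S k < 0 := fun k => by rw [hS]; exact hσ k
  have hSs : ∀ k, S (k + 1) = S k + y (k + 1) ^ 2 - s ^ 2 := by
    intro k
    rw [hS, hS, hy k]
    ring
  have h1 : ∀ k, a (k + 2) = a k + S (k + 1) * a (k + 1) := by
    intro k
    rw [ha, ha, ha, hS, hy (k + 1), hy k]
    ring
  have h2 : ∀ k, -S (k + 2) + -S k = (2 + a (k + 1)) * (-S (k + 1)) := by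
    intro k
    rw [ha, hS, hS, hS, hy (k + 1), hy k]
    ring
  -- alternating signs
  have hsg : ∀ k, a (k + 1) * a k < 0 := by
    intro k
    induction k with
    | zero =>
      rw [ha, ha]
      exact h0
    | succ k ih =>
      rw [h1 k]
      have h3 : S (k + 1) * a (k + 1) ^ 2 ≤ 0 :=
        mul_nonpos_of_nonpos_of_nonneg (hSn _).le (sq_nonneg _)
      nlinarith
  have habs : ∀ k, |a (k + 2)| = |a k| + |S (k + 1)| * |a (k + 1)| := by
    intro k
    have h3 := hsg k
    rw [h1 k, abs_of_neg (hSn (k + 1))]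
    rcases lt_trichotomy (a k) 0 with h | h | h
    · have h4 : 0 < a (k + 1) := by
        by_contra hc
        push Not at hc
        nlinarith
      have h5 : S (k + 1) * a (k + 1) < 0 := mul_neg_of_neg_of_pos (hSn _) h4
      rw [abs_of_neg h, abs_of_pos h4, abs_of_neg (by linarith)]
      ring
    · rw [h, mul_zero] at h3
      exact absurd h3 (lt_irrefl 0)
    · have h4 : a (k + 1) < 0 := by
        by_contra hc
        push Not at hc
        nlinarith
      have h5 : 0 < S (k + 1) * a (k + 1) := mul_pos_of_neg_of_neg (hSn _) h4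
      rw [abs_of_pos h, abs_of_neg h4, abs_of_pos (by linarith)]
      ring
  -- boundedness
  have hkey : ∀ u : ℝ, 2 + s ≤ u → s ^ 2 < u ^ 2 - 2 * u := by
    intro u hu
    nlinarith
  have hbd : ∀ k, |a (k + 1)| < 4 + 2 * s := by
    intro k
    rw [abs_lt]
    constructor
    · by_contra hc
      push Not at hc
      have e1 := ha (k + 1)
      have e2 := hS (k + 1)
      have e3 := hSs (k + 1)
      have e4 := hSn (k + 2)
      have e5 := hSn (k + 1)
      have e6 : k + 1 + 1 = k + 2 := rfl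
      rw [e6] at e1 e2 e3
      have hu : 2 + s ≤ -y (k + 2) := by linarith
      have := hkey _ hu
      nlinarith
    · by_contra hc
      push Not at hc
      have hak : a k < 0 := by
        have h3 := hsg k
        have h4 : 0 < a (k + 1) := by linarith
        by_contra hc2
        push Not at hc2
        nlinarith
      have e1 := ha (k + 1)
      have e1' := ha k
      have e2 := hS (k + 1)
      have e2' := hS k
      have e3 := hSs k
      have e4 := hSn (k + 1)
      have e5 := hSn k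
      have hu : 2 + s ≤ -y (k + 1) := by linarith
      have := hkey _ hu
      nlinarith
  -- lower bound
  set α : ℝ := min |a 0| |a 1| with hα
  have hα0 : 0 < α := by
    have h3 := hsg 0
    have h4 : a 1 ≠ 0 := by
      intro h
      rw [zero_add, h, zero_mul] at h3
      exact lt_irrefl 0 h3
    have h5 : a 0 ≠ 0 := by
      intro h
      rw [h, mul_zero] at h3
      exact lt_irrefl 0 h3
    exact lt_min (abs_pos.2 h5) (abs_pos.2 h4)
  have hlow : ∀ k, α ≤ |a k| ∧ α ≤ |a (k + 1)| := by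
    intro k
    induction k with
    | zero => exact ⟨min_le_left _ _, min_le_right _ _⟩
    | succ k ih =>
      refine ⟨ih.2, ?_⟩
      have h3 := habs k
      have h4 : 0 ≤ |S (k + 1)| * |a (k + 1)| := by positivity
      have h5 : k + 1 + 1 = k + 2 := rfl
      rw [h5]
      linarith [ih.1]
  -- the monotone quantity
  obtain ⟨B, hB⟩ : ∃ B : ℕ → ℝ, ∀ k, B k = |a (k + 1)| + |a k| := ⟨_, fun _ => rfl⟩
  have hBs : ∀ k, B (k + 1) - B k = |S (k + 1)| * |a (k + 1)| := by
    intro k
    rw [hB, hB]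
    have h3 := habs k
    have h5 : k + 1 + 1 = k + 2 := rfl
    rw [h5]
    linarith
  have hBm : Monotone B := by
    refine monotone_nat_of_le_succ fun k => ?_
    have h3 := hBs k
    have h4 : 0 ≤ |S (k + 1)| * |a (k + 1)| := by positivity
    linarith
  have hBb : BddAbove (range B) := by
    refine ⟨2 * (4 + 2 * s), ?_⟩
    rintro _ ⟨k, rfl⟩
    refine (hBm (Nat.le_succ k)).trans ?_
    rw [hB]
    have h3 := hbd k
    have h4 := hbd (k + 1)
    rw [Nat.succ_eq_add_one]
    linarith
  have hBt := tendsto_atTop_ciSup hBm hBb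
  have hBd : Tendsto (fun k => B (k + 1) - B k) atTop (𝓝 0) := by
    have h3 := ((tendsto_add_atTop_iff_nat 1).2 hBt).sub hBt
    rwa [sub_self] at h3
  have hS0' : Tendsto (fun k => S (k + 1)) atTop (𝓝 0) := by
    have h3 : Tendsto (fun k => (B (k + 1) - B k) / α) atTop (𝓝 0) := by
      have := hBd.div_const α
      rwa [zero_div] at this
    refine squeeze_zero_norm (fun k => ?_) h3
    rw [Real.norm_eq_abs, le_div_iff₀ hα0, hBs k]
    exact mul_le_mul_of_nonneg_left (hlow k).2 (abs_nonneg _)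
  have hS0 : Tendsto S atTop (𝓝 0) := (tendsto_add_atTop_iff_nat 1).1 hS0'
  have hy2' : Tendsto (fun k => y (k + 1) ^ 2) atTop (𝓝 (s ^ 2)) := by
    have h3 : Tendsto (fun k => S (k + 1) - S k + s ^ 2) atTop (𝓝 (0 - 0 + s ^ 2)) :=
      (hS0'.sub hS0).add_const _
    rw [sub_zero, zero_add] at h3
    refine h3.congr fun k => ?_
    rw [hSs k]
    ring
  have hy2 : Tendsto (fun k => y k ^ 2) atTop (𝓝 (s ^ 2)) :=
    (tendsto_add_atTop_iff_nat (f := fun k => y k ^ 2) 1).1 hy2'
  have ha2 : Tendsto (fun k => a k ^ 2) atTop (𝓝 ((2 * s) ^ 2)) := by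
    have h3 : Tendsto (fun k => 2 * y (k + 1) ^ 2 + 2 * y k ^ 2 - S k ^ 2) atTop
        (𝓝 (2 * s ^ 2 + 2 * s ^ 2 - 0 ^ 2)) :=
      ((hy2'.const_mul 2).add (hy2.const_mul 2)).sub (hS0.pow 2)
    have h4 : 2 * s ^ 2 + 2 * s ^ 2 - 0 ^ 2 = (2 * s) ^ 2 := by ring
    rw [h4] at h3
    refine h3.congr fun k => ?_
    rw [ha, hS]
    ring
  have haa : Tendsto (fun k => |a k|) atTop (𝓝 (2 * s)) := by
    have h3 := (Real.continuous_sqrt.tendsto _).comp ha2
    rw [Real.sqrt_sq (by positivity)] at h3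
    refine h3.congr fun k => ?_
    exact Real.sqrt_sq_eq_abs (a k)
  -- the final oscillation argument
  set ε : ℝ := min 1 (s ^ 2 / 2) with hε
  have hε0 : 0 < ε := lt_min one_pos (by positivity)
  have hε1 : ε ≤ 1 := min_le_left _ _
  have hε2 : ε ≤ s ^ 2 / 2 := min_le_right _ _
  obtain ⟨K, hK⟩ := (Metric.tendsto_atTop.1 haa) ε hε0
  have hK' : ∀ k, K ≤ k → 2 * s - ε < |a k| ∧ |a k| < 2 * s + ε := by
    intro k hk
    have h3 := hK k hk
    rw [Real.dist_eq, abs_lt] at h3
    constructor <;> linarith [h3.1, h3.2]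
  have hneg : ∀ k, 0 < a k → a (k + 1) < 0 := by
    intro k hk
    have h3 := hsg k
    by_contra hc
    push Not at hc
    nlinarith
  have hpos : ∀ k, a k < 0 → 0 < a (k + 1) := by
    intro k hk
    have h3 := hsg k
    by_contra hc
    push Not at hc
    nlinarith
  obtain ⟨p, hpK, hp⟩ : ∃ p, K ≤ p ∧ 0 < a p := by
    rcases lt_trichotomy (a K) 0 with h | h | h
    · exact ⟨K + 1, Nat.le_succ K, hpos K h⟩
    · have h3 := hsg K
      rw [h, mul_zero] at h3
      exact absurd h3 (lt_irrefl 0)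
    · exact ⟨K, le_rfl, h⟩
  have hpj : ∀ j : ℕ, 0 < a (p + 2 * j) := by
    intro j
    induction j with
    | zero => exact hp
    | succ j ih => exact hpos _ (hneg _ ih)
  have hstep : ∀ k, K ≤ k → 0 < a k → -S (k + 4) + -S k ≤ (2 - s ^ 2) * (-S (k + 2)) := by
    intro k hk hak
    have b1 := hneg k hak
    have b2 := hpos _ b1
    have b3 := hneg _ b2
    have c1 := (hK' (k + 1) (by omega)).1
    have c2 := (hK' (k + 2) (by omega)).2
    have c3 := (hK' (k + 3) (by omega)).1
    rw [abs_of_neg b1] at c1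
    rw [abs_of_pos b2] at c2
    rw [abs_of_neg b3] at c3
    have d1 := h2 k
    have d2 := h2 (k + 1)
    have d3 := h2 (k + 2)
    have e0 := hSn k
    have e1 := hSn (k + 1)
    have e2 := hSn (k + 2)
    have e3 := hSn (k + 3)
    have e4 := hSn (k + 4)
    simp only [Nat.add_assoc, Nat.reduceAdd] at d1 d2 d3 c1 c2 c3 b1 b2 b3
    set θ : ℝ := 2 - 2 * s + ε with hθ
    have f1 : -S (k + 2) + -S k ≤ θ * (-S (k + 1)) := by
      rw [d1]
      exact mul_le_mul_of_nonneg_right (by rw [hθ]; linarith) (by linarith)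
    have f3 : -S (k + 4) + -S (k + 2) ≤ θ * (-S (k + 3)) := by
      rw [d3]
      exact mul_le_mul_of_nonneg_right (by rw [hθ]; linarith) (by linarith)
    have hθ0 : 0 < θ := by
      by_contra hc
      push Not at hc
      have : θ * (-S (k + 1)) ≤ 0 := mul_nonpos_of_nonpos_of_nonneg hc (by linarith)
      linarith
    have f4 : θ * (-S (k + 3) + -S (k + 1)) ≤ θ * ((2 + 2 * s + ε) * (-S (k + 2))) := by
      rw [d2]
      refine mul_le_mul_of_nonneg_left ?_ hθ0.le
      exact mul_le_mul_of_nonneg_right (by linarith) (by linarith)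
    have f5 : θ * (2 + 2 * s + ε) ≤ 4 - s ^ 2 := by
      rw [hθ]
      nlinarith
    have f6 : θ * ((2 + 2 * s + ε) * (-S (k + 2))) ≤ (4 - s ^ 2) * (-S (k + 2)) := by
      rw [← mul_assoc]
      exact mul_le_mul_of_nonneg_right f5 (by linarith)
    linarith
  obtain ⟨τ, hτ⟩ : ∃ τ : ℕ → ℝ, ∀ j, τ j = -S (p + 2 * j) := ⟨_, fun _ => rfl⟩
  have hτ0 : Tendsto τ atTop (𝓝 0) := by
    have h3 : Tendsto (fun j : ℕ => p + 2 * j) atTop atTop :=
      tendsto_atTop_mono (fun j => by rw [id]; omega) tendsto_id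
    have h4 := (hS0.comp h3).neg
    rw [neg_zero] at h4
    refine h4.congr fun j => ?_
    rw [hτ]
    rfl
  have hτp : ∀ j, 0 < τ j := fun j => by rw [hτ]; linarith [hSn (p + 2 * j)]
  obtain ⟨δ, hδ⟩ : ∃ δ : ℕ → ℝ, ∀ j, δ j = τ (j + 1) - τ j := ⟨_, fun _ => rfl⟩
  have hδa : Antitone δ := by
    refine antitone_nat_of_succ_le fun j => ?_
    have h3 := hstep (p + 2 * j) (by omega) (hpj j)
    have e1 : τ (j + 1 + 1) = -S (p + 2 * j + 4) := by rw [hτ]; congr 2
    have e2 : τ (j + 1) = -S (p + 2 * j + 2) := by rw [hτ]; congr 2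
    have e3 : τ j = -S (p + 2 * j) := hτ j
    rw [← e1, ← e2, ← e3] at h3
    rw [hδ, hδ]
    have h5 : 0 ≤ s ^ 2 * τ (j + 1) := mul_nonneg (sq_nonneg s) (hτp _).le
    linarith
  have hδ0 : Tendsto δ atTop (𝓝 0) := by
    have h3 := ((tendsto_add_atTop_iff_nat 1).2 hτ0).sub hτ0
    rw [sub_zero] at h3
    refine h3.congr fun j => ?_
    rw [hδ]
  have hδp : ∀ j, 0 ≤ δ j := fun j => hδa.le_of_tendsto hδ0 j
  have hτm : Monotone τ := by
    refine monotone_nat_of_le_succ fun j => ?_
    have := hδp j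
    rw [hδ] at this
    linarith
  have := hτm.ge_of_tendsto hτ0 0
  exact absurd (hτp 0) (not_lt.2 this)

theorem hSeqM : StSeqM := by
  intro s x n0 n1 hs hx hA hS1
  by_contra hcon
  push Not at hcon
  -- symmetric step
  have hback : ∀ n, x (n - 2) = x n - x (n - 1) ^ 2 + s ^ 2 := by
    intro n
    have h := hx (n - 1)
    rw [show n - 1 + 1 = n by ring, show n - 1 - 1 = n - 2 by ring] at h
    linarith
  have hzero : ∀ n, x n + x (n - 1) = 0 →
      x (n + 1) + x n = 0 ∧ x (n - 1) + x (n - 1 - 1) = 0 := by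
    intro n hn
    have h1 := hcon (n + 1)
    have h2 := hcon (n - 1)
    rw [show n + 1 - 1 = n by ring] at h1
    rw [show n - 1 - 1 = n - 2 by ring] at h2 ⊢
    have h3 := hx n
    have h4 := hback n
    have h5 : x n ^ 2 = x (n - 1) ^ 2 := by
      have : x n = - x (n - 1) := by linarith
      rw [this]
      ring
    constructor <;> linarith
  have hall : ∀ n, x n + x (n - 1) = 0 → ∀ m, x m + x (m - 1) = 0 := by
    intro n hn m
    have hup : ∀ k : ℕ, x (n + k) + x (n + k - 1) = 0 := by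
      intro k
      induction k with
      | zero => simpa using hn
      | succ k ih =>
        have := (hzero _ ih).1
        rw [show n + ((k + 1 : ℕ) : ℤ) = n + k + 1 by push_cast; ring,
          show n + (k : ℤ) + 1 - 1 = n + k by ring]
        exact this
    have hdown : ∀ k : ℕ, x (n - k) + x (n - k - 1) = 0 := by
      intro k
      induction k with
      | zero => simpa using hn
      | succ k ih =>
        have := (hzero _ ih).2
        rw [show n - ((k + 1 : ℕ) : ℤ) = n - k - 1 by push_cast; ring]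
        exact this
    rcases le_total n m with h | h
    · have := hup (m - n).toNat
      rw [Int.toNat_of_nonneg (by omega), show n + (m - n) = m by ring] at this
      exact this
    · have := hdown (n - m).toNat
      rw [Int.toNat_of_nonneg (by omega), show n - (n - m) = m by ring] at this
      exact this
  have hlt : ∀ n, x n + x (n - 1) < 0 := by
    intro n
    rcases (hcon n).lt_or_eq with h | h
    · exact h
    · exact absurd (hall n h n1) hS1.ne
  refine core_SeqM s hs (fun k : ℕ => x (n0 - 2 + k)) ?_ ?_ ?_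
  · intro k
    have h := hx (n0 - 2 + k + 1)
    rw [show n0 - 2 + (k : ℤ) + 1 - 1 = n0 - 2 + k by ring] at h
    rw [show n0 - 2 + ((k + 2 : ℕ) : ℤ) = n0 - 2 + k + 1 + 1 by push_cast; ring,
      show n0 - 2 + ((k + 1 : ℕ) : ℤ) = n0 - 2 + k + 1 by push_cast; ring]
    exact h
  · intro k
    have h := hlt (n0 - 2 + k + 1)
    rw [show n0 - 2 + (k : ℤ) + 1 - 1 = n0 - 2 + k by ring] at h
    rw [show n0 - 2 + ((k + 1 : ℕ) : ℤ) = n0 - 2 + k + 1 by push_cast; ring]
    exact h
  · rw [show n0 - 2 + ((2 : ℕ) : ℤ) = n0 by push_cast; ring,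
      show n0 - 2 + ((1 : ℕ) : ℤ) = n0 - 1 by push_cast; ring,
      show n0 - 2 + ((0 : ℕ) : ℤ) = n0 - 2 by push_cast; ring]
    exact hA

end Helper83.PF
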