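import Pool.Agent.Helper83.PF.St

set_option autoImplicit false

open Set Filter Topology

namespace Helper83.PF

private theorem seqP_nat (s : ℝ) (u : ℕ → ℝ) (hs : 0 < s)
    (hu : ∀ k, u (k + 2) = u (k + 1) ^ 2 - s ^ 2 + u k) (h0 : |u 0| < s) (h1 : |u 1| < s)
    (hpos : ∀ k, 0 ≤ u (k + 1) + u k) : False := by
  have hb : ∀ k, |u k| < s ∧ |u (k + 1)| < s := by
    intro k
    induction k with
    | zero => exact ⟨h0, h1⟩
    | succ k ih =>
      refine ⟨ih.2, ?_⟩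
      have e1 := abs_lt.1 ih.1
      have e2 := abs_lt.1 ih.2
      have e3 := hu k
      have e4 := hpos (k + 1)
      rw [show k + 1 + 1 = k + 2 by ring] at e4 ⊢
      have e5 : u (k + 1) ^ 2 < s ^ 2 := by nlinarith
      rw [abs_lt]
      constructor <;> linarith
  have hlt : ∀ k, u (k + 2) < u k := by
    intro k
    have e2 := abs_lt.1 (hb k).2
    have e3 := hu k
    have e5 : u (k + 1) ^ 2 < s ^ 2 := by nlinarith
    linarith
  have hlow : ∀ k, -s ≤ u k := fun k => (abs_lt.1 (hb k).1).1.le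
  have hea : Antitone fun j : ℕ => u (2 * j) :=
    antitone_nat_of_succ_le fun j => by
      have := hlt (2 * j)
      rw [show 2 * (j + 1) = 2 * j + 2 by ring]
      exact this.le
  have hoa : Antitone fun j : ℕ => u (2 * j + 1) :=
    antitone_nat_of_succ_le fun j => by
      have := hlt (2 * j + 1)
      rw [show 2 * (j + 1) + 1 = 2 * j + 1 + 2 by ring]
      exact this.le
  have heb : BddBelow (range fun j : ℕ => u (2 * j)) :=
    ⟨-s, by rintro _ ⟨j, rfl⟩; exact hlow _⟩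
  have hob : BddBelow (range fun j : ℕ => u (2 * j + 1)) :=
    ⟨-s, by rintro _ ⟨j, rfl⟩; exact hlow _⟩
  have he := tendsto_atTop_ciInf hea heb
  have ho := tendsto_atTop_ciInf hoa hob
  obtain ⟨L, hL⟩ : ∃ L : ℝ, L = ⨅ j : ℕ, u (2 * j) := ⟨_, rfl⟩
  obtain ⟨L', hL'⟩ : ∃ L' : ℝ, L' = ⨅ j : ℕ, u (2 * j + 1) := ⟨_, rfl⟩
  rw [← hL] at he
  rw [← hL'] at ho
  have hLs : L < s := by
    have e1 : L ≤ u (2 * 0) := hL ▸ ciInf_le heb 0
    exact e1.trans_lt (abs_lt.1 h0).2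
  have hL's : L' < s := by
    have e1 : L' ≤ u (2 * 0 + 1) := hL' ▸ ciInf_le hob 0
    exact e1.trans_lt (abs_lt.1 h1).2
  have he1 : Tendsto (fun j : ℕ => u (2 * (j + 1))) atTop (𝓝 L) :=
    he.comp (tendsto_add_atTop_nat 1)
  have ho1 : Tendsto (fun j : ℕ => u (2 * (j + 1) + 1)) atTop (𝓝 L') :=
    ho.comp (tendsto_add_atTop_nat 1)
  have hA : L' ^ 2 - s ^ 2 = 0 := by
    have e1 : Tendsto (fun j : ℕ => u (2 * j + 1) ^ 2 - s ^ 2) atTop (𝓝 (L' ^ 2 - s ^ 2)) :=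
      (ho.pow 2).sub_const _
    have e2 : Tendsto (fun j : ℕ => u (2 * (j + 1)) - u (2 * j)) atTop (𝓝 (L - L)) := he1.sub he
    have e3 : (fun j : ℕ => u (2 * (j + 1)) - u (2 * j)) = fun j => u (2 * j + 1) ^ 2 - s ^ 2 := by
      funext j
      rw [show 2 * (j + 1) = 2 * j + 2 by ring, hu (2 * j)]
      ring
    rw [e3, sub_self] at e2
    exact tendsto_nhds_unique e1 e2
  have hB : L ^ 2 - s ^ 2 = 0 := by
    have e1 : Tendsto (fun j : ℕ => u (2 * (j + 1)) ^ 2 - s ^ 2) atTop (𝓝 (L ^ 2 - s ^ 2)) :=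
      (he1.pow 2).sub_const _
    have e2 : Tendsto (fun j : ℕ => u (2 * (j + 1) + 1) - u (2 * j + 1)) atTop (𝓝 (L' - L')) :=
      ho1.sub ho
    have e3 : (fun j : ℕ => u (2 * (j + 1) + 1) - u (2 * j + 1))
        = fun j => u (2 * (j + 1)) ^ 2 - s ^ 2 := by
      funext j
      rw [show 2 * (j + 1) + 1 = 2 * j + 1 + 2 by ring, hu (2 * j + 1),
        show 2 * j + 1 + 1 = 2 * (j + 1) by ring]
      ring
    rw [e3, sub_self] at e2
    exact tendsto_nhds_unique e1 e2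
  have hA' : L' = -s := by
    have e1 : (L' - s) * (L' + s) = 0 := by linarith
    rcases mul_eq_zero.1 e1 with h | h <;> linarith
  have hB' : L = -s := by
    have e1 : (L - s) * (L + s) = 0 := by linarith
    rcases mul_eq_zero.1 e1 with h | h <;> linarith
  have hfin : 0 ≤ L' + L := ge_of_tendsto' (ho.add he) fun j => hpos (2 * j)
  linarith

theorem hSeqP : StSeqP := by
  intro s x n0 hs hx h0 h1
  by_contra hc
  push Not at hc
  refine seqP_nat s (fun k : ℕ => x (n0 - 1 + k)) hs (fun k => ?_) ?_ ?_ (fun k => ?_)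
  · have e := hx (n0 - 1 + (k : ℤ) + 1)
    push_cast
    rw [show n0 - 1 + ((k : ℤ) + 2) = n0 - 1 + (k : ℤ) + 1 + 1 by ring, e,
      show n0 - 1 + (k : ℤ) + 1 - 1 = n0 - 1 + (k : ℤ) by ring,
      show n0 - 1 + ((k : ℤ) + 1) = n0 - 1 + (k : ℤ) + 1 by ring]
  · simpa using h1
  · simpa using h0
  · have e := hc (n0 - 1 + (k : ℤ) + 1)
    rw [show n0 - 1 + (k : ℤ) + 1 - 1 = n0 - 1 + (k : ℤ) by ring] at e
    push_cast
    rw [show n0 - 1 + ((k : ℤ) + 1) = n0 - 1 + (k : ℤ) + 1 by ring]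
    exact e

end Helper83.PF
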