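import Pool.Agent.Helper83.PF.St

/-!
# Project PF: module Ulim (closedness of the correspondence)
-/

set_option autoImplicit false

open Set Filter Topology

noncomputable section

namespace Helper83.PF

private lemma aux_Ulim (j k j2 k2 : ℂ → ℂ) (hj : Differentiable ℂ j) (hk : Differentiable ℂ k)
    (hj2 : Differentiable ℂ j2) (hk2 : Differentiable ℂ k2) (t s : ℕ → ℂ) (t' s' : ℂ)
    (ht : Tendsto t atTop (𝓝 t')) (hs : Tendsto s atTop (𝓝 s')) (hk' : deriv k s' ≠ 0)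
    (hC : ∀ n, ∃ τ : ℂ → ℂ, AnalyticAt ℂ τ (t n) ∧ τ (t n) = s n ∧
      ∀ᶠ z in 𝓝 (t n), j z = k (τ z) ∧ j2 z = k2 (τ z)) :
    ∃ τ : ℂ → ℂ, AnalyticAt ℂ τ t' ∧ τ t' = s' ∧ ∀ᶠ z in 𝓝 t', j z = k (τ z) ∧ j2 z = k2 (τ z) := by
  have hjt : j t' = k s' := by
    have e1 : ∀ n, j (t n) = k (s n) := by
      intro n
      obtain ⟨τ, -, h2, h3⟩ := hC n
      have := h3.self_of_nhds.1
      rw [h2] at this
      exact this
    have a1 : Tendsto (fun n => j (t n)) atTop (𝓝 (j t')) := (hj.continuous.tendsto t').comp ht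
    have a2 : Tendsto (fun n => k (s n)) atTop (𝓝 (k s')) := (hk.continuous.tendsto s').comp hs
    have a3 : Tendsto (fun n => j (t n)) atTop (𝓝 (k s')) := by
      simpa only [e1] using a2
    exact tendsto_nhds_unique a1 a3
  have hkA : AnalyticAt ℂ k s' := hk.analyticAt s'
  have hkC : ContDiffAt ℂ ⊤ k s' := hkA.contDiffAt
  have hS0 : HasStrictDerivAt k (deriv k s') s' := hkA.hasStrictDerivAt
  have hS := hS0.hasStrictFDerivAt_equiv hk'
  set ι : ℂ → ℂ := hS.localInverse k _ s' with hι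
  have hL : ∀ᶠ x in 𝓝 s', ι (k x) = x := hS.eventually_left_inverse
  have hR : ∀ᶠ y in 𝓝 (k s'), k (ι y) = y := hS.eventually_right_inverse
  have hI : ι (k s') = s' := hS.localInverse_apply_image
  have hιA : AnalyticAt ℂ ι (k s') := by
    have h := hkC.to_localInverse hS.hasFDerivAt (by simp)
    exact ContDiffAt.analyticAt h
  have hτA : AnalyticAt ℂ (fun z => ι (j z)) t' := by
    have h1 : AnalyticAt ℂ ι (j t') := by rw [hjt]; exact hιA
    exact AnalyticAt.fun_comp h1 (hj.analyticAt t')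
  have hkt : ∀ᶠ z in 𝓝 t', k (ι (j z)) = j z := by
    have : Tendsto j (𝓝 t') (𝓝 (k s')) := by
      have := hj.continuous.tendsto t'
      rwa [hjt] at this
    exact this.eventually hR
  obtain ⟨r, hr, hV⟩ := Metric.eventually_nhds_iff_ball.1 hτA.eventually_analyticAt
  have hHA : AnalyticOnNhd ℂ (fun z => j2 z - k2 (ι (j z))) (Metric.ball t' r) := by
    intro z hz
    have h1 := hV z hz
    have h2 : AnalyticAt ℂ (fun z => k2 (ι (j z))) z := AnalyticAt.fun_comp (hk2.analyticAt _) h1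
    exact (hj2.analyticAt z).fun_sub h2
  have hev : ∀ᶠ n in atTop, t n ∈ Metric.ball t' r ∧ ∀ᶠ y in 𝓝 (s n), ι (k y) = y :=
    (ht.eventually (Metric.ball_mem_nhds t' hr)).and (hs.eventually (eventually_eventually_nhds.2 hL))
  obtain ⟨n, hn1, hn2⟩ := hev.exists
  obtain ⟨τ, hτ1, hτ2, hτ3⟩ := hC n
  have hz0 : (fun z => j2 z - k2 (ι (j z))) =ᶠ[𝓝 (t n)] 0 := by
    have hc : Tendsto τ (𝓝 (t n)) (𝓝 (s n)) := by
      have := hτ1.continuousAt.tendsto
      rwa [hτ2] at this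
    filter_upwards [hτ3, hc.eventually hn2] with z hz1 hz2
    have : ι (j z) = τ z := by rw [hz1.1]; exact hz2
    simp only [this, Pi.zero_apply]
    rw [hz1.2, sub_self]
  have hEq := hHA.eqOn_zero_of_preconnected_of_eventuallyEq_zero
    (convex_ball t' r).isPreconnected hn1 hz0
  refine ⟨fun z => ι (j z), hτA, by simp only [hjt, hI], ?_⟩
  filter_upwards [hkt, Metric.ball_mem_nhds t' hr] with z hz1 hz2
  have := hEq hz2
  simp only [Pi.zero_apply, sub_eq_zero] at this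
  exact ⟨hz1.symm, this⟩

theorem hUlim (h1 : StInj) : StUlim := by
  intro κ φ hκ hφ t s t' s' hloc ht hs ht'0
  have hκ0 : κ ≠ 0 := by
    rintro rfl
    rw [abs_zero] at hκ
    linarith
  have hκ1 : κ ≠ 1 := by
    rintro rfl
    rw [abs_one] at hκ
    exact lt_irrefl _ hκ
  have hl0 : (κ : ℂ) ≠ 0 := by exact_mod_cast hκ0
  have hl1 : (κ : ℂ) ≠ 1 := by exact_mod_cast hκ1
  have hD : Differentiable ℂ φ := hφ.1
  have hDl : Differentiable ℂ (fun z => φ (z / (κ : ℂ))) :=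
    hD.comp (differentiable_id.div_const _)
  have hDn : Differentiable ℂ (fun z => -φ z) := hD.neg
  have hDln : Differentiable ℂ (fun z => -φ (z / (κ : ℂ))) := hDl.neg
  obtain ⟨hinj, himm⟩ := h1 κ φ hκ hφ
  have hC : ∀ n, φ (t n) = -φ (s n / (κ : ℂ)) ∧ φ (t n / (κ : ℂ)) = -φ (s n) := by
    intro n
    obtain ⟨-, -, τ, -, hτ2, hτ3⟩ := hloc n
    have := hτ3.self_of_nhds
    rw [hτ2] at this
    exact this
  have hlim1 : φ t' = -φ (s' / (κ : ℂ)) := by
    have a1 : Tendsto (fun n => φ (t n)) atTop (𝓝 (φ t')) := (hD.continuous.tendsto t').comp ht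
    have a2 : Tendsto (fun n => -φ (s n / (κ : ℂ))) atTop (𝓝 (-φ (s' / (κ : ℂ)))) :=
      (hDln.continuous.tendsto s').comp hs
    have a3 : Tendsto (fun n => φ (t n)) atTop (𝓝 (-φ (s' / (κ : ℂ)))) := by
      simpa only [fun n => (hC n).1] using a2
    exact tendsto_nhds_unique a1 a3
  have hlim2 : φ (t' / (κ : ℂ)) = -φ s' := by
    have a1 : Tendsto (fun n => φ (t n / (κ : ℂ))) atTop (𝓝 (φ (t' / (κ : ℂ)))) :=
      (hDl.continuous.tendsto t').comp ht
    have a2 : Tendsto (fun n => -φ (s n)) atTop (𝓝 (-φ s')) := (hDn.continuous.tendsto s').comp hs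
    have a3 : Tendsto (fun n => φ (t n / (κ : ℂ))) atTop (𝓝 (-φ s')) := by
      simpa only [fun n => (hC n).2] using a2
    exact tendsto_nhds_unique a1 a3
  have hs0 : s' ≠ 0 := by
    rintro rfl
    rw [zero_div, hφ.2.1] at hlim1
    rw [hφ.2.1] at hlim2
    have e1 : φ ((κ : ℂ) * t') = φ t' := by
      rw [hφ.2.2.2.1 t', hlim2, hlim1]
      ring
    have e2 : φ ((κ : ℂ) * t' / (κ : ℂ)) = φ (t' / (κ : ℂ)) := by
      rw [mul_div_cancel_left₀ _ hl0, hlim1, hlim2]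
    have e3 := hinj _ _ e1 e2
    have e4 : ((κ : ℂ) - 1) * t' = 0 := by
      rw [sub_mul, e3, one_mul, sub_self]
    rcases mul_eq_zero.1 e4 with h | h
    · exact hl1 (sub_eq_zero.1 h)
    · exact ht'0 h
  refine ⟨ht'0, hs0, ?_⟩
  by_cases hd : deriv φ s' = 0
  · have hd2 : deriv φ (s' / (κ : ℂ)) ≠ 0 := fun h => himm s' ⟨hd, h⟩
    have hd3 : deriv (fun z => -φ (z / (κ : ℂ))) s' ≠ 0 := by
      have h : HasDerivAt (fun z : ℂ => φ (z / (κ : ℂ)))
          (deriv φ (s' / (κ : ℂ)) * (1 / (κ : ℂ))) s' :=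
        HasDerivAt.comp s' (hD (s' / (κ : ℂ))).hasDerivAt ((hasDerivAt_id s').div_const _)
      have h' : HasDerivAt (fun z : ℂ => -φ (z / (κ : ℂ)))
          (-(deriv φ (s' / (κ : ℂ)) * (1 / (κ : ℂ)))) s' := h.neg
      rw [h'.deriv]
      exact neg_ne_zero.2 (mul_ne_zero hd2 (one_div_ne_zero hl0))
    obtain ⟨τ, hτ1, hτ2, hτ3⟩ := aux_Ulim φ (fun z => -φ (z / (κ : ℂ)))
      (fun z => φ (z / (κ : ℂ))) (fun z => -φ z) hD hDln hDl hDn t s t' s' ht hs hd3 (fun n => by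
        obtain ⟨-, -, τ, hτ1, hτ2, hτ3⟩ := hloc n
        exact ⟨τ, hτ1, hτ2, hτ3⟩)
    exact ⟨τ, hτ1, hτ2, hτ3⟩
  · have hd3 : deriv (fun z => -φ z) s' ≠ 0 := by
      have h' : HasDerivAt (fun z : ℂ => -φ z) (-(deriv φ s')) s' := (hD s').hasDerivAt.neg
      rw [h'.deriv]
      exact neg_ne_zero.2 hd
    obtain ⟨τ, hτ1, hτ2, hτ3⟩ := aux_Ulim (fun z => φ (z / (κ : ℂ))) (fun z => -φ z) φ
      (fun z => -φ (z / (κ : ℂ))) hDl hDn hD hDln t s t' s' ht hs hd3 (fun n => by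
        obtain ⟨-, -, τ, hτ1, hτ2, hτ3⟩ := hloc n
        exact ⟨τ, hτ1, hτ2, hτ3.mono (fun z hz => ⟨hz.2, hz.1⟩)⟩)
    exact ⟨τ, hτ1, hτ2, hτ3.mono (fun z hz => ⟨hz.2, hz.1⟩)⟩

end Helper83.PF
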