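import Pool.Agent.Helper83.PF.St

/-!
Module Ush of project PF (MP_b39980_an): the stable and unstable manifolds do not coincide.
-/

set_option autoImplicit false

open Set Filter Topology

noncomputable section

namespace Helper83.PF

theorem corr_Ush {κ : ℝ} {φ : ℂ → ℂ} {t s : ℂ} (h : Loc κ φ t s) : Corr κ φ t s := by
  obtain ⟨-, -, τ, -, hτ, hc⟩ := h
  have := hc.self_of_nhds
  rwa [hτ] at this

theorem uniq_Ush (h1 : StInj) {κ : ℝ} {φ : ℂ → ℂ} (hl : 1 < |κ|) (hφ : UP κ φ)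
    {t s s' : ℂ} (h : Loc κ φ t s) (h' : Loc κ φ t s') : s = s' := by
  have a := corr_Ush h
  have b := corr_Ush h'
  exact (h1 κ φ hl hφ).1 s s' (neg_injective (a.2.symm.trans b.2))
    (neg_injective (a.1.symm.trans b.1))

theorem near_Ush {κ : ℝ} {φ : ℂ → ℂ} {t : ℂ} {τ : ℂ → ℂ} (ht : t ≠ 0) (hs : τ t ≠ 0)
    (ha : AnalyticAt ℂ τ t) (hc : ∀ᶠ z in 𝓝 t, Corr κ φ z (τ z)) :
    ∀ᶠ z in 𝓝 t, Loc κ φ z (τ z) := by
  have e1 : ∀ᶠ z in 𝓝 t, z ≠ 0 := isOpen_ne.mem_nhds ht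
  have e2 : ∀ᶠ z in 𝓝 t, τ z ≠ 0 := ha.continuousAt.eventually_ne hs
  have e3 : ∀ᶠ z in 𝓝 t, AnalyticAt ℂ τ z := ha.eventually_analyticAt
  have e4 : ∀ᶠ z in 𝓝 t, ∀ᶠ w in 𝓝 z, Corr κ φ w (τ w) := eventually_eventually_nhds.mpr hc
  filter_upwards [e1, e2, e3, e4] with z z1 z2 z3 z4
  exact ⟨z1, z2, τ, z3, rfl, z4⟩

theorem zpow_Ush (h2 : StUsc) {κ : ℝ} {φ : ℂ → ℂ} (hl : 1 < |κ|) (hφ : UP κ φ)
    {t s : ℂ} (h : Loc κ φ t s) (k : ℤ) :
    Loc κ φ ((κ : ℂ) ^ k * t) (s / (κ : ℂ) ^ k) := by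
  have hl0 : (κ : ℂ) ≠ 0 := by
    have : κ ≠ 0 := abs_pos.mp (by linarith)
    exact_mod_cast this
  induction k using Int.induction_on with
  | zero => simpa using h
  | succ i ih =>
    have := (h2 κ φ hl hφ _ _ ih).1
    rw [zpow_add_one₀ hl0]
    convert this using 1
    · ring
    · field_simp
  | pred i ih =>
    have := (h2 κ φ hl hφ _ _ ih).2
    rw [zpow_sub_one₀ hl0]
    convert this using 1
    · field_simp
    · field_simp

theorem hUsh (h1 : StInj) (h2 : StUsc) (h3 : StUlim) : StUsh := by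
  classical
  intro κ φ hl hφ t₀ s₀ hLoc
  have hl0 : (0 : ℝ) < |κ| := by linarith
  have hlc : (κ : ℂ) ≠ 0 := by
    have : κ ≠ 0 := abs_pos.mp hl0
    exact_mod_cast this
  set A : Set ℂ := {t | ∃ s, Loc κ φ t s} with hA
  choose! σ hσ using (fun (t : ℂ) (h : t ∈ A) => h : ∀ t ∈ A, ∃ s, Loc κ φ t s)
  have huniq : ∀ t s, Loc κ φ t s → σ t = s := fun t s h =>
    uniq_Ush h1 hl hφ (hσ t ⟨s, h⟩) h
  have hA0 : ∀ t ∈ A, t ≠ 0 := fun t ht => (hσ t ht).1
  have hσ0 : ∀ t ∈ A, σ t ≠ 0 := fun t ht => (hσ t ht).2.1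
  have hnear : ∀ t ∈ A, AnalyticAt ℂ σ t ∧ ∀ᶠ z in 𝓝 t, z ∈ A := by
    intro t ht
    obtain ⟨a, b, τ, c, d, e⟩ := hσ t ht
    have hev := near_Ush a (d ▸ b : τ t ≠ 0) c e
    refine ⟨?_, ?_⟩
    · refine c.congr ?_
      filter_upwards [hev] with z hz
      exact (huniq z _ hz).symm
    · filter_upwards [hev] with z hz
      exact ⟨_, hz⟩
  have hAo : IsOpen A := isOpen_iff_mem_nhds.mpr fun t ht => (hnear t ht).2
  set g : ℂ → ℂ := fun t => t * σ t with hg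
  have hgk : ∀ t ∈ A, ∀ k : ℤ, (κ : ℂ) ^ k * t ∈ A ∧ g ((κ : ℂ) ^ k * t) = g t := by
    intro t ht k
    have hk := zpow_Ush h2 hl hφ (hσ t ht) k
    refine ⟨⟨_, hk⟩, ?_⟩
    have hkk : (κ : ℂ) ^ k ≠ 0 := zpow_ne_zero k hlc
    simp only [hg]
    rw [huniq _ _ hk]
    field_simp
  have hgd : ∀ t ∈ A, DifferentiableAt ℂ g t := fun t ht =>
    differentiableAt_id.mul (hnear t ht).1.differentiableAt
  have hg0 : ∀ t ∈ A, g t ≠ 0 := fun t ht => mul_ne_zero (hA0 t ht) (hσ0 t ht)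
  -- the minimum of the norm
  set S : Set ℝ := (fun t => ‖g t‖) '' A with hS
  have hSne : S.Nonempty := ⟨_, t₀, ⟨s₀, hLoc⟩, rfl⟩
  have hSb : BddBelow S := ⟨0, by rintro _ ⟨t, -, rfl⟩; exact norm_nonneg _⟩
  obtain ⟨u, hu1, hu2, hu3⟩ := exists_seq_tendsto_sInf hSne hSb
  have hpick : ∀ n, ∃ t ∈ A, 1 ≤ ‖t‖ ∧ ‖t‖ ≤ |κ| ∧ ‖g t‖ = u n := by
    intro n
    obtain ⟨t, ht, htu⟩ := hu3 n
    have htp : 0 < ‖t‖ := norm_pos_iff.mpr (hA0 t ht)
    obtain ⟨k, hk1, hk2⟩ := exists_mem_Ico_zpow htp hl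
    have h5 := hgk t ht (-k)
    refine ⟨_, h5.1, ?_, ?_, ?_⟩
    · rw [norm_mul, norm_zpow, Complex.norm_real, Real.norm_eq_abs, zpow_neg,
        inv_mul_eq_div, le_div_iff₀ (zpow_pos hl0 k), one_mul]
      exact hk1
    · rw [norm_mul, norm_zpow, Complex.norm_real, Real.norm_eq_abs, zpow_neg,
        inv_mul_eq_div, div_le_iff₀ (zpow_pos hl0 k)]
      rw [zpow_add_one₀ hl0.ne'] at hk2
      linarith
    · rw [h5.2]
      exact htu
  choose T hTA hT1 hT2 hTu using hpick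
  have hσb : ∀ n, ‖σ (T n)‖ ≤ u 0 := by
    intro n
    have h5 : ‖g (T n)‖ = ‖T n‖ * ‖σ (T n)‖ := norm_mul _ _
    have h6 : u n ≤ u 0 := hu1 (Nat.zero_le n)
    have h7 : ‖σ (T n)‖ ≤ ‖T n‖ * ‖σ (T n)‖ := by
      nlinarith [hT1 n, norm_nonneg (σ (T n))]
    linarith [hTu n]
  have hcpt : IsCompact (Metric.closedBall (0 : ℂ) |κ| ×ˢ Metric.closedBall (0 : ℂ) (u 0)) :=
    (isCompact_closedBall _ _).prod (isCompact_closedBall _ _)
  obtain ⟨⟨t', s'⟩, -, ψ, hψ, hlim⟩ := hcpt.tendsto_subseq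
    (x := fun n => (T n, σ (T n))) (fun n => ⟨by simpa using hT2 n, by simpa using hσb n⟩)
  have hlim1 : Tendsto (fun n => T (ψ n)) atTop (𝓝 t') :=
    ((continuous_fst.tendsto _).comp hlim)
  have hlim2 : Tendsto (fun n => σ (T (ψ n))) atTop (𝓝 s') :=
    ((continuous_snd.tendsto _).comp hlim)
  have ht'1 : 1 ≤ ‖t'‖ := ge_of_tendsto' hlim1.norm fun n => hT1 (ψ n)
  have ht'0 : t' ≠ 0 := by
    intro h
    rw [h, norm_zero] at ht'1
    linarith
  have hLoc' : Loc κ φ t' s' :=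
    h3 κ φ hl hφ _ _ t' s' (fun n => hσ _ (hTA (ψ n))) hlim1 hlim2 ht'0
  have ht'A : t' ∈ A := ⟨s', hLoc'⟩
  have hσt' : σ t' = s' := huniq _ _ hLoc'
  have hmin : ∀ z ∈ A, ‖g t'‖ ≤ ‖g z‖ := by
    intro z hz
    have h5 : Tendsto (fun n => ‖g (T (ψ n))‖) atTop (𝓝 ‖g t'‖) := by
      simp only [hg, hσt']
      exact (hlim1.mul hlim2).norm
    have h6 : Tendsto (fun n => ‖g (T (ψ n))‖) atTop (𝓝 (sInf S)) := by
      simp only [hTu]
      exact hu2.comp hψ.tendsto_atTop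
    rw [tendsto_nhds_unique h5 h6]
    exact csInf_le hSb ⟨z, hz, rfl⟩
  -- the component
  set B := connectedComponentIn A t' with hB
  have hBA : B ⊆ A := connectedComponentIn_subset A t'
  have hBo : IsOpen B := hAo.connectedComponentIn
  have hBc : IsPreconnected B := isPreconnected_connectedComponentIn
  have ht'B : t' ∈ B := mem_connectedComponentIn ht'A
  have hconst : EqOn (fun z => (g z)⁻¹) (Function.const ℂ ((g t')⁻¹)) B := by
    refine Complex.eqOn_of_isPreconnected_of_isMaxOn_norm hBc hBo ?_ ht'B ?_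
    · intro z hz
      exact ((hgd z (hBA hz)).inv (hg0 z (hBA hz))).differentiableWithinAt
    · intro z hz
      simp only [Function.comp_apply, norm_inv, mem_ofPred_eq]
      exact inv_anti₀ (norm_pos_iff.mpr (hg0 t' ht'A)) (hmin z (hBA hz))
  set c0 := g t' with hc0
  have hσB : ∀ z ∈ B, σ z = c0 / z := by
    intro z hz
    have h5 : (g z)⁻¹ = c0⁻¹ := hconst hz
    have h6 : g z = c0 := inv_injective h5
    have h7 : z * σ z = c0 := h6
    rw [eq_div_iff (hA0 z (hBA hz)), mul_comm]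
    exact h7
  have hall : ({0}ᶜ : Set ℂ) ⊆ B := by
    have hpc : IsPreconnected ({0}ᶜ : Set ℂ) :=
      (isConnected_compl_singleton_of_one_lt_rank (by simp) 0).isPreconnected
    refine hpc.subset_of_closure_inter_subset hBo ⟨t', ht'0, ht'B⟩ ?_
    rintro z ⟨hz, hz0⟩
    have hz0' : z ≠ 0 := hz0
    obtain ⟨x, hxB, hx⟩ := mem_closure_iff_seq_limit.mp hz
    have h5 : Tendsto (fun n => σ (x n)) atTop (𝓝 (c0 / z)) := by
      have : (fun n => σ (x n)) = fun n => c0 / x n := funext fun n => hσB _ (hxB n)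
      rw [this]
      exact tendsto_const_nhds.div hx hz0'
    have hLz : Loc κ φ z (c0 / z) :=
      h3 κ φ hl hφ _ _ z _ (fun n => hσ _ (hBA (hxB n))) hx h5 hz0'
    have hzA : z ∈ A := ⟨_, hLz⟩
    have hpre : IsPreconnected (insert z B) :=
      hBc.subset_closure (subset_insert z B) (insert_subset hz subset_closure)
    exact hpre.subset_connectedComponentIn (mem_insert_of_mem z ht'B)
      (insert_subset hzA hBA) (mem_insert z B)
  have hφeq : ∀ z : ℂ, z ≠ 0 → φ z = -φ (c0 / z / (κ : ℂ)) := by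
    intro z hz
    have hzB : z ∈ B := hall hz
    have h5 := (corr_Ush (hσ z (hBA hzB))).1
    rwa [hσB z hzB] at h5
  have hφd : Differentiable ℂ φ := hφ.1
  have hbd : Bornology.IsBounded (range φ) := by
    have hK1 : IsCompact ((fun z => -φ z) '' Metric.closedBall (0 : ℂ) ‖c0‖) :=
      (isCompact_closedBall _ _).image hφd.continuous.neg
    have hK2 : IsCompact (φ '' Metric.closedBall (0 : ℂ) 1) :=
      (isCompact_closedBall _ _).image hφd.continuous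
    refine (hK1.isBounded.union hK2.isBounded).subset ?_
    rintro _ ⟨z, rfl⟩
    by_cases hz : ‖z‖ ≤ 1
    · exact Or.inr ⟨z, by simpa using hz, rfl⟩
    · left
      have hz1 : 1 < ‖z‖ := not_le.mp hz
      have hz0 : z ≠ 0 := by
        intro h
        rw [h, norm_zero] at hz1
        linarith
      refine ⟨c0 / z / (κ : ℂ), ?_, (hφeq z hz0).symm⟩
      rw [mem_closedBall_zero_iff, norm_div, norm_div, Complex.norm_real,
        Real.norm_eq_abs]
      rw [div_div]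
      apply div_le_self (norm_nonneg c0)
      nlinarith
  have hd0 : deriv φ 0 = 0 := by
    have h5 : φ = fun _ => φ 0 := funext fun z => hφd.apply_eq_apply_of_bounded hbd z 0
    rw [h5]
    simp
  have := hφ.2.2.1
  rw [hd0] at this
  norm_num at this

end Helper83.PF
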