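import Pool.Agent.Helper83.PF.St

/-!
# Project PF (MP_b39980_an): module Ver (frontier points on the lines `b = 2`, `b = -2`)
-/

set_option autoImplicit false

open Set Filter Topology
open Helper85.HN (hen Orb Bd KK E0)

namespace Helper83.PF

private theorem frontier_meets_Ver {X : Type*} [TopologicalSpace X] {s t : Set X}
    (ht : IsPreconnected t) (h1 : (t ∩ s).Nonempty) (h2 : (t ∩ sᶜ).Nonempty) :
    (t ∩ frontier s).Nonempty := by
  by_contra hcon
  have hsub : t ⊆ interior s ∪ (closure s)ᶜ := by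
    intro x hx
    by_cases hc : x ∈ closure s
    · left
      by_contra hi
      exact hcon ⟨x, hx, hc, hi⟩
    · right
      exact hc
  obtain ⟨x, hx1, hx2⟩ := h1
  obtain ⟨y, hy1, hy2⟩ := h2
  have hd : Disjoint (interior s) (closure s)ᶜ := by
    rw [Set.disjoint_left]
    intro z hz hz'
    exact hz' (subset_closure (interior_subset hz))
  have hmem : (t ∩ interior s).Nonempty := by
    refine ⟨x, hx1, ?_⟩
    rcases hsub hx1 with h | h
    · exact h
    · exact absurd (subset_closure hx2) h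
  have := ht.subset_left_of_subset_union isOpen_interior isClosed_closure.isOpen_compl hd hsub hmem
  exact hy2 (interior_subset (this hy1))

theorem hVer (h1 : StHor) (h2 : Helper85.HN.StTop) : StVer := by
  have key : ∀ b : ℝ, b ≠ 0 → |b| ≤ 2 → (1 + b) ^ 2 / 4 ≤ 3 → ∃ c : ℝ, (b, c) ∈ frontier E0 := by
    intro b hb hb2 hb3
    have hpre : IsPreconnected ((fun c : ℝ => ((b, c) : ℝ × ℝ)) '' Icc (-36) 3) :=
      isPreconnected_Icc.image _ (by fun_prop)
    obtain ⟨q, ⟨c, _, rfl⟩, hf⟩ := frontier_meets_Ver (s := E0) hpre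
      ⟨(b, 3), ⟨3, ⟨by norm_num, le_rfl⟩, rfl⟩, h2.2.1 (b, 3) hb3⟩
      ⟨(b, -36), ⟨-36, ⟨le_rfl, by norm_num⟩, rfl⟩, by
        intro hE
        have hpos := h1 b (-36) hb hb2 le_rfl
        exact absurd hpos (not_lt.2 hE)⟩
    exact ⟨c, hf⟩
  refine ⟨key 2 (by norm_num) (by norm_num) (by norm_num),
    key (-2) (by norm_num) (by norm_num) (by norm_num)⟩

end Helper83.PF
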