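import Pool.Agent.Helper83.PE.Main
import Pool.Agent.Helper83.PF.M_Coef
import Pool.Agent.Helper83.PF.M_Phi
import Pool.Agent.Helper83.PF.M_Inj
import Pool.Agent.Helper83.PF.M_Usc
import Pool.Agent.Helper83.PF.M_Ulim
import Pool.Agent.Helper83.PF.M_Ush
import Pool.Agent.Helper83.PF.M_SeqP
import Pool.Agent.Helper83.PF.M_SeqM
import Pool.Agent.Helper83.PF.M_Fir
import Pool.Agent.Helper83.PF.M_Chg
import Pool.Agent.Helper83.PF.M_Odd
import Pool.Agent.Helper83.PF.M_Sgn
import Pool.Agent.Helper83.PF.M_Tan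
import Pool.Agent.Helper83.PF.M_Gra
import Pool.Agent.Helper83.PF.M_BoxX
import Pool.Agent.Helper83.PF.M_BoxY
import Pool.Agent.Helper83.PF.M_Box
import Pool.Agent.Helper83.PF.M_Q
import Pool.Agent.Helper83.PF.M_Arc
import Pool.Agent.Helper83.PF.M_Rect
import Pool.Agent.Helper83.PF.M_Pass
import Pool.Agent.Helper17.PF.M_Het
import Pool.Agent.Helper17.PF.M_Rec
import Pool.Agent.Helper17.PF.M_Uni
import Pool.Agent.Helper83.PF.M_Cov
import Pool.Agent.Helper83.PF.M_Sta
import Pool.Agent.Helper83.PF.M_NbM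
import Pool.Agent.Helper83.PF.M_Hor
import Pool.Agent.Helper83.PF.M_Ver
import Pool.Agent.Helper83.PF.M_Itv
import Pool.Agent.Helper83.PF.Asm

set_option autoImplicit false

namespace Helper83.PF

theorem sgn : StSgn := hSgn (hOdd (hUsh hInj hUsc (hUlim hInj)))

theorem nbM : StNbM :=
  hNbM (hPhi hCoef) (hChg (hFir hSeqP hSeqM)) sgn (hTan hInj) (hBox hGra hBoxX hBoxY) hQ
    (_root_.Pool.Agent.Helper17.PF.hHet hArc hRect hPass) (_root_.Pool.Agent.Helper17.PF.hRec hRect) (hCov hPass) (hSta Helper83.PE.hSub)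
    Helper83.PE.hWord Helper83.PE.hBi Helper83.PE.hEnt Helper85.HN.hKc

theorem hor : StHor := hHor Helper83.PE.hSub Helper83.PE.hWord Helper83.PE.hBi Helper83.PE.hEnt Helper85.HN.hKc

theorem uni : StUni := _root_.Pool.Agent.Helper17.PF.hUni Helper83.PE.finA nbM hor Helper85.HN.main

theorem main : StPinch := hPinch nbM Helper85.HN.main Helper83.PE.fin uni (hVer hor Helper85.HN.main) hItv

end Helper83.PF
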