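import Pool.Agent.Helper83.PF.St

set_option autoImplicit false

open Set Filter Topology
open Helper85.HN (hen Orb Bd KK E0)
open Helper83.PE (vv Wu win Cross Covs)

noncomputable section

namespace Helper83.PF

theorem qq_neg_NbM (κ : ℝ) : qq (-κ) = -qq κ := by
  unfold qq; rw [inv_neg]; ring

theorem FF_neg_NbM (κ : ℝ) : FF (-κ) = FF κ := by
  unfold FF; rw [qq_neg_NbM, neg_sq]

theorem g2_neg_NbM (κ : ℝ) : g2 (-κ) = g2 κ := by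
  unfold g2; rw [FF_neg_NbM]

theorem continuous_hen_NbM : Continuous (fun p : (ℝ × ℝ) × (ℝ × ℝ) => hen p.1.1 p.1.2 p.2) := by
  unfold hen
  fun_prop

theorem continuous_FF_NbM (κ : ℝ) : Continuous (FF κ) := by
  unfold FF hen
  fun_prop

theorem continuous_g2_NbM (κ : ℝ) : Continuous (g2 κ) := by
  unfold g2
  exact (continuous_FF_NbM κ).comp (continuous_FF_NbM κ)

/-- crossing for both signs -/
theorem cro_NbM (h1 : StChg) (h2 : StSgn) (h3 : StTan) (κ : ℝ) (φ : ℂ → ℂ) (hκ : 1 < |κ|) (hφ : UP κ φ) :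
    ∃ tq : ℝ, tq ≠ 0 ∧ (0 < κ → 0 < tq) ∧ Zs κ φ tq = 0 ∧ Cx κ φ tq := by
  obtain ⟨tq, ht0, hpos, hz, hsg⟩ := h1 κ φ hκ hφ
  refine ⟨tq, ht0, hpos, hz, ?_⟩
  by_cases hd : deriv (Zs κ φ) tq = 0
  · exact h3 κ φ tq hκ hφ ht0 hz hd hsg
  · exact h2 κ φ tq hκ hφ ht0 hz hd

theorem hNbM (h1 : StPhi) (h2 : StChg) (h3 : StSgn) (h4 : StTan) (h5 : StBox) (h6 : StQ) (h7 : StHet) (h8 : StRec)
    (h9 : StCov) (h10 : StSta) (h11 : Helper83.PE.StWord) (h12 : Helper83.PE.StBi) (h13 : Helper83.PE.StEnt)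
    (h14 : Helper85.HN.StKc) : StNbM := by
  intro κ hκ
  have hκ0 : (0 : ℝ) < κ := by linarith
  have ha : 1 < |κ| := by rwa [abs_of_pos hκ0]
  have ha' : 1 < |-κ| := by rwa [abs_neg]
  obtain ⟨φ, hφ⟩ := h1 κ ha
  obtain ⟨ψ, hψ⟩ := h1 (-κ) ha'
  obtain ⟨tq, hq0, hqp, hqz, hqc⟩ := cro_NbM h2 h3 h4 κ φ ha hφ
  obtain ⟨sq, hs0, hsp, hsz, hsc⟩ := cro_NbM h2 h3 h4 (-κ) ψ ha' hψ
  obtain ⟨N, X, Y, r, l, L, t0, hB⟩ := h5 κ φ ψ ha hφ hψ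
  have hφ' : UP (-(-κ)) φ := by rwa [neg_neg]
  obtain ⟨N', X', Y', r', l', L', t0', hB'⟩ := h5 (-κ) ψ φ ha' hψ hφ'
  have hB2 : Bx (g2 κ) (Wu (-κ) ψ) (Wr κ φ) N' X' Y' r' l' L' t0' := by
    rw [g2_neg_NbM, neg_neg] at hB'
    exact hB'
  obtain ⟨tA, m1, hC1⟩ := h6 κ φ ψ tq ha hφ hψ hq0 hqp hqz hqc N X Y r l L t0 N' X' Y' r' l' L' t0' hB hB2
  have hB3 : Bx (g2 (-κ)) (Wu (- -κ) φ) (Wr (-κ) ψ) N X Y r l L t0 := by
    rw [g2_neg_NbM, neg_neg]; exact hB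
  obtain ⟨tB, m2, hC2⟩ := h6 (-κ) ψ φ sq ha' hψ hφ' hs0 hsp hsz hsc N' X' Y' r' l' L' t0' N X Y r l L t0 hB' hB3
  rw [g2_neg_NbM] at hC2
  have hg := continuous_g2_NbM κ
  have hHet := h7 (g2 κ) (Wu κ φ) (Wr (-κ) ψ) (Wu (-κ) ψ) (Wr κ φ) N N' X Y X' Y' r l L t0 r' l' L' t0' tA tB m1 m2
    hg hB hB2 hC1 hC2
  obtain ⟨m, am, ap, bm, bp, ε, ρ, hR⟩ := h8 (g2 κ) (Wu κ φ) (Wr (-κ) ψ) N X Y r l L t0 tA hg hB hC1.h0 hC1.h1 hHet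
  obtain ⟨n1, hn1, hcov⟩ := h9 (g2 κ) (Wu κ φ) (Wr (-κ) ψ) N X Y r l L t0 m am ap bm bp ε ρ hg hB hR
  have hG0 : (fun z => hen (-1) (-(qq κ) ^ 2) (hen (-1) (-(qq κ) ^ 2) z)) = g2 κ := rfl
  have hGc : Continuous (fun p : (ℝ × ℝ) × (ℝ × ℝ) => hen p.1.1 p.1.2 (hen p.1.1 p.1.2 p.2)) := by
    unfold hen
    fun_prop
  obtain ⟨E', δ, hδ, hE', hD, hDE, hst⟩ := h10 (fun q z => hen q.1 q.2 (hen q.1 q.2 z)) (-1, -(qq κ) ^ 2) (Wu κ φ) (Wr (-κ) ψ)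
    N X Y r l L t0 am ap bm bp ε n1 (n1 + 1) hGc hB hR.h1 hR.h2 hR.h3 hR.h4 hR.h5 hR.h6 hR.h7 hR.h8 hcov
  refine ⟨min δ 1, lt_min hδ one_pos, fun b c hb hc => ?_⟩
  have hb0 : b ≠ 0 := by
    rintro rfl
    have : |(0 : ℝ) + 1| < 1 := lt_of_lt_of_le hb (min_le_right _ _)
    norm_num at this
  have hdist : dist ((b, c) : ℝ × ℝ) (-1, -(qq κ) ^ 2) < δ := by
    rw [Prod.dist_eq, max_lt_iff, Real.dist_eq, Real.dist_eq]
    constructor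
    · have := lt_of_lt_of_le hb (min_le_left _ _)
      simpa using this
    · have := lt_of_lt_of_le hc (min_le_left _ _)
      simpa using this
  have hcv := hst (b, c) hdist
  have hw := h11 (fun z => hen b c (hen b c z)) X (win N X Y am ap ε) E' am ap n1 (n1 + 1) hcv hR.i
  have hit : (fun z => hen b c (hen b c z)) = (hen b c)^[2] := rfl
  have hw' : ∀ (w : ℕ → Bool) (k : ℕ), ∃ z ∈ win N X Y am ap ε, (∀ j ≤ k, (hen b c)^[j * (2 * n1 + 2 * (n1 + 1))] z ∈ win N X Y am ap ε) ∧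
      ∀ j < k, (hen b c)^[j * (2 * n1 + 2 * (n1 + 1)) + 2 * n1] z ∈ (if w j = true then win N X Y am ap ε else E') := by
    intro w k
    obtain ⟨z, hz, h1z, h2z⟩ := hw w k
    refine ⟨z, hz, fun j hj => ?_, fun j hj => ?_⟩
    · have := h1z j hj
      rw [hit, ← Function.iterate_mul] at this
      rwa [show j * (2 * n1 + 2 * (n1 + 1)) = 2 * (j * (n1 + (n1 + 1))) by ring]
    · have := h2z j hj
      rw [hit, ← Function.iterate_mul] at this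
      rwa [show j * (2 * n1 + 2 * (n1 + 1)) + 2 * n1 = 2 * (j * (n1 + (n1 + 1)) + n1) by ring]
  have hbi := h12 b c (win N X Y am ap ε) E' (2 * n1) (2 * (n1 + 1)) hb0 (by omega) hD hE' hw'
  exact h13 (hen b c) (KK b c) (win N X Y am ap ε) E' (2 * n1) (2 * n1 + 2 * (n1 + 1)) (by omega) (by omega)
    (h14 b c).2.2.1 hD hE' hDE hbi

end Helper83.PF
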