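import Pool.Agent.Helper83.PF.St

/-! # MP_b39980_an, project PF: module Tan (crossing in the tangential case) -/

set_option autoImplicit false

open Set Filter Topology
open Helper85.HN (hen Orb Bd KK E0)
open Helper83.PE (vv Wu win Cross Covs)

namespace Helper83.PF

private lemma vv_hasDeriv_Tan (φ : ℂ → ℂ) (hd : Differentiable ℂ φ) (t : ℝ) :
    HasDerivAt (vv φ) (deriv φ (t : ℂ)).re t :=
  (hd (t : ℂ)).hasDerivAt.real_of_complex

/-- the derivative of `φ` is real on the reals -/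
private lemma deriv_im_Tan (φ : ℂ → ℂ) (hd : Differentiable ℂ φ) (him : ∀ t : ℝ, (φ (t : ℂ)).im = 0) (t : ℝ) :
    (deriv φ (t : ℂ)).im = 0 := by
  have h1 : HasDerivAt (fun s : ℝ => φ (s : ℂ)) (deriv φ (t : ℂ)) t := (hd (t : ℂ)).hasDerivAt.comp_ofReal
  have h2 : HasDerivAt (fun s : ℝ => (φ (s : ℂ)).im) (deriv φ (t : ℂ)).im t := by
    have := Complex.imCLM.hasFDerivAt.comp_hasDerivAt t h1
    exact this
  have h3 : (fun s : ℝ => (φ (s : ℂ)).im) = fun _ => (0 : ℝ) := funext him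
  rw [h3] at h2
  exact (h2.unique (hasDerivAt_const t (0 : ℝ)))

theorem hTan (h1 : StInj) : StTan := by
  intro κ φ tq hκ hU htq hZ0 hZd hsg Lf hLf hLd hLz
  obtain ⟨dZ, hdZ, hsgn⟩ := hsg
  have hd := hU.1
  have him := hU.2.2.2.2
  have hk0 : 0 < |κ| := by linarith
  have hkne : κ ≠ 0 := abs_pos.mp hk0
  -- derivatives
  obtain ⟨a, ha⟩ : ∃ a, a = (deriv φ (tq : ℂ)).re := ⟨_, rfl⟩
  obtain ⟨a', ha'⟩ : ∃ a', a' = (deriv φ ((tq / κ : ℝ) : ℂ)).re := ⟨_, rfl⟩
  have hv : HasDerivAt (vv φ) a tq := by rw [ha]; exact vv_hasDeriv_Tan φ hd tq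
  have hv' : HasDerivAt (fun t => vv φ (t / κ)) (a' / κ) tq := by
    have h2 : HasDerivAt (fun t : ℝ => t / κ) (1 / κ) tq := (hasDerivAt_id tq).div_const κ
    have h3 : HasDerivAt (vv φ) a' (tq / κ) := by rw [ha']; exact vv_hasDeriv_Tan φ hd _
    have h4 := h3.comp tq h2
    have h5 : a' * (1 / κ) = a' / κ := by ring
    rw [h5] at h4
    exact h4
  have hZ' : HasDerivAt (Zs κ φ) (a + a' / κ) tq := hv.add hv'
  have hsum : a + a' / κ = 0 := by rw [← hZ'.deriv, hZd]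
  have hane : a ≠ 0 := by
    intro h0
    have h2 : a' = 0 := by
      rw [h0, zero_add, div_eq_zero_iff] at hsum
      rcases hsum with h | h
      · exact h
      · exact absurd h hkne
    refine (h1 κ φ hκ hU).2 (tq : ℂ) ⟨?_, ?_⟩
    · apply Complex.ext
      · rw [← ha, h0]; rfl
      · rw [deriv_im_Tan φ hd him]; rfl
    · have e : ((tq : ℂ) / (κ : ℂ)) = ((tq / κ : ℝ) : ℂ) := by push_cast; rfl
      rw [e]
      apply Complex.ext
      · rw [← ha', h2]; rfl
      · rw [deriv_im_Tan φ hd him]; rfl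
  -- the point
  have hq : Wr κ φ tq = Wu κ φ tq := by
    have : vv φ tq + vv φ (tq / κ) = 0 := hZ0
    unfold Wr Wu
    ext
    · simp only; linarith
    · simp only; linarith
  obtain ⟨D, hD⟩ : ∃ D, D = fderiv ℝ Lf (Wu κ φ tq) := ⟨_, rfl⟩
  have hst : HasStrictFDerivAt Lf D (Wu κ φ tq) := by
    rw [hD]; exact hLf.hasStrictFDerivAt (by norm_num)
  have hWr' : HasDerivAt (Wr κ φ) (-(a' / κ), -a) tq := (hv'.neg).prodMk (hv.neg)
  have hWu' : HasDerivAt (Wu κ φ) (a, a' / κ) tq := hv.prodMk hv'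
  have hD1 : D (1, -1) = 0 := by
    have h2 : HasFDerivAt Lf D (Wr κ φ tq) := by rw [hq]; exact hst.hasFDerivAt
    have h3 := h2.comp_hasDerivAt tq hWr'
    have h4 : HasDerivAt (Lf ∘ Wr κ φ) 0 tq := by
      have h5 : (Lf ∘ Wr κ φ) =ᶠ[𝓝 tq] fun _ => (0 : ℝ) := hLz
      exact (hasDerivAt_const tq (0 : ℝ)).congr_of_eventuallyEq h5
    have h5 := h3.unique h4
    have h6 : ((-(a' / κ), -a) : ℝ × ℝ) = a • ((1 : ℝ), (-1 : ℝ)) := by
      ext
      · simp only [Prod.smul_mk, smul_eq_mul]; linarith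
      · simp
    rw [h6, map_smul, smul_eq_mul] at h5
    rcases mul_eq_zero.mp h5 with h7 | h7
    · exact absurd h7 hane
    · exact h7
  obtain ⟨k, hk⟩ : ∃ k, k = D (1, 1) := ⟨_, rfl⟩
  have hkne0 : k ≠ 0 := by
    intro h0
    apply hLd
    rw [← hD]
    ext
    · simp only [ContinuousLinearMap.coe_comp, Function.comp_apply, ContinuousLinearMap.inl_apply,
        ContinuousLinearMap.zero_apply]
      have : ((1, 0) : ℝ × ℝ) = (1 / 2 : ℝ) • ((1, 1) : ℝ × ℝ) + (1 / 2 : ℝ) • ((1, -1) : ℝ × ℝ) := by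
        ext <;> norm_num
      rw [this, map_add, map_smul, map_smul, hD1, ← hk, h0]
      simp
    · simp only [ContinuousLinearMap.coe_comp, Function.comp_apply, ContinuousLinearMap.inr_apply,
        ContinuousLinearMap.zero_apply]
      have : ((0, 1) : ℝ × ℝ) = (1 / 2 : ℝ) • ((1, 1) : ℝ × ℝ) - (1 / 2 : ℝ) • ((1, -1) : ℝ × ℝ) := by
        ext <;> norm_num
      rw [this, map_sub, map_smul, map_smul, hD1, ← hk, h0]
      simp
  -- the estimate
  have hdiff : ∀ t, Wu κ φ t - Wr κ φ t = Zs κ φ t • ((1 : ℝ), (1 : ℝ)) := by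
    intro t
    unfold Wu Wr Zs
    ext
    · simp
    · simp [add_comm]
  have hnorm : ∀ t, ‖Wu κ φ t - Wr κ φ t‖ = |Zs κ φ t| := by
    intro t
    rw [hdiff, norm_smul, Real.norm_eq_abs]
    simp [Prod.norm_def]
  have hten : Tendsto (fun t => (Wu κ φ t, Wr κ φ t)) (𝓝 tq) (𝓝 (Wu κ φ tq, Wu κ φ tq)) := by
    have h2 := hWu'.continuousAt.tendsto
    have h3 := hWr'.continuousAt.tendsto
    rw [hq] at h3
    exact h2.prodMk_nhds h3
  have hlo := hst.isLittleO.comp_tendsto hten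
  have hbd := hlo.bound (c := |k| / 2) (by have := abs_pos.mpr hkne0; positivity)
  have hest : ∀ᶠ t in 𝓝 tq, |Lf (Wu κ φ t) - Zs κ φ t * k| ≤ |k| / 2 * |Zs κ φ t| := by
    filter_upwards [hbd, hLz] with t ht hz
    simp only [Function.comp] at ht
    rw [hnorm, hdiff, map_smul, hz, sub_zero, smul_eq_mul, ← hk, Real.norm_eq_abs] at ht
    exact ht
  obtain ⟨d, hd0, hd1⟩ := Metric.eventually_nhds_iff.mp hest
  refine ⟨min d dZ, lt_min hd0 hdZ, ?_⟩
  intro t ht t' ht'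
  have m1 := min_le_left d dZ
  have m2 := min_le_right d dZ
  have hz := hsgn t ⟨by linarith [ht.1], ht.2⟩ t' ⟨ht'.1, by linarith [ht'.2]⟩
  have e1 := hd1 (y := t) (by rw [Real.dist_eq, abs_lt]; constructor <;> linarith [ht.1, ht.2])
  have e2 := hd1 (y := t') (by rw [Real.dist_eq, abs_lt]; constructor <;> linarith [ht'.1, ht'.2])
  generalize Lf (Wu κ φ t) = A at e1 ⊢
  generalize Lf (Wu κ φ t') = B at e2 ⊢
  generalize Zs κ φ t = z at hz e1
  generalize Zs κ φ t' = z' at hz e2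
  have hk2 : 0 < k ^ 2 := by positivity
  have hzne : z ≠ 0 := fun h => by rw [h, zero_mul] at hz; exact lt_irrefl _ hz
  have hzne' : z' ≠ 0 := fun h => by rw [h, mul_zero] at hz; exact lt_irrefl _ hz
  have key : ∀ A z : ℝ, z ≠ 0 → |A - z * k| ≤ |k| / 2 * |z| → 0 < A * (z * k) := by
    intro A z hz h
    have h3 : A * (z * k) = (z * k) ^ 2 + (A - z * k) * (z * k) := by ring
    have h4 : |(A - z * k) * (z * k)| ≤ |k| / 2 * |z| * |z * k| := by
      rw [abs_mul]
      exact mul_le_mul_of_nonneg_right h (abs_nonneg _)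
    have h5 : |k| / 2 * |z| * |z * k| = (z * k) ^ 2 / 2 := by
      rw [abs_mul, ← sq_abs (z * k), abs_mul]; ring
    rw [h5] at h4
    have h6 := neg_abs_le ((A - z * k) * (z * k))
    have h7 : 0 < (z * k) ^ 2 := by positivity
    rw [h3]
    linarith only [h4, h6, h7]
  have k1 := key A z hzne e1
  have k2 := key B z' hzne' e2
  have h8 : 0 < (A * (z * k)) * (B * (z' * k)) := mul_pos k1 k2
  have h9 : (A * (z * k)) * (B * (z' * k)) = (A * B) * ((z * z') * k ^ 2) := by ring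
  rw [h9] at h8
  have h10 : (z * z') * k ^ 2 < 0 := mul_neg_of_neg_of_pos hz hk2
  by_contra hcon
  push Not at hcon
  have := mul_nonpos_of_nonneg_of_nonpos hcon h10.le
  linarith

end Helper83.PF
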