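import Pool.Agent.Helper83.PF.Main

/-!
# The boundary of the zero entropy locus of the real Henon family at the lines `|b| = 1`

`f (x, y) = (x^2 + c - b y, x)`.  All conservative orientation reversing maps `b = -1`, `c < 0` have positive entropy, uniformly in a
neighbourhood of the parameter.  Near the two conservative lines `|b| = 1` the boundary of the zero entropy locus is concentrated at
the two points `(1, 1)` and `(-1, 0)`; if the boundary is an arc then its part in `|b| ≤ 1` is the closed sub-arc between them.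
-/

set_option autoImplicit false

namespace Pool.Agent.Results.MP_b39980_an.ConservativePinch

open Set Topology

/-- The real Henon map `f_{c,b}`. -/
def henon (b c : ℝ) (p : ℝ × ℝ) : ℝ × ℝ := (p.1 ^ 2 + c - b * p.2, p.1)

/-- `x` is the sequence of first coordinates of a full orbit of `f_{c,b}`. -/
def IsOrbit (b c : ℝ) (x : ℤ → ℝ) : Prop := ∀ n : ℤ, x (n + 1) = x n ^ 2 + c - b * x (n - 1)

/-- The set `K_{c,b}` of points with bounded full orbit. -/
def K (b c : ℝ) : Set (ℝ × ℝ) :=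
  {p | ∃ x : ℤ → ℝ, IsOrbit b c x ∧ (∃ M : ℝ, ∀ n : ℤ, |x n| ≤ M) ∧ x 0 = p.1 ∧ x (-1) = p.2}

/-- The zero entropy locus: the topological entropy (Bowen, by covers) of `f_{c,b}` on `K_{c,b}` is zero; it is `⊥` if
`K_{c,b}` is empty. -/
def E0 : Set (ℝ × ℝ) := {q | Dynamics.coverEntropy (henon q.1 q.2) (K q.1 q.2) ≤ 0}

theorem result :
    (∀ c : ℝ, ((-1, c) ∈ E0 ↔ 0 ≤ c) ∧ (c < 0 → (-1, c) ∈ interior E0ᶜ)) ∧
    (∀ η > 0, ∃ δ > 0, ∀ q ∈ frontier E0, |(|q.1| - 1)| < δ → dist q (1, 1) < η ∨ dist q (-1, 0) < η) ∧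
    (-1, 0) ∈ frontier E0 ∧ ¬IsPreconnected (frontier E0 \ {(-1, 0)}) ∧
    ∀ I : Set ℝ, I.OrdConnected → Nonempty (I ≃ₜ frontier E0) →
      ∃ e : Icc (0 : ℝ) 1 ≃ₜ {q : ℝ × ℝ | q ∈ frontier E0 ∧ |q.1| ≤ 1},
        (e ⟨0, by norm_num, by norm_num⟩ : ℝ × ℝ) = (-1, 0) ∧ (e ⟨1, by norm_num, by norm_num⟩ : ℝ × ℝ) = (1, 1) :=
  Helper83.PF.main

end Pool.Agent.Results.MP_b39980_an.ConservativePinch
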