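import Pool.Agent.Helper83.PE.St

/-!
# MP_b39980_an, project PF: positive entropy of the real Henon family near the line `b = -1`, `c < 0`, and the pinch theorem

Final theorem: the boundary of `E0` meets the two conservative lines `|b| = 1` exactly in `(1,1)` and `(-1,0)` (uniformly: near the lines
all boundary points are near these two points), and if the boundary is an arc then its part `|b| ≤ 1` is the closed sub-arc between them.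

Everything here is for `b = -1`: `FF κ = hen (-1) (-(qq κ)^2)`, `κ ∈ ℝ`, `|κ| > 1`, `qq κ = (κ - κ⁻¹)/2`. The fixed points are
`(qq κ, qq κ)` (eigenvalues `κ`, `-1/κ`) and `(-qq κ, -qq κ)` (eigenvalues `-κ`, `1/κ`); `FF (-κ) = FF κ`. `κ > 1` and `κ < -1` are treated
together. The reversor `R (x,y) = (-y,-x)` conjugates `FF κ` to its inverse and exchanges the fixed points.
`Wu κ φ t = (φ t, φ (t/κ))` is the unstable manifold of `P_κ = (qq κ, qq κ)`, `Wr κ φ t = R (Wu κ φ t)` the stable manifold of `P_(-κ)`: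
`FF κ (Wu κ φ t) = Wu κ φ (κ t)`, `FF κ (Wr κ φ t) = Wr κ φ (t/κ)`.
1. (Seq, Fir, Chg) `W^u(P_κ)` meets `Fix R = {x + y = 0}` with a change of sign of `x + y`, for both signs of `κ`.
2. (Ush, Odd, Sgn, Tan) there `W^u(P_κ)` crosses `W^s(P_(-κ))` topologically.
3. (Box) boxes at both saddles for `g2 = FF ∘ FF` (both multipliers positive); (Het) the heteroclinic 2-cycle gives a homoclinic crossing
   of arcs; (Rec, Cov, Sta) covering relations, stable under perturbation; entropy as in project PE.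

Most modules are ADAPTATIONS of the landed modules `Pool/Agent/Helper83/PE/M_XX.lean` (copy the file, change as described).
Every module `M_XX.lean` in `Pool/Agent/Helper83/PF/` proves `theorem hXX : StXX` in `namespace Helper83.PF`
(with the hypotheses named in its row).
-/

set_option autoImplicit false

open Set Filter Topology
open Helper85.HN (hen Orb Bd KK E0)
open Helper83.PE (vv Wu win Cross Covs)

noncomputable section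

namespace Helper83.PF

/-! ## Definitions -/

/-- The fixed point `P_κ = (qq κ, qq κ)`. -/
def qq (κ : ℝ) : ℝ := (κ - κ⁻¹) / 2

/-- The conservative orientation reversing Henon map: `FF κ (x,y) = (x² - qq² + y, x)`. -/
def FF (κ : ℝ) : ℝ × ℝ → ℝ × ℝ := hen (-1) (-(qq κ) ^ 2)

/-- The second iterate. -/
def g2 (κ : ℝ) (z : ℝ × ℝ) : ℝ × ℝ := FF κ (FF κ z)

/-- `φ` is the entire parametrisation of the unstable manifold of `P_κ`. -/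
def UP (κ : ℝ) (φ : ℂ → ℂ) : Prop := Differentiable ℂ φ ∧ φ 0 = (qq κ : ℂ) ∧ deriv φ 0 = -1 ∧
  (∀ t : ℂ, φ ((κ : ℂ) * t) = φ t ^ 2 - (qq κ : ℂ) ^ 2 + φ (t / (κ : ℂ))) ∧ ∀ t : ℝ, (φ (t : ℂ)).im = 0

/-- The stable manifold of `P_(-κ)`, the image of `Wu κ φ` under `R (x,y) = (-y,-x)`. -/
def Wr (κ : ℝ) (φ : ℂ → ℂ) (t : ℝ) : ℝ × ℝ := (-vv φ (t / κ), -vv φ t)

/-- `x + y` along `W^u(P_κ)`. -/
def Zs (κ : ℝ) (φ : ℂ → ℂ) (t : ℝ) : ℝ := vv φ t + vv φ (t / κ)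

/-- `Φ t = R Φ s` for `Φ t = (φ t, φ (t/κ))`. -/
def Corr (κ : ℝ) (φ : ℂ → ℂ) (t s : ℂ) : Prop := φ t = -φ (s / (κ : ℂ)) ∧ φ (t / (κ : ℂ)) = -φ s

/-- Local coincidence of the (complex) manifolds at `Φ t = R Φ s`. -/
def Loc (κ : ℝ) (φ : ℂ → ℂ) (t s : ℂ) : Prop := t ≠ 0 ∧ s ≠ 0 ∧
  ∃ τ : ℂ → ℂ, AnalyticAt ℂ τ t ∧ τ t = s ∧ ∀ᶠ z in 𝓝 t, Corr κ φ z (τ z)

/-- `W^u(P_κ)` crosses `W^s(P_(-κ))` topologically at the parameter `tq` (for every local defining function `Lf` of `W^s`). -/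
def Cx (κ : ℝ) (φ : ℂ → ℂ) (tq : ℝ) : Prop := ∀ Lf : ℝ × ℝ → ℝ,
  ContDiffAt ℝ 1 Lf (Wu κ φ tq) → fderiv ℝ Lf (Wu κ φ tq) ≠ 0 → (∀ᶠ t in 𝓝 tq, Lf (Wr κ φ t) = 0) →
  ∃ d > 0, ∀ t ∈ Ioo (tq - d) tq, ∀ t' ∈ Ioo tq (tq + d), Lf (Wu κ φ t) * Lf (Wu κ φ t') < 0

/-- Linear coordinates at `P_κ`: `z - P = - xi z • (1, 1/κ) + et z • (-1/κ, 1)`. -/
def xi (κ : ℝ) (z : ℝ × ℝ) : ℝ := -((z.1 - qq κ) + (z.2 - qq κ) / κ) / (1 + (κ⁻¹) ^ 2)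

/-- Second linear coordinate. -/
def et (κ : ℝ) (z : ℝ × ℝ) : ℝ := ((z.2 - qq κ) - (z.1 - qq κ) / κ) / (1 + (κ⁻¹) ^ 2)

/-- The local unstable manifold `{Wu κ φ t | |t| < t0}` is the graph `et = w (xi)`. -/
structure Gr (κ : ℝ) (φ : ℂ → ℂ) (w : ℝ → ℝ) (ρ ρ' t0 : ℝ) : Prop where
  hρ : 0 < ρ'
  hρ' : ρ' ≤ ρ
  ht : 0 < t0
  cd : ∀ x ∈ Ioo (-ρ) ρ, ContDiffAt ℝ 1 w x
  w0 : w 0 = 0
  dw0 : deriv w 0 = 0
  mono : StrictMonoOn (fun t => xi κ (Wu κ φ t)) (Ioo (-t0) t0)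
  on : ∀ t ∈ Ioo (-t0) t0, xi κ (Wu κ φ t) ∈ Ioo (-ρ) ρ ∧ et κ (Wu κ φ t) = w (xi κ (Wu κ φ t))
  onto : ∀ x ∈ Ioo (-ρ') ρ', ∃ t ∈ Ioo (-t0) t0, xi κ (Wu κ φ t) = x

/-- GENERIC. Straightened coordinates `X, Y` at a saddle of `g` on an open set `N`: the unstable manifold (branch `U`) is `Y = 0`, the stable
manifold (parametrised by `S`) is `X = 0`, `|X|` is expanded and `|Y|` contracted by a factor at least `l > 1`, the sign of `X` is kept. -/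
structure Bx (g : ℝ × ℝ → ℝ × ℝ) (U S : ℝ → ℝ × ℝ) (N : Set (ℝ × ℝ)) (X Y : ℝ × ℝ → ℝ) (r l L t0 : ℝ) : Prop where
  opn : IsOpen N
  cX : ContDiffOn ℝ 1 X N
  cY : ContinuousOn Y N
  cU : ContinuousOn U (Icc 0 t0)
  hr : 0 < r
  hl : 1 < l
  hL : l ≤ L
  ht : 0 < t0
  cpt : IsCompact {z | z ∈ N ∧ |X z| ≤ r ∧ |Y z| ≤ r}
  dyn : ∀ z ∈ N, |X z| ≤ r / L → |Y z| ≤ r → g z ∈ N ∧ l * |X z| ≤ |X (g z)| ∧ |X (g z)| ≤ L * |X z| ∧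
    0 ≤ X z * X (g z) ∧ |Y (g z)| ≤ |Y z| / l
  wu : ∀ t ∈ Icc 0 t0, U t ∈ N ∧ Y (U t) = 0 ∧ X (U t) ≤ r / L
  wu0 : X (U 0) = 0
  wuX : StrictMonoOn (fun t => X (U t)) (Icc 0 t0)
  wuc : ∀ z ∈ N, Y z = 0 → 0 ≤ X z → X z ≤ X (U t0) → ∃ t ∈ Icc 0 t0, z = U t
  ws : ∀ t ∈ Icc (-t0) t0, S t ∈ N ∧ X (S t) = 0 ∧ |Y (S t)| < r
  grd : ∀ t ∈ Icc (-t0) t0, fderiv ℝ X (S t) ≠ 0

/-- GENERIC. `g^[m]` maps the point `U tA` of an unstable manifold to a point of a stable manifold `{X' = 0}` and the curve crosses it there. -/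
structure Crs (g : ℝ × ℝ → ℝ × ℝ) (U : ℝ → ℝ × ℝ) (t1 : ℝ) (N' : Set (ℝ × ℝ)) (X' Y' : ℝ × ℝ → ℝ) (r' tA : ℝ) (m : ℕ) : Prop where
  h0 : 0 < tA
  h1 : tA < t1
  inN : g^[m] (U tA) ∈ N'
  x0 : X' (g^[m] (U tA)) = 0
  y0 : |Y' (g^[m] (U tA))| < r'
  sg : ∃ d > 0, ∀ t ∈ Ioo (tA - d) tA, ∀ t' ∈ Ioo tA (tA + d), X' (g^[m] (U t)) * X' (g^[m] (U t')) < 0

/-- GENERIC. `g^[m]` maps the arc `U [t1,t2]` across the stable manifold `{X' = 0}`. -/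
structure Arc (g : ℝ × ℝ → ℝ × ℝ) (U : ℝ → ℝ × ℝ) (N' : Set (ℝ × ℝ)) (X' Y' : ℝ × ℝ → ℝ) (r' β t1 t2 : ℝ) (m : ℕ) : Prop where
  lt : t1 < t2
  inn : ∀ t ∈ Icc t1 t2, g^[m] (U t) ∈ N' ∧ |X' (g^[m] (U t))| < β ∧ |Y' (g^[m] (U t))| < r'
  sg : X' (g^[m] (U t1)) * X' (g^[m] (U t2)) < 0

/-- GENERIC. The map `G = g^[m]` on the window `win N X Y am ap ε`: into `N'`, across `{X' = 0}`. -/
structure Wd (g : ℝ × ℝ → ℝ × ℝ) (N : Set (ℝ × ℝ)) (X Y : ℝ × ℝ → ℝ) (N' : Set (ℝ × ℝ)) (X' Y' : ℝ × ℝ → ℝ) (r' β : ℝ) (m : ℕ)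
    (am ap ε ρ : ℝ) : Prop where
  h7 : 0 < ε
  h9 : 0 < ρ
  G : ∀ z ∈ win N X Y am ap ε, g^[m] z ∈ N' ∧ |X' (g^[m] z)| < β ∧ |Y' (g^[m] z)| < r'
  s : (∀ z ∈ win N X Y am ap ε, (X z = am → X' (g^[m] z) ≤ -ρ) ∧ (X z = ap → ρ ≤ X' (g^[m] z))) ∨
    (∀ z ∈ win N X Y am ap ε, (X z = am → ρ ≤ X' (g^[m] z)) ∧ (X z = ap → X' (g^[m] z) ≤ -ρ))

/-- GENERIC. The data of the return map `G = g^[m]` on the window `win N X Y am ap ε` (as `PE.Rec`). -/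
structure Rec (g : ℝ × ℝ → ℝ × ℝ) (N : Set (ℝ × ℝ)) (X Y : ℝ × ℝ → ℝ) (r l L : ℝ) (m : ℕ) (am ap bm bp ε ρ : ℝ) : Prop where
  h1 : 0 < bm
  h2 : bm < am
  h3 : am < ap
  h4 : ap < bp
  h5 : bp ≤ r / L
  h6 : bp < l * bm
  h7 : 0 < ε
  h8 : ε ≤ r
  h9 : 0 < ρ
  G : ∀ z ∈ win N X Y am ap ε, g^[m] z ∈ N ∧ |X (g^[m] z)| ≤ bm ∧ |Y (g^[m] z)| ≤ r
  s : (∀ z ∈ win N X Y am ap ε, (X z = am → X (g^[m] z) ≤ -ρ) ∧ (X z = ap → ρ ≤ X (g^[m] z))) ∨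
    (∀ z ∈ win N X Y am ap ε, (X z = am → ρ ≤ X (g^[m] z)) ∧ (X z = ap → X (g^[m] z) ≤ -ρ))
  i : ∃ (γ : ℝ → ℝ × ℝ) (α β : ℝ), Cross X (win N X Y am ap ε) am ap γ α β

/-! ## Part 1: the unstable manifold -/

/-- MODULE Coef (150 lines). ADAPTATION of PE/M_Coef. Coefficients of `φ`.
Changes: the divisor is `κ^n - κ^(-n) - 2 qq κ = (κ^(n-1) - 1)(κ + κ^(-n))`, and for `n ≥ 2`
`|κ^(n-1) - 1| ≥ |κ|^(n-1) - 1 ≥ |κ|^(n-1) (1 - 1/|κ|)`, `|κ + κ^(-n)| ≥ |κ| - 1 = |κ| (1 - 1/|κ|)`: so `|divisor| ≥ (1 - 1/|κ|)² |κ|^n > 0`. The rest with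
`|κ|` in place of `lam`. -/
def StCoef : Prop := ∀ κ : ℝ, 1 < |κ| → ∃ a : ℕ → ℝ, a 0 = qq κ ∧ a 1 = -1 ∧
  (∀ n, 2 ≤ n → (κ ^ n - (κ⁻¹) ^ n - 2 * qq κ) * a n = ∑ i ∈ Finset.Icc 1 (n - 1), a i * a (n - i)) ∧
  ∀ R : ℝ, 0 < R → ∃ C : ℝ, ∀ n, |a n| * R ^ n ≤ C

/-- MODULE Phi (120 lines; theorem hPhi (h1 : StCoef) : StPhi). ADAPTATION of PE/M_Phi. Equation `φ(κ t) - φ(t/κ) = φ(t)² - qq²`; coefficients: `n = 0`:
`0 = qq² - qq²`; `n = 1`: `(κ - κ⁻¹) a 1 = 2 qq a 1`; `n ≥ 2`: the recursion. -/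
def StPhi : Prop := ∀ κ : ℝ, 1 < |κ| → ∃ φ : ℂ → ℂ, UP κ φ

/-- MODULE Inj (80 lines). ADAPTATION of PE/M_Inj. `φ (t/κ²) = φ t - φ(t/κ)² + qq²` (the equation at `t/κ`); derivative of the equation at `t/κ`:
`φ'(t) - φ'(t/κ²)/κ² = 2 φ(t/κ) φ'(t/κ)/κ`. -/
def StInj : Prop := ∀ (κ : ℝ) (φ : ℂ → ℂ), 1 < |κ| → UP κ φ →
  (∀ t s : ℂ, φ t = φ s → φ (t / (κ : ℂ)) = φ (s / (κ : ℂ)) → t = s) ∧
  ∀ t : ℂ, ¬(deriv φ t = 0 ∧ deriv φ (t / (κ : ℂ)) = 0)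

/-! ## Part 2: `W^u(P_κ)` and `W^s(P_(-κ))` do not coincide -/

/-- MODULE Usc (80 lines). ADAPTATION of PE/M_Usc. `τ' z = τ (z/κ)/κ` works for `(κ t, s/κ)`: for `z = κ w`: `φ z = φ(w)² - qq² + φ(w/κ) =
φ(τ w/κ)² - qq² - φ(τ w) = -φ(τ w/κ²)` (the equation at `τ w/κ`), `φ(z/κ) = φ w = -φ(τ w/κ)`. And `τ'' w = κ τ(κ w)` works for `(t/κ, κ s)`: for `z = κ w` near `t`:
`φ w = φ(z/κ) = -φ(τ z) = -φ(τ'' w/κ)`; `φ(w/κ) = φ(z/κ²) = φ z - φ(z/κ)² + qq² = -φ(τ z/κ) - φ(τ z)² + qq² = -φ(κ τ z)`. -/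
def StUsc : Prop := ∀ (κ : ℝ) (φ : ℂ → ℂ), 1 < |κ| → UP κ φ → ∀ t s : ℂ, Loc κ φ t s →
  Loc κ φ ((κ : ℂ) * t) (s / (κ : ℂ)) ∧ Loc κ φ (t / (κ : ℂ)) ((κ : ℂ) * s)

/-- MODULE Ulim (180 lines; theorem hUlim (h1 : StInj) : StUlim). ADAPTATION of PE/M_Ulim (the only change in the main argument is the sign: use `k₁ s = -φ (s/κ)`,
`k₂ s = -φ s`). The proof of `s' ≠ 0` is different: if `s' = 0` then `φ t' = -qq κ` and `φ (t'/κ) = -qq κ`, so `φ(κ t') = qq² - qq² - qq = -qq = φ t'`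
and `φ (κ t'/κ) = φ t' = -qq = φ(t'/κ)`: by StInj `κ t' = t'`, so `t' = 0`, against `t' ≠ 0`. -/
def StUlim : Prop := ∀ (κ : ℝ) (φ : ℂ → ℂ), 1 < |κ| → UP κ φ → ∀ (t s : ℕ → ℂ) (t' s' : ℂ),
  (∀ n, Loc κ φ (t n) (s n)) → Tendsto t atTop (𝓝 t') → Tendsto s atTop (𝓝 s') → t' ≠ 0 → Loc κ φ t' s'

/-- MODULE Ush (200 lines; theorem hUsh (h1 : StInj) (h2 : StUsc) (h3 : StUlim) : StUsh). ADAPTATION of PE/M_Ush (signs; `|κ|` in place of `lam` in the normalisation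
`1 ≤ |t_n| ≤ |κ|`; the last step is `φ t = -φ(κ₀/(κ t))` for `t ≠ 0`). -/
def StUsh : Prop := ∀ (κ : ℝ) (φ : ℂ → ℂ), 1 < |κ| → UP κ φ → ∀ t s : ℂ, ¬Loc κ φ t s

/-! ## Part 3: crossing -/

/-- MODULE SeqP (70 lines). Suppose `0 ≤ S n := x n + x (n-1)` for all `n`. By induction `|x n| < s` for `n ≥ n0 - 1`: `x (n+1) = x n ^ 2 - s² + x (n-1) < x (n-1) < s` and
`x (n+1) ≥ - x n > -s`. So `k ↦ x (n0 + 2k)` and `k ↦ x (n0 - 1 + 2k)` are strictly decreasing, bounded below, with limits `L, L' < s`; `x (n+1) - x (n-1) → 0` gives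
`L² = L'² = s²`, `L = L' = -s`, `S → -2s < 0`: contradiction. -/
def StSeqP : Prop := ∀ (s : ℝ) (x : ℤ → ℝ) (n0 : ℤ), 0 < s → (∀ n, x (n + 1) = x n ^ 2 - s ^ 2 + x (n - 1)) →
  |x n0| < s → |x (n0 - 1)| < s → ∃ n, x n + x (n - 1) < 0

/-- MODULE SeqM (180 lines). Suppose `S n := x n + x (n-1) ≤ 0` for all `n`; `A n := x n - x (n-1)`. (1) `A (n+1) = A (n-1) + S n * A n` and
`S (n+1) - 2 S n + S (n-1) = S n * A n`, i.e. with `σ n = - S n ≥ 0`: `σ (n+1) + σ (n-1) = (2 + A n) σ n`. (2) `A n * A (n-1) < 0` for all `n ≥ n0` (induction: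
`A (n+1) A n = A (n-1) A n + S n (A n)² < 0`) and so `|A (n+1)| = |A (n-1)| + |S n| |A n|` for `n ≥ n0`. (3) `|A n| < 4 + 2 s` for `n ≥ n0 + 1`: if `A n ≤ -(4 + 2s)`:
`x n = (S n + A n)/2 ≤ -(2+s)`, `S (n+1) = S n + x n ^ 2 - s² ≤ 0` gives `S n ≤ s² - x n ^ 2`, and `x n < x (n-1) = S n - x n ≤ s² - x n ^ 2 - x n`, so `x n ^ 2 + 2 x n < s²`, but with
`u = - x n ≥ 2 + s`: `u (u - 2) ≥ (2+s) s > s²`: contradiction. If `A n ≥ 4 + 2s`: `x (n-1) = (S n - A n)/2 ≤ -(2+s)`, `A (n-1) < 0`, and the same with `n-1` in place of `n`.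
(4) `|A n| ≥ α := min |A n0| |A (n0-1)| > 0` for `n ≥ n0 - 1`, and `∑ α |S n| ≤ ∑ |S n| |A n| ≤ 2 (4 + 2s)` (telescoping by parity): so `S n → 0`, `x n ^ 2 - s² = S (n+1) - S n → 0`,
`A n ^ 2 = 2 x n ^ 2 + 2 x (n-1) ^ 2 - S n ^ 2 → 4 s²`, `|A n| → 2s`. (5) `σ n > 0` for all `n`: if `σ n = 0` then (1) gives `σ (n±1) = 0`, so `σ = 0` everywhere, against `x n1 + x (n1-1) < 0`.
(6) Let `n ≥ n0 + 3` with `A n > 0` (so `A (n±1) < 0`); `σ (n+2) + σ n = (2 + A (n+1)) σ (n+1)`, `σ n + σ (n-2) = (2 + A (n-1)) σ (n-1)`, so with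
`θ = max (2 + A (n+1)) (2 + A (n-1))` (positive): `σ (n+2) + 2 σ n + σ (n-2) ≤ θ (2 + A n) σ n`, and `θ (2 + A n) → (2 - 2s)(2 + 2s) = 4 - 4 s²`: for large `n` of this parity
`σ (n+2) + σ (n-2) ≤ (2 - s²) σ n`. So `τ k = σ (n + 2k)` has `δ k = τ (k+1) - τ k < δ (k-1)`: if some `δ k < 0` then `τ → -∞`; otherwise `τ` is nondecreasing
and positive, against `τ → 0`. -/
def StSeqM : Prop := ∀ (s : ℝ) (x : ℤ → ℝ) (n0 n1 : ℤ), 0 < s → (∀ n, x (n + 1) = x n ^ 2 - s ^ 2 + x (n - 1)) →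
  (x n0 - x (n0 - 1)) * (x (n0 - 1) - x (n0 - 2)) < 0 → x n1 + x (n1 - 1) < 0 → ∃ n, 0 < x n + x (n - 1)

/-- MODULE Fir (120 lines; theorem hFir (h1 : StSeqP) (h2 : StSeqM) : StFir). `v = vv φ` is differentiable on `ℝ` with `v 0 = qq κ`, `v' 0 = -1`, `v (κ t) = v(t)² - qq² + v(t/κ)`;
`x n = v (κ^n t₀)` (zpow, `t₀ = 1`) satisfies the recursion with `s = |qq κ| > 0` (`qq κ > 0` for `κ > 1`, `< 0` for `κ < -1`). `κ > 1`: for `n → -∞` `κ^n → 0+` and `v (κ^n) < s`, `> -s`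
(derivative `-1` at `0`): SeqP. `κ < -1`: `A n = v(y) - v(y/κ)`, `y = κ^n → 0`; `y ↦ v y - v(y/κ)` vanishes at `0` with derivative `-1 + 1/κ < 0`, so `A n` has the sign of `-κ^n` for
`n` near `-∞`, alternating; `x n + x (n-1) → 2 qq κ < 0`: SeqM. -/
def StFir : Prop := ∀ (κ : ℝ) (φ : ℂ → ℂ), 1 < |κ| → UP κ φ → ∃ t : ℝ, t ≠ 0 ∧ (0 < κ → 0 < t) ∧ qq κ * Zs κ φ t < 0

/-- MODULE Chg (120 lines; theorem hChg (h1 : StFir) : StChg). Change of sign. With `t₁` from StFir put `h s = qq κ * Zs κ φ (s t₁)`, `h 0 = 2 qq² > 0`, `h 1 < 0`; `s* = inf {s ∈ [0,1] | h s < 0}`: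
`h s* = 0`, `0 < s*`, `h ≥ 0` on `[0,s*]`, and there are points with `h < 0` arbitrarily close to `s*` on the right. `h` is the real part on `ℝ` of the entire function
`s ↦ qq κ (φ (s t₁) + φ (s t₁/κ))`, real on `ℝ` and not identically zero near `s*`, so its zeros are isolated (`AnalyticAt.eventually_eq_zero_or_eventually_ne_zero`): `h > 0` on `(s* - d, s*)`, and on `(s*, s*+d)` `h ≠ 0`, of
constant sign by continuity (`IsPreconnected`), which is negative. `tq = s* t₁`. -/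
def StChg : Prop := ∀ (κ : ℝ) (φ : ℂ → ℂ), 1 < |κ| → UP κ φ → ∃ tq : ℝ, tq ≠ 0 ∧ (0 < κ → 0 < tq) ∧ Zs κ φ tq = 0 ∧
  ∃ d > 0, ∀ t ∈ Ioo (tq - d) tq, ∀ t' ∈ Ioo tq (tq + d), Zs κ φ t * Zs κ φ t' < 0

/-- MODULE Odd (200 lines; theorem hOdd (h1 : StUsh) : StOdd). ADAPTATION of PE/M_Odd: there `D t = v t - v (t/lam)` has a simple zero and `S t = v t + v (t/lam) = ψ (D t)`; here `Zs t = v t + v (t/κ)` plays
the role of `D` and `v t - v (t/κ)` the role of `S`. If `ψ d = ψ (-d)` near `0` then for `τ t = ι (- Z t)`: `Z (τ t) = - Z t`, `(φ - φ(·/κ)) (τ t) = (φ - φ(·/κ)) t`, so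
`φ (τ t/κ) = -φ t`, `φ (τ t) = -φ (t/κ)`: `Loc tq tq`, against StUsh (`τ tq = tq`). -/
def StOdd : Prop := ∀ (κ : ℝ) (φ : ℂ → ℂ) (tq : ℝ), 1 < |κ| → UP κ φ → tq ≠ 0 → Zs κ φ tq = 0 → deriv (Zs κ φ) tq ≠ 0 →
  ∃ (ψ : ℝ → ℝ) (ρ : ℝ), 0 < ρ ∧ (∀ᶠ t in 𝓝 tq, vv φ t - vv φ (t / κ) = ψ (Zs κ φ t)) ∧
    ((∀ d ∈ Ioo 0 ρ, 0 < ψ d - ψ (-d)) ∨ (∀ d ∈ Ioo 0 ρ, ψ d - ψ (-d) < 0))

/-- MODULE Sgn (180 lines; theorem hSgn (h1 : StOdd) : StSgn). ADAPTATION of PE/M_Sgn. `Wu t = (x,y)` has `(x+y, x-y) = (Z t, ψ (Z t))`, `Wr t` has `(x+y, x-y) = (-Z t, ψ (Z t))`, i.e. `W^s = {x-y = ψ(-(x+y))}`.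
`Lt (d,σ) = Lf ((d+σ)/2, (d-σ)/2)` (`d = x+y`, `σ = x-y`): `Lt (d, ψ (-d)) = 0` for small `d`, `∂_σ Lt ≠ 0` at `q` (otherwise `fderiv Lf q = 0`, as the velocity of `Wr` has `d`-component `-Z' tq ≠ 0`), and
`Lf (Wu t) = Lt (d, ψ d) - Lt (d, ψ (-d)) = ∂_σ Lt (d, σ*) (ψ d - ψ (-d))` with `d = Z t`. `Z` is strictly monotone near `tq` (here `Z' tq` may have either sign) and maps neighbourhoods of `tq` onto neighbourhoods of `0`. -/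
def StSgn : Prop := ∀ (κ : ℝ) (φ : ℂ → ℂ) (tq : ℝ), 1 < |κ| → UP κ φ → tq ≠ 0 → Zs κ φ tq = 0 → deriv (Zs κ φ) tq ≠ 0 → Cx κ φ tq

/-- MODULE Tan (90 lines; theorem hTan (h1 : StInj) : StTan). The tangential case. `α t = v t - v (t/κ)`; `Wu t = ((Z+α)/2, (Z-α)/2)`, `Wr t = ((-Z+α)/2, (-Z-α)/2)` at `t`. `Z' tq = 0`, so `α' tq ≠ 0` (otherwise
`v' tq = 0` and `v' (tq/κ) = 0`, i.e. `deriv φ tq = 0 = deriv φ (tq/κ)` (real derivatives of a real function), against StInj). The function `Lt (ζ,σ) = Lf ((ζ+σ)/2, (ζ-σ)/2)` vanishes along `(-Z t, α t)`, whose velocity at `tq` is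
`(0, α' tq)`: `∂_σ Lt = 0` at the point, so `∂_ζ Lt ≠ 0` there (`fderiv Lf ≠ 0`), and it has constant sign near the point. `Lf (Wu t) = Lt (Z t, α t) - Lt (-Z t, α t) = 2 Z t · ∂_ζ Lt (ζ*, α t)` (mean value theorem):
the sign of `Lf (Wu t)` is that of `± Z t`. -/
def StTan : Prop := ∀ (κ : ℝ) (φ : ℂ → ℂ) (tq : ℝ), 1 < |κ| → UP κ φ → tq ≠ 0 → Zs κ φ tq = 0 → deriv (Zs κ φ) tq = 0 →
  (∃ d > 0, ∀ t ∈ Ioo (tq - d) tq, ∀ t' ∈ Ioo tq (tq + d), Zs κ φ t * Zs κ φ t' < 0) → Cx κ φ tq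

/-! ## Part 4: boxes at the saddles -/

/-- MODULE Gra (130 lines). ADAPTATION of PE/M_Gra (`xi κ (Wu κ φ t)` has derivative `1`, `et κ (Wu κ φ t)` derivative `0` at `t = 0`, since `Wu t - P ≈ -t (1, 1/κ)`). -/
def StGra : Prop := ∀ (κ : ℝ) (φ : ℂ → ℂ), 1 < |κ| → UP κ φ → ∃ (w : ℝ → ℝ) (ρ ρ' t0 : ℝ), Gr κ φ w ρ ρ' t0

/-- MODULE BoxX (130 lines). ADAPTATION of PE/M_BoxX. `K = 1/(1 + κ⁻²)`, `x = z.1 - qq κ = -xi z - et z/κ`. By algebra `xi κ (FF κ z) = κ xi z - K x²`, `et κ (FF κ z) = -et z/κ - (K/κ) x²`. The stable manifold of `P_κ` is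
`Wr (-κ) ψ t`: by algebra (`qq (-κ) = -qq κ`) `xi κ (Wr (-κ) ψ t) = et (-κ) (Wu (-κ) ψ t)`, `et κ (Wr (-κ) ψ t) = xi (-κ) (Wu (-κ) ψ t)`, and `FF κ (Wr (-κ) ψ t) = Wr (-κ) ψ (t/(-κ))`. Given `|et z| < δ ≤ ρ'` take `t` with
`xi (-κ) (Wu (-κ) ψ t) = et z`, `z0 = Wr (-κ) ψ t`: `et z0 = et z`, `xi z0 = w (et z)`, `xi (FF z0) = w (et (FF z0))`. `x - x0 = -X z` (`X z = xi z - w (et z)`), `xi (FF z) - xi (FF z0) = X z (κ + K (x + x0))`,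
`et (FF z) - et (FF z0) = (K/κ) X z (x + x0)`, `w` is `1`-Lipschitz near `0`, `|x + x0| ≤ 8δ`. -/
def StBoxX : Prop := ∀ (κ : ℝ) (ψ : ℂ → ℂ) (w : ℝ → ℝ) (ρ ρ' t0 : ℝ), 1 < |κ| → UP (-κ) ψ → Gr (-κ) ψ w ρ ρ' t0 →
  ∀ e > 0, ∃ δ > 0, ∀ z : ℝ × ℝ, |xi κ z| < δ → |et κ z| < δ →
    |(xi κ (FF κ z) - w (et κ (FF κ z))) - κ * (xi κ z - w (et κ z))| ≤ e * |xi κ z - w (et κ z)|

/-- MODULE BoxY (130 lines). ADAPTATION of PE/M_BoxY. Notation as in BoxX. Take `t` with `xi κ (Wu κ φ t) = xi κ z`, `z1 = Wu κ φ t`, `et z1 = w (xi z)`; for small `δ` also `|κ t| < t0`, so `FF z1 = Wu κ φ (κ t)` satisfies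
`et (FF z1) = w (xi (FF z1))`. `x - x1 = -Y z/κ`: `et (FF z) - et (FF z1) = -Y z/κ + (K/κ²) Y z (x + x1)`, `xi (FF z) - xi (FF z1) = (K/κ) Y z (x + x1)`. -/
def StBoxY : Prop := ∀ (κ : ℝ) (φ : ℂ → ℂ) (w : ℝ → ℝ) (ρ ρ' t0 : ℝ), 1 < |κ| → UP κ φ → Gr κ φ w ρ ρ' t0 →
  ∀ e > 0, ∃ δ > 0, ∀ z : ℝ × ℝ, |xi κ z| < δ → |et κ z| < δ →
    |et κ (FF κ z) - w (xi κ (FF κ z))| ≤ (1 / |κ| + e) * |et κ z - w (xi κ z)|

/-- MODULE Box (220 lines; theorem hBox (h1 : StGra) (h2 : StBoxX) (h3 : StBoxY) : StBox). ADAPTATION of PE/M_Box, with two different graph functions and two steps of `FF`. `w` from StGra for `κ, φ`; `w'` from StGra for `-κ, ψ`;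
`X z = xi z - w' (et z)`, `Y z = et z - w (xi z)`; `l = (1+|κ|)/2`, `e = min ((|κ|-1)/2) (1/l - 1/|κ|)`, `L = (|κ|+e)²`, `N = {|xi z| < δ, |et z| < δ}` with `δ` from BoxX, BoxY (for this `e`) and so small that `w, w'` are `1/4`-Lipschitz on
`(-δ,δ)`. On `N`: `X (FF z) = (κ + e1) X z`, `|e1| ≤ e`, so if `z, FF z ∈ N`: `X (g2 z) = (κ + e1)(κ + e2) X z` with `(κ+e1)(κ+e2) > 0`, between `(|κ|-e)² ≥ l² ≥ l` and `L`; `|Y (g2 z)| ≤ (1/|κ|+e)² |Y z| ≤ |Y z|/l² ≤ |Y z|/l`. If `z ∈ N`,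
`|X z|, |Y z| ≤ r` then `|xi z|, |et z| ≤ 4r/3`; for small `r` then `FF z, g2 z ∈ N` (`xi (FF z) = κ xi z - K x²` etc.). `ws` for both signs of `t` (`X (Wr (-κ) ψ t) = et (-κ) (Wu (-κ) ψ t) - w' (xi (-κ) (Wu (-κ) ψ t)) = 0`). The other fields as in PE. -/
def StBox : Prop := ∀ (κ : ℝ) (φ ψ : ℂ → ℂ), 1 < |κ| → UP κ φ → UP (-κ) ψ →
  ∃ (N : Set (ℝ × ℝ)) (X Y : ℝ × ℝ → ℝ) (r l L t0 : ℝ), Bx (g2 κ) (Wu κ φ) (Wr (-κ) ψ) N X Y r l L t0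

/-- MODULE Q (150 lines). ADAPTATION of PE/M_Q. `FF^[k] (Wu κ φ t) = Wu κ φ (κ^k t)`, `FF^[k] (Wr κ φ t) = Wr κ φ (t/κ^k)`, `Wu κ φ tq = Wr κ φ tq` (as `Zs tq = 0`), `(g2 κ)^[m] = (FF κ)^[2 m]`. Choose `M1` large with `tA = tq/κ^M1 ∈ (0, t0)` (if `κ < 0` choose the parity of
`M1` according to the sign of `tq`; if `κ > 0` then `tq > 0`), and `M2` large with `|tq/κ^M2| ≤ t0'` and `M1 + M2 = 2 m` even. `(g2 κ)^[m] (Wu tA) = (FF)^[M2] (Wu tq) = (FF)^[M2] (Wr tq) = Wr (tq/κ^M2)`: `inN, x0, y0` from `Bx.ws` of the second box. `Lf = X' ∘ (FF κ)^[M2]` is `C¹`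
near `Wu tq` with derivative `≠ 0` (`Bx.grd`; `FF` is invertible with polynomial inverse `(x,y) ↦ (y, x - y² + qq²)`), `Lf (Wr t) = X' (Wr (t/κ^M2)) = 0` for `t` near `tq` (if `|tq/κ^M2| < t0'`). `Cx` and `Lf (Wu t) = X' ((g2 κ)^[m] (Wu (t/κ^M1)))`; note that `t ↦ t/κ^M1` may reverse
the order (`κ^M1 < 0`): the sign condition is symmetric. -/
def StQ : Prop := ∀ (κ : ℝ) (φ ψ : ℂ → ℂ) (tq : ℝ), 1 < |κ| → UP κ φ → UP (-κ) ψ → tq ≠ 0 → (0 < κ → 0 < tq) → Zs κ φ tq = 0 → Cx κ φ tq →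
  ∀ (N : Set (ℝ × ℝ)) (X Y : ℝ × ℝ → ℝ) (r l L t0 : ℝ) (N' : Set (ℝ × ℝ)) (X' Y' : ℝ × ℝ → ℝ) (r' l' L' t0' : ℝ),
  Bx (g2 κ) (Wu κ φ) (Wr (-κ) ψ) N X Y r l L t0 → Bx (g2 κ) (Wu (-κ) ψ) (Wr κ φ) N' X' Y' r' l' L' t0' →
  ∃ (tA : ℝ) (m : ℕ), Crs (g2 κ) (Wu κ φ) t0 N' X' Y' r' tA m

/-! ## Part 5: covering relations (generic) -/

/-- MODULE Arc (80 lines). From a crossing point to arcs. `h t = X' (g^[m] (U t))`: near `tA` the point `g^[m] (U t)` is in `N'`, `|h t| < β`, `|Y'| < r'` (continuity at `tA`: `tA ∈ (0,t1)`, `U` continuous on `[0,t1]`, `X', Y'` on the open set `N'`). Take `a ∈ (tA - d', tA)`,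
`b ∈ (tA, tA + d')`, `d'` small. -/
def StArc : Prop := ∀ (g : ℝ × ℝ → ℝ × ℝ) (U : ℝ → ℝ × ℝ) (t1 : ℝ) (N' : Set (ℝ × ℝ)) (X' Y' : ℝ × ℝ → ℝ) (r' tA : ℝ) (m : ℕ),
  Continuous g → IsOpen N' → ContinuousOn X' N' → ContinuousOn Y' N' → ContinuousOn U (Icc 0 t1) → Crs g U t1 N' X' Y' r' tA m →
  ∀ β > 0, ∀ η > 0, ∃ a b : ℝ, tA - η < a ∧ 0 < a ∧ a < tA ∧ tA < b ∧ b < tA + η ∧ b < t1 ∧ Arc g U N' X' Y' r' β a b m

/-- MODULE Rect (180 lines). ADAPTATION of PE/M_Rect. A thin window around an arc of `W^u`. `am = X (U a)`, `ap = X (U b)`, `h t = X' (g^[m] (U t))`, `h a * h b < 0`, `ρ = min |h a| |h b| / 2`. Claim: for some `0 < ε ≤ r` the fields hold. If not, there are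
`z n ∈ win am ap (r/(n+1))` violating them; they are in the compact set `cpt` (`ap ≤ X (U t0) ≤ r/L ≤ r`), a subsequence converges to `z ∈ N` with `Y z = 0`, `am ≤ X z ≤ ap`, so `z = U t` (`wuc`) with `t ∈ [a,b]` (`wuX`), where the (open) statements hold with strict
inequalities; `X z = am` only for `t = a`, `X z = ap` only for `t = b`. Treat the fields separately, take the minimum of the `ε`. -/
def StRect : Prop := ∀ (g : ℝ × ℝ → ℝ × ℝ) (U S : ℝ → ℝ × ℝ) (N : Set (ℝ × ℝ)) (X Y : ℝ × ℝ → ℝ) (r l L t0 : ℝ)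
  (N' : Set (ℝ × ℝ)) (X' Y' : ℝ × ℝ → ℝ) (r' β a b : ℝ) (m : ℕ), Continuous g → Bx g U S N X Y r l L t0 → IsOpen N' → ContinuousOn X' N' → ContinuousOn Y' N' →
  0 < a → b < t0 → Arc g U N' X' Y' r' β a b m → ∃ ε ρ : ℝ, ε ≤ r ∧ Wd g N X Y N' X' Y' r' β m (X (U a)) (X (U b)) ε ρ

/-- MODULE Pass (200 lines). ADAPTATION of PE/M_Pass: copy it with a continuous `g` in place of `ff lam` and `Bx` in place of `Box` (same fields used). -/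
def StPass : Prop := ∀ (g : ℝ × ℝ → ℝ × ℝ) (U S : ℝ → ℝ × ℝ) (N : Set (ℝ × ℝ)) (X Y : ℝ × ℝ → ℝ) (r l L t0 : ℝ), Continuous g → Bx g U S N X Y r l L t0 →
  ∀ bm bp ρ : ℝ, 0 < bm → bm < bp → bp ≤ r / L → 0 < ρ → ∃ n0 : ℕ, 1 ≤ n0 ∧ ∀ n, n0 ≤ n → ∀ (γ : ℝ → ℝ × ℝ) (α β : ℝ),
    α ≤ β → ContinuousOn γ (Icc α β) → (∀ s ∈ Icc α β, γ s ∈ N ∧ |X (γ s)| ≤ bm ∧ |Y (γ s)| ≤ r) →
    ((X (γ α) ≤ 0 ∧ ρ ≤ X (γ β)) ∨ (ρ ≤ X (γ α) ∧ X (γ β) ≤ 0)) →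
    ∃ α' β', α ≤ α' ∧ α' ≤ β' ∧ β' ≤ β ∧
      (∀ s ∈ Icc α' β', (∀ j ≤ n, g^[j] (γ s) ∈ N ∧ 0 ≤ X (g^[j] (γ s)) ∧ X (g^[j] (γ s)) ≤ bp ∧
        |Y (g^[j] (γ s))| ≤ r / l ^ j) ∧ bm ≤ X (g^[n] (γ s))) ∧
      ((X (g^[n] (γ α')) = bm ∧ X (g^[n] (γ β')) = bp) ∨ (X (g^[n] (γ α')) = bp ∧ X (g^[n] (γ β')) = bm))

/-- MODULE Het (180 lines; theorem hHet (h1 : StArc) (h2 : StRect) (h3 : StPass) : StHet). From the heteroclinic 2-cycle to homoclinic arcs. (1) StArc for `Crs g U2 T2 N1 ..` with bound `β` gives an arc `[s1,s2] ⊂ (0,T2)` and `m2`; StRect (box 2, target box 1) gives the window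
`W = win N2 X2 Y2 a1 a2 ε`, `a1 = X2 (U2 s1) > 0` (`wuX`, `wu0`), `a2 = X2 (U2 s2) ≤ r2/L2`, on which `g^[m2]` is in `N1` with `|X1| < β`, `|Y1| < r1` and the side conditions with `ρ`. (2) StArc for `Crs g U1 T1 N2 ..` with bound `a1` and `η` gives `[t1,t2]`; the path `γ t = g^[m1] (U1 t)` on `[t1,t2]` has
`|X2| < a1`, `|Y2| < r2`, `X2 (γ t1) * X2 (γ t2) < 0`; StPass (box 2) with `bm = a1`, `bp = a2`, `ρ' = min |X2 (γ t1)| |X2 (γ t2)|`, `n ≥ n0` with `r2/l2^n ≤ ε`: a subinterval `[α',β']` on which `g^[n] (γ s) ∈ W`, with the sides `X2 = a1, a2` at the ends (in some order). (3) So on `[α',β']`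
`g^[m2] (g^[n] (g^[m1] (U1 s))) ∈ N1`, `|X1| < β`, `|Y1| < r1`, and at the two ends `X1 ≤ -ρ` resp. `≥ ρ` (so `α' < β'`). `m = m2 + n + m1` (`Function.iterate_add_apply`). -/
def StHet : Prop := ∀ (g : ℝ × ℝ → ℝ × ℝ) (U1 S1 U2 S2 : ℝ → ℝ × ℝ) (N1 N2 : Set (ℝ × ℝ)) (X1 Y1 X2 Y2 : ℝ × ℝ → ℝ)
  (r1 l1 L1 T1 r2 l2 L2 T2 tA tB : ℝ) (m1 m2 : ℕ), Continuous g → Bx g U1 S1 N1 X1 Y1 r1 l1 L1 T1 → Bx g U2 S2 N2 X2 Y2 r2 l2 L2 T2 →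
  Crs g U1 T1 N2 X2 Y2 r2 tA m1 → Crs g U2 T2 N1 X1 Y1 r1 tB m2 →
  ∀ β > 0, ∀ η > 0, ∃ (a b : ℝ) (m : ℕ), tA - η < a ∧ 0 < a ∧ b < tA + η ∧ b < T1 ∧ Arc g U1 N1 X1 Y1 r1 β a b m

/-- MODULE Rec (120 lines; theorem hRec (h1 : StRect) : StRec). `A0 = X (U tA)`, `0 < A0 < X (U t0) ≤ r/L` (`wuX`, `wu0`, `wu`). Choose `0 < bm < A0 < bp < X (U t0)` with `bp < l bm` (`l > 1`; e.g. `bm = A0 (1 - ε₁)`, `bp = A0 (1 + ε₁)`, small `ε₁`), `η` with `X (U t) ∈ (bm, bp)` and `t ∈ (0,t0)` for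
`|t - tA| < η`, the arc `[a,b]` for `β = bm` and this `η`, and StRect (target the same box): `am = X (U a) < ap = X (U b)`. `i`: `γ = U` on `[a,b]` (`Y (U t) = 0`). -/
def StRec : Prop := ∀ (g : ℝ × ℝ → ℝ × ℝ) (U S : ℝ → ℝ × ℝ) (N : Set (ℝ × ℝ)) (X Y : ℝ × ℝ → ℝ) (r l L t0 tA : ℝ), Continuous g → Bx g U S N X Y r l L t0 →
  0 < tA → tA < t0 → (∀ β > 0, ∀ η > 0, ∃ (a b : ℝ) (m : ℕ), tA - η < a ∧ 0 < a ∧ b < tA + η ∧ b < t0 ∧ Arc g U N X Y r β a b m) →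
  ∃ (m : ℕ) (am ap bm bp ε ρ : ℝ), Rec g N X Y r l L m am ap bm bp ε ρ

/-- MODULE Cov (100 lines; theorem hCov (h1 : StPass) : StCov). ADAPTATION of PE/M_Cov: copy with a continuous `g` in place of `ff lam`. -/
def StCov : Prop := ∀ (g : ℝ × ℝ → ℝ × ℝ) (U S : ℝ → ℝ × ℝ) (N : Set (ℝ × ℝ)) (X Y : ℝ × ℝ → ℝ) (r l L t0 : ℝ) (m : ℕ) (am ap bm bp ε ρ : ℝ), Continuous g →
  Bx g U S N X Y r l L t0 → Rec g N X Y r l L m am ap bm bp ε ρ → ∃ m1 : ℕ, 1 ≤ m1 ∧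
    Covs g X (win N X Y am ap ε) (win N X Y bm bp (ε / 2)) (win N X Y (-(bp / l)) (bp / l) r) am ap bm bp m1 (m1 + 1)

/-- MODULE Sta (200 lines; theorem hSta (h1 : Helper83.PE.StSub) : StSta). ADAPTATION of PE/M_Sta: a jointly continuous family `G q`, `q ∈ ℝ × ℝ`, in place of `hen b c` (`ff lam` becomes `G q0`). In step (3): `(q,z) ↦ (G q)^[j] z` is continuous, so for some `δ > 0`
`dist q q0 < δ`, `z ∈ D`, `j ∈ {m1, m2}` imply `dist ((G q)^[j] z) ((G q0)^[j] z) < min μ1 μ2`. -/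
def StSta : Prop := ∀ (G : ℝ × ℝ → ℝ × ℝ → ℝ × ℝ) (q0 : ℝ × ℝ) (U S : ℝ → ℝ × ℝ) (N : Set (ℝ × ℝ)) (X Y : ℝ × ℝ → ℝ) (r l L t0 : ℝ) (am ap bm bp ε : ℝ) (m1 m2 : ℕ),
  Continuous (fun p : (ℝ × ℝ) × (ℝ × ℝ) => G p.1 p.2) →
  Bx (G q0) U S N X Y r l L t0 → 0 < bm → bm < am → am < ap → ap < bp → bp ≤ r / L → bp < l * bm → 0 < ε → ε ≤ r →
  Covs (G q0) X (win N X Y am ap ε) (win N X Y bm bp (ε / 2)) (win N X Y (-(bp / l)) (bp / l) r) am ap bm bp m1 m2 →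
  ∃ (E' : Set (ℝ × ℝ)) (δ : ℝ), 0 < δ ∧ IsCompact E' ∧ IsCompact (win N X Y am ap ε) ∧ Disjoint (win N X Y am ap ε) E' ∧
    ∀ q : ℝ × ℝ, dist q q0 < δ → Covs (G q) X (win N X Y am ap ε) (win N X Y am ap ε) E' am ap am ap m1 m2

/-- MODULE NbM (helper83). Assembly (with `PE.StWord`, `PE.StBi`, `PE.StEnt`). -/
def StNbM : Prop := ∀ κ : ℝ, 1 < κ → ∃ δ > 0, ∀ b c : ℝ, |b + 1| < δ → |c + qq κ ^ 2| < δ →
  0 < Dynamics.coverEntropy (hen b c) (KK b c)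

/-! ## Part 6: the boundary of `E0` -/

/-- MODULE Hor (150 lines; theorem hHor (h1 : Helper83.PE.StSub) (h2 : Helper83.PE.StWord) (h3 : Helper83.PE.StBi) (h4 : Helper83.PE.StEnt) (h5 : Helper85.HN.StKc) : StHor). Horseshoe for very negative `c`. `s = √(-c) ≥ 6`, `R = s + 4` (`R² - 3R ≥ s²`), `s² - 3R ≥ 1`. `g = hen b c`, `X z = z.1`,
`D = {1 ≤ x ≤ R, |y| ≤ R}`, `E = {-R ≤ x ≤ -1, |y| ≤ R}`, `am = 1`, `ap = R`, `m1 = 1`, `m2 = 2`. For `|y| ≤ R`, `|b| ≤ 2`: at `x = ± R` `(g z).1 = R² - s² - b y ≥ R² - s² - 2R ≥ R`; at `x = ± 1` `(g z).1 ≤ 1 - s² + 2R ≤ -R`; `(g z).2 = x`. So for a path `γ` in `D` from `x = 1` to `x = R` (or reversed)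
`h s = (g (γ s)).1` goes from `≤ -R` to `≥ R`: StSub gives a subinterval on which `1 ≤ h ≤ R` with the ends `1, R` (this is the first covering, `m1 = 1`: `g (γ s) ∈ D` as `|(g (γ s)).2| = |x| ≤ R`), and a subinterval on which `-R ≤ h ≤ -1` with the ends `-R, -1` (points of `E`); on the latter apply the same
to `g ∘ γ`: `(g (g (γ s))).1` goes from `≥ R` (at `-R`) to `≤ -R` (at `-1`), so there is a sub-subinterval crossing `D` (`m2 = 2`, with `g (γ s) ∈ E`). `Covs g X D D E 1 R 1 R 1 2`; `D, E` compact and disjoint; StWord (the initial path is a segment), StBi (`b ≠ 0`, `m1 = 1`), StEnt (`T = 3`), `MapsTo` from StKc. -/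
def StHor : Prop := ∀ b c : ℝ, b ≠ 0 → |b| ≤ 2 → c ≤ -36 → 0 < Dynamics.coverEntropy (hen b c) (KK b c)

/-- MODULE Uni (180 lines; theorem hUni (h1 : Helper83.PE.StFinA) (h2 : StNbM) (h3 : StHor) (h4 : Helper85.HN.StTop) : StUni). Near the conservative lines. `b0 = ±1`, `p0 = (1,1)` resp. `(-1,0)` (`p0.2 = (1+b0)²/4`). For every `c < p0.2` there is a neighbourhood of `(b0,c)` disjoint from `E0` (StFinA, resp. StNbM with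
`qq κ = √(-c)`: `κ = s + √(s²+1)`). `{b0} × [-36, p0.2 - η/2]` is compact: a uniform `δ₁` (`IsCompact.exists_thickening_subset_open` or a finite subcover) such that no `(b,c)` with `|b - b0| < δ₁`, `c ∈ [-36, p0.2 - η/2]` is in the closure of `E0`. For `c < -36`: StHor on the open set
`{b ≠ 0, |b| < 2, c < -36}`: `E0` does not meet it, so neither does its closure. So a frontier point with `|b - b0| < δ` has `c > p0.2 - η/2`, and `c ≤ (1+b)²/4 ≤ p0.2 + η/2` for `δ` small (StTop, first part). `dist` on `ℝ × ℝ` is the maximum. -/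
def StUni : Prop := ∀ η > 0, ∃ δ > 0, ∀ q ∈ frontier E0, (|q.1 - 1| < δ → dist q (1, 1) < η) ∧ (|q.1 + 1| < δ → dist q (-1, 0) < η)

/-- MODULE Itv (200 lines). A set of the plane homeomorphic to an interval, with two cut points. `Φ : I ≃ₜ S`, `t1 = Φ⁻¹ p1`, `t2 = Φ⁻¹ p2`, `t1 ≠ t2`. The set `S ∖ {p1}` is the union of the relatively open sets `{q.1 < 1}`, `{q.1 > 1}`, both nonempty; the sets `I ∩ Iio t1`, `I ∩ Ioi t1` are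
order connected, hence preconnected, so each is mapped into one of the two; both are nonempty and `{q.1 < 1}`, `{q.1 > 1}` are exactly their images (in some order). The same for `p2` and `q.1 < -1`, `q.1 > -1`. If `t2 < t1`: `p2` has `q.1 < 1`, so `{q.1 < 1}` is the image of `Iio t1`; `p1` has `q.1 > -1`, so
`{q.1 > -1}` is the image of `Ioi t2`; hence `{|q.1| ≤ 1} = Φ (Icc t2 t1)` (and `Icc t2 t1 ⊆ I`). If `t1 < t2` the same with the reversed order. Compose with the affine bijection `Icc 0 1 ≃ Icc t2 t1` (resp. the decreasing one onto `Icc t1 t2`). -/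
def StItv : Prop := ∀ (S : Set (ℝ × ℝ)) (p1 p2 : ℝ × ℝ), p1 ∈ S → p2 ∈ S → p1.1 = 1 → p2.1 = -1 → (∀ q ∈ S, q.1 = 1 → q = p1) → (∀ q ∈ S, q.1 = -1 → q = p2) →
  (∃ q ∈ S, 1 < q.1) → (∃ q ∈ S, q.1 < -1) → ∀ I : Set ℝ, I.OrdConnected → Nonempty (I ≃ₜ S) →
  ∃ e : Icc (0 : ℝ) 1 ≃ₜ {q : ℝ × ℝ | q ∈ S ∧ |q.1| ≤ 1}, (e ⟨0, by norm_num, by norm_num⟩ : ℝ × ℝ) = p2 ∧ (e ⟨1, by norm_num, by norm_num⟩ : ℝ × ℝ) = p1

/-- MODULE Ver (80 lines; theorem hVer (h1 : StHor) (h2 : Helper85.HN.StTop) : StVer). For `b = ±2` there is a frontier point: the vertical line contains points of `E0` (`c ≥ (1+b)²/4`) and points outside (`c ≤ -36`); the segment between them is connected, so it meets the frontier. -/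
def StVer : Prop := (∃ c : ℝ, ((2 : ℝ), c) ∈ frontier E0) ∧ ∃ c : ℝ, ((-2 : ℝ), c) ∈ frontier E0

/-- The final statement (assembly by helper83). -/
def StPin : Prop :=
  (∀ q : ℝ × ℝ, |q.1| = 1 → (q ∈ E0 ↔ (1 + q.1) ^ 2 / 4 ≤ q.2)) ∧
  (∀ η > 0, ∃ δ > 0, ∀ q ∈ frontier E0, |(|q.1| - 1)| < δ → dist q (1, 1) < η ∨ dist q (-1, 0) < η) ∧
  (1, 1) ∈ frontier E0 ∧ (-1, 0) ∈ frontier E0 ∧
  ∀ I : Set ℝ, I.OrdConnected → Nonempty (I ≃ₜ frontier E0) →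
    ∃ e : Icc (0 : ℝ) 1 ≃ₜ {q : ℝ × ℝ | q ∈ frontier E0 ∧ |q.1| ≤ 1},
      (e ⟨0, by norm_num, by norm_num⟩ : ℝ × ℝ) = (-1, 0) ∧ (e ⟨1, by norm_num, by norm_num⟩ : ℝ × ℝ) = (1, 1)

end Helper83.PF
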